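import Pool.Agent.H18.DJ.Df

/-!
# [H18 DJ Alp] Change of alphabet, trivial alphabets

`dhj_congr`: transport a line along `e : α ≃ β` (`Line.map`).
`dhj_of_subsingleton`: with at most one letter `Line.diagonal` works (`A` is nonempty, so all
words are equal; for the empty alphabet there is nothing to prove).  Take `N = 1`.
-/

set_option autoImplicit false

namespace Pool.Agent.H18.DJ

open Combinatorics

theorem dhj_congr {α β : Type} [Fintype α] [Fintype β] (e : α ≃ β) (h : DHJ α) : DHJ β := by
  classical
  intro δ hδ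
  obtain ⟨N, hN⟩ := h δ hδ
  refine ⟨N, fun ι _ hι A hA => ?_⟩
  have hinj : Function.Injective (fun x : ι → β => fun i => e.symm (x i)) := by
    intro x y hxy
    funext i
    exact e.symm.injective (congrFun hxy i)
  obtain ⟨l, hl⟩ := hN ι hι (A.image (fun x i => e.symm (x i))) (by
    rw [Finset.card_image_of_injective _ hinj, Fintype.card_congr e]
    exact hA)
  refine ⟨l.map e, fun x => ?_⟩
  obtain ⟨y, hy, hy2⟩ := Finset.mem_image.1 (hl (e.symm x))
  have h1 : l.map e x = y := by
    have h2 := l.map_apply e (e.symm x)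
    rw [Equiv.apply_symm_apply] at h2
    rw [h2]
    funext i
    show e (l (e.symm x) i) = y i
    rw [← hy2]
    exact e.apply_symm_apply _
  rw [h1]
  exact hy

theorem dhj_of_subsingleton (α : Type) [Fintype α] [Subsingleton α] : DHJ α := by
  intro δ hδ
  refine ⟨1, fun ι _ hι A hA => ?_⟩
  have : Nonempty ι := Fintype.card_pos_iff.1 hι
  refine ⟨Line.diagonal α ι, fun x => ?_⟩
  have : Nonempty α := ⟨x⟩
  have h1 : Fintype.card α = 1 := Fintype.card_eq_one_iff_nonempty_unique.2
    ⟨⟨⟨x⟩, fun y => Subsingleton.elim y x⟩⟩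
  rw [h1, Nat.cast_one, one_pow, mul_one] at hA
  have h2 : 0 < A.card := by
    have : (0 : ℝ) < A.card := hδ.trans_le hA
    exact_mod_cast this
  obtain ⟨a, ha⟩ := Finset.card_pos.1 h2
  rw [Subsingleton.elim (Line.diagonal α ι x) a]
  exact ha

end Pool.Agent.H18.DJ
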