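import Mathlib

/-!
# [H18 DJ] The density Hales-Jewett theorem: definitions

Words are functions `ι → α`, combinatorial lines and subspaces are those of Mathlib
(`Combinatorics.Line`, `Combinatorics.Subspace`).
-/

set_option autoImplicit false

namespace Pool.Agent.H18.DJ

open Combinatorics

/-- Density Hales-Jewett for the alphabet `α` and the density `δ`. -/
def P (α : Type) [Fintype α] (δ : ℝ) : Prop :=
  ∃ N : ℕ, ∀ (ι : Type) [Fintype ι], N ≤ Fintype.card ι → ∀ A : Finset (ι → α),
    δ * (Fintype.card α : ℝ) ^ Fintype.card ι ≤ A.card → ∃ l : Line α ι, ∀ x, l x ∈ A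

/-- Density Hales-Jewett for the alphabet `α`. -/
def DHJ (α : Type) [Fintype α] : Prop := ∀ δ : ℝ, 0 < δ → P α δ

/-- The multidimensional form: subspaces instead of lines. -/
def MDHJ (α : Type) [Fintype α] : Prop := ∀ (m : ℕ) (δ : ℝ), 0 < δ → ∃ N : ℕ,
  ∀ (ι : Type) [Fintype ι], N ≤ Fintype.card ι → ∀ A : Finset (ι → α),
    δ * (Fintype.card α : ℝ) ^ Fintype.card ι ≤ A.card →
      ∃ V : Subspace (Fin m) α ι, ∀ x, V x ∈ A

/-- Replace the letter `none` by `r`. -/
def rep {α ι : Type} (r : α) (y : ι → Option α) : ι → Option α := fun i => some ((y i).getD r)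

/-- `D` does not distinguish the letters `none` and `some r`. -/
def Ins {α ι : Type} (r : α) (D : Finset (ι → Option α)) : Prop := ∀ y, y ∈ D ↔ rep r y ∈ D

open Classical in
/-- `T` is a disjoint union of `m`-dimensional subspaces. -/
inductive Tiles {β ι : Type} [Fintype β] (m : ℕ) : Finset (ι → β) → Prop
  | empty : Tiles m ∅
  | add (T : Finset (ι → β)) (V : Subspace (Fin m) β ι) (hT : Tiles m T)
      (hV : ∀ x, V x ∉ T) : Tiles m (T ∪ Finset.univ.image V)

/-- `D` is a disjoint union of `m`-dimensional subspaces up to at most `e` points. -/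
def Tiled {β ι : Type} [Fintype β] (m : ℕ) (e : ℝ) (D : Finset (ι → β)) : Prop :=
  ∃ T : Finset (ι → β), T ⊆ D ∧ Tiles m T ∧ (D.card : ℝ) ≤ T.card + e

/-- The product weight of a word. -/
noncomputable def wt {γ ι : Type} [Fintype ι] (μ : γ → ℝ) (u : ι → γ) : ℝ := ∏ i, μ (u i)

open Classical in
/-- The expectation of `f` for the product weight. -/
noncomputable def ex {γ ι : Type} [Fintype γ] [Fintype ι] (μ : γ → ℝ) (f : (ι → γ) → ℝ) : ℝ :=
  ∑ u : ι → γ, wt μ u * f u

/-- Apply a (possibly improper) substitution. -/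
def sub {β η ι : Type} (u : ι → β ⊕ η) (x : η → β) : ι → β := fun i => (u i).elim id x

open Classical in
/-- Indicator of a proposition. -/
noncomputable def ind (p : Prop) : ℝ := if p then 1 else 0

/-- Weights of a random substitution: variable `c` with weight `q`, the letters share the rest. -/
noncomputable def W {β η : Type} [Fintype β] [Fintype η] (q : ℝ) : β ⊕ η → ℝ :=
  Sum.elim (fun _ => (1 - Fintype.card η * q) / Fintype.card β) (fun _ => q)

/-- Weight of the event that a random line with wildcard weight `t` has all its points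
`some r` in `A`. -/
noncomputable def F {α ι : Type} [Fintype α] [Fintype ι] (A : Finset (ι → Option α)) (t : ℝ) : ℝ :=
  ex (W (β := Option α) (η := Unit) t) (fun u => ind (∀ r : α, sub u (fun _ => some r) ∈ A))

/-- Density of `A`. -/
noncomputable def dens {β ι : Type} [Fintype β] [Fintype ι] (A : Finset (ι → β)) : ℝ :=
  (A.card : ℝ) / (Fintype.card β : ℝ) ^ Fintype.card ι

/-- The common blow-up factors of the scales. -/
def scl {M T : ℕ} (e : Fin M → Fin T) : ℕ := ∏ c : Fin M, ((c : ℕ) + 1) ^ (e c : ℕ)

end Pool.Agent.H18.DJ
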