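import Pool.Agent.H18.DJ.Inc
import Pool.Agent.H18.DJ.Alp

/-!
# [H18 DJ Fin] The density Hales-Jewett theorem

`dhj_option`: `P (Option α) δ` is trivial for `δ > 1`; descend from `δ₁ + j g` to `δ₁`.
`dhj`: `Fintype.induction_empty_option`.
-/

set_option autoImplicit false

namespace Pool.Agent.H18.DJ

open Combinatorics

theorem p_of_one_lt (β : Type) [Fintype β] [Nonempty β] {δ : ℝ} (hδ : 1 < δ) : P β δ := by
  refine ⟨0, fun ι _ _ A hA => ?_⟩
  exfalso
  classical
  have h1 : (A.card : ℝ) ≤ (Fintype.card β : ℝ) ^ Fintype.card ι := by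
    have h2 : A.card ≤ Fintype.card (ι → β) := Finset.card_le_univ A
    rw [Fintype.card_fun] at h2
    exact_mod_cast h2
  have h3 : (0 : ℝ) < (Fintype.card β : ℝ) ^ Fintype.card ι := by
    have : 0 < Fintype.card β := Fintype.card_pos
    positivity
  nlinarith

theorem dhj_option (α : Type) [Fintype α] [Nonempty α] (h : DHJ α) : DHJ (Option α) := by
  intro δ hδ
  obtain ⟨g, hg, hstep⟩ := increment α h δ hδ
  -- descend
  have key : ∀ j : ℕ, P (Option α) (δ + j * g) → P (Option α) δ := by
    intro j
    induction j with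
    | zero => intro h0; simpa using h0
    | succ j ih =>
      intro h1
      apply ih
      apply hstep
      · have : (0 : ℝ) ≤ j * g := by positivity
        linarith
      · have e : δ + (j : ℝ) * g + g = δ + ((j + 1 : ℕ) : ℝ) * g := by push_cast; ring
        rw [e]
        exact h1
  obtain ⟨j, hj⟩ := exists_nat_gt (1 / g)
  apply key j
  apply p_of_one_lt
  have : 1 < (j : ℝ) * g := by
    rw [div_lt_iff₀ hg] at hj
    exact hj
  linarith

theorem dhj (α : Type) [Fintype α] : DHJ α := by
  refine Fintype.induction_empty_option (P := fun α _ => DHJ α) ?_ ?_ ?_ α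
  · intro α β _ e h
    exact @dhj_congr α β (Fintype.ofEquiv β e.symm) _ e h
  · exact dhj_of_subsingleton PEmpty
  · intro α _ h
    rcases isEmpty_or_nonempty α with hα | hα
    · haveI : Subsingleton (Option α) := ⟨by
        rintro (_ | a) (_ | b)
        · rfl
        · exact hα.elim b
        · exact hα.elim a
        · exact hα.elim a⟩
      exact dhj_of_subsingleton (Option α)
    · exact dhj_option α h

/-- The density Hales-Jewett theorem for `Fin k` and words of length `n`. -/
theorem density_hales_jewett (k : ℕ) (δ : ℝ) (hδ : 0 < δ) : ∃ N : ℕ, ∀ n : ℕ, N ≤ n →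
    ∀ A : Finset (Fin n → Fin k), δ * (k : ℝ) ^ n ≤ A.card → ∃ l : Line (Fin k) (Fin n), ∀ x, l x ∈ A := by
  obtain ⟨N, hN⟩ := dhj (Fin k) δ hδ
  refine ⟨N, fun n hn A hA => hN (Fin n) (by simpa using hn) A (by simpa using hA)⟩

end Pool.Agent.H18.DJ
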