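import Pool.Agent.H18.DJ.Stp

/-!
# [H18 DJ Ink] Intersections of insensitive sets are tiled up to a small error

For a finset `L` of letters: `{y | ∀ r ∈ L, y ∈ D r}` is `Tiled m (ε b ^ n)` for `n ≥ N(L, m, ε)`.
Induction on `L`.  `L = ∅`: the full cube, `ins_tiled` for `univ` (insensitive for any letter).
`insert r L`: let `M = N(L, m, ε / 2)`; tile `D r` by `M`-dimensional subspaces up to `ε / 2`
(`ins_tiled`), and refine (`Tiles.refine`): for a subspace `V` the sets `{x | V x ∈ D s}` are
insensitive for `s` (`rep s (V (rep s x)) = rep s (V x)`), so the claim for `L` applies in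
dimension `M`.
-/

set_option autoImplicit false

namespace Pool.Agent.H18.DJ

open Combinatorics

private theorem rep_apply {α ι : Type} {M : ℕ} (r : α) (V : Subspace (Fin M) (Option α) ι)
    (x : Fin M → Option α) : rep r (V (rep r x)) = rep r (V x) := by
  funext i
  show some (((V.idxFun i).elim id (rep r x)).getD r) = some (((V.idxFun i).elim id x).getD r)
  cases V.idxFun i <;> rfl

open Classical in
private theorem insk_aux (α : Type) [Fintype α] [Nonempty α] (h : MDHJ α) (m : ℕ) (L : Finset α) :
    ∀ ε : ℝ, 0 < ε → ∃ N : ℕ, ∀ (ι : Type) [Fintype ι], N ≤ Fintype.card ι → ∀ D : α → Finset (ι → Option α),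
      (∀ r, Ins r (D r)) →
        Tiled m (ε * (Fintype.card (Option α) : ℝ) ^ Fintype.card ι)
          (Finset.univ.filter (fun y => ∀ r ∈ L, y ∈ D r)) := by
  induction L using Finset.induction_on with
  | empty =>
    intro ε hε
    obtain ⟨N, hN⟩ := ins_tiled α h m ε hε
    refine ⟨N, ?_⟩
    intro ι _ hc D _
    have e : (Finset.univ.filter (fun y : ι → Option α => ∀ r ∈ (∅ : Finset α), y ∈ D r)) = Finset.univ := by
      ext y
      simp
    rw [e]
    exact hN ι hc (Classical.arbitrary α) Finset.univ (fun y => by simp)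
  | insert r L hr ih =>
    intro ε hε
    obtain ⟨M, hM⟩ := ih (ε / 2) (by positivity)
    obtain ⟨N, hN⟩ := ins_tiled α h M (ε / 2) (by positivity)
    refine ⟨N, ?_⟩
    intro ι _ hc D hD
    obtain ⟨T, hTD, hT, hTc⟩ := hN ι hc r (D r) (hD r)
    set D' : Finset (ι → Option α) := Finset.univ.filter (fun y => ∀ s ∈ L, y ∈ D s) with hD'
    have href := hT.refine (m := m) D' (ε / 2) (by
      intro V _
      have h1 := hM (Fin M) (by simp) (fun s => Finset.univ.filter (fun x => V x ∈ D s)) (by
        intro s x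
        simp only [Finset.mem_filter, Finset.mem_univ, true_and]
        rw [hD s (V x), hD s (V (rep s x)), rep_apply])
      rw [Fintype.card_fin] at h1
      refine Eq.mp (congrArg (Tiled m _) ?_) h1
      ext x
      simp [hD'])
    obtain ⟨T', hT'D, hT', hT'c⟩ := href
    set Q : Finset (ι → Option α) := Finset.univ.filter (fun y => y ∈ D' ∧ y ∈ T) with hQ
    set Q2 : Finset (ι → Option α) := Finset.univ.filter (fun y => y ∈ D r ∧ y ∉ T) with hQ2
    have q1 : (Q.card : ℝ) ≤ T'.card + ε / 2 * T.card := by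
      refine le_trans (le_of_eq ?_) hT'c
      exact congrArg (fun s : Finset (ι → Option α) => (s.card : ℝ)) (by ext y; simp [hQ])
    have q2 : ∀ y ∈ T', y ∈ D' ∧ y ∈ T := fun y hy => by simpa using hT'D hy
    set P : Finset (ι → Option α) := Finset.univ.filter (fun y => y ∈ D' ∧ y ∈ D r) with hP
    have e : P = (Finset.univ.filter (fun y : ι → Option α => ∀ s ∈ insert r L, y ∈ D s)) := by
      ext y
      simp only [hP, hD', Finset.mem_filter, Finset.mem_univ, true_and, Finset.mem_insert, forall_eq_or_imp]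
      exact and_comm
    refine Eq.mp (congrArg (Tiled m _) e) ?_
    refine ⟨T', ?_, hT', ?_⟩
    · intro y hy
      rw [hP, Finset.mem_filter]
      exact ⟨Finset.mem_univ y, (q2 y hy).1, hTD (q2 y hy).2⟩
    have h1 : P.card ≤ Q.card + Q2.card := by
      refine (Finset.card_le_card ?_).trans (Finset.card_union_le _ _)
      intro y hy
      rw [hP, Finset.mem_filter] at hy
      rw [Finset.mem_union]
      by_cases h2 : y ∈ T
      · exact Or.inl (Finset.mem_filter.2 ⟨Finset.mem_univ y, hy.2.1, h2⟩)
      · exact Or.inr (Finset.mem_filter.2 ⟨Finset.mem_univ y, hy.2.2, h2⟩)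
    have h2 : Q2.card + T.card = (D r).card := by
      have h4 : Q2 = D r \ T := by
        ext y
        simp [hQ2]
      rw [h4]
      exact Finset.card_sdiff_add_card_eq_card hTD
    have h3 : (T.card : ℝ) ≤ (Fintype.card (Option α) : ℝ) ^ Fintype.card ι := by
      have h4 := Finset.card_le_univ T
      rw [Fintype.card_fun] at h4
      exact_mod_cast h4
    have h1' : (P.card : ℝ) ≤ Q.card + Q2.card := by exact_mod_cast h1
    have h2' : (Q2.card : ℝ) + T.card = (D r).card := by exact_mod_cast h2
    have h5 : ε / 2 * (T.card : ℝ) ≤ ε / 2 * (Fintype.card (Option α) : ℝ) ^ Fintype.card ι :=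
      mul_le_mul_of_nonneg_left h3 (by positivity)
    linarith

open Classical in
theorem insk_tiled (α : Type) [Fintype α] [Nonempty α] (h : MDHJ α) (m : ℕ) (ε : ℝ) (hε : 0 < ε) :
    ∃ N : ℕ, ∀ (ι : Type) [Fintype ι], N ≤ Fintype.card ι → ∀ D : α → Finset (ι → Option α),
      (∀ r, Ins r (D r)) →
        Tiled m (ε * (Fintype.card (Option α) : ℝ) ^ Fintype.card ι)
          (Finset.univ.filter (fun y => ∀ r, y ∈ D r)) := by
  obtain ⟨N, hN⟩ := insk_aux α h m Finset.univ ε hε
  refine ⟨N, ?_⟩
  intro ι _ hc D hD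
  refine Eq.mp (congrArg (Tiled m _) ?_) (hN ι hc D hD)
  ext y
  simp

end Pool.Agent.H18.DJ
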