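import Pool.Agent.H18.DJ.Df

/-!
# [H18 DJ Mdh] The multidimensional density Hales-Jewett theorem from the one-dimensional one

Induction on `m`.  `m = 0`: `A` is nonempty, a constant subspace (`idxFun = inl ∘ w`).
`m + 1`: let `N₁` be the number of `MDHJ` for `m`, `δ / 2`, `K = (|α| + m) ^ N₁` a bound for the
number of subspaces `Subspace (Fin m) α (Fin N₁)`, `N₂` the number of `P α (δ / (2 K))`,
`N = N₁ + N₂`.  For `card ι ≥ N` take an equivalence `ι ≃ Fin N₁ ⊕ κ`, `card κ ≥ N₂`.  The words
`z : κ → α` with section `{x : Fin N₁ → α | Sum.elim x z ∈ A}` of density at least `δ / 2` have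
density at least `δ / 2`; each has a subspace in its section, so one subspace `V` works for a set
of `z` of density at least `δ / (2 K)`, which contains a line `l`.  `V` and `l` together give an
`(m + 1)`-dimensional subspace: `Sum.elim V.idxFun l.idxFun` (variable `Fin.last m` or `0` for the
line).
-/

set_option autoImplicit false

namespace Pool.Agent.H18.DJ

open Combinatorics

/-- a subspace and a line give a subspace -/
private def join {α ι κ : Type} {m : ℕ} (V : Subspace (Fin m) α ι) (l : Line α κ) :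
    Subspace (Fin (m + 1)) α (ι ⊕ κ) where
  idxFun := Sum.elim (fun i => (V.idxFun i).map id Fin.succ) (fun j => (l.idxFun j).elim (Sum.inr 0) Sum.inl)
  proper := by
    intro c
    refine Fin.cases ?_ (fun c => ?_) c
    · obtain ⟨j, hj⟩ := l.proper
      exact ⟨Sum.inr j, by simp [hj]⟩
    · obtain ⟨i, hi⟩ := V.proper c
      exact ⟨Sum.inl i, by simp [hi]⟩

private theorem join_apply {α ι κ : Type} {m : ℕ} (V : Subspace (Fin m) α ι) (l : Line α κ) (x : Fin (m + 1) → α) :
    join V l x = Sum.elim (V (fun c => x c.succ)) (l (x 0)) := by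
  funext i
  cases i with
  | inl i =>
    simp only [Subspace.coe_apply, join, Sum.elim_inl]
    cases V.idxFun i <;> rfl
  | inr j =>
    simp only [Subspace.coe_apply, join, Sum.elim_inr, Line.coe_apply]
    cases l.idxFun j <;> rfl

theorem mdhj (α : Type) [Fintype α] [Nonempty α] (h : DHJ α) : MDHJ α := by
  classical
  obtain ⟨b, hb⟩ : ∃ b : ℕ, b = Fintype.card α := ⟨_, rfl⟩
  have hb1 : 0 < b := by rw [hb]; exact Fintype.card_pos
  have hb0 : (0 : ℝ) < b := by exact_mod_cast hb1
  intro m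
  induction m with
  | zero =>
    intro δ hδ
    refine ⟨0, fun ι _ _ A hA => ?_⟩
    rw [← hb] at hA
    have h1 : (0 : ℝ) < A.card := lt_of_lt_of_le (by positivity) hA
    obtain ⟨w, hw⟩ := Finset.card_pos.1 (by exact_mod_cast h1 : 0 < A.card)
    exact ⟨⟨fun i => Sum.inl (w i), fun e => e.elim0⟩, fun x => hw⟩
  | succ m ih =>
    intro δ hδ
    obtain ⟨N₁, hN₁⟩ := ih (δ / 2) (by positivity)
    obtain ⟨K, hK⟩ : ∃ K : ℕ, K = Fintype.card (Fin N₁ → α ⊕ Fin m) := ⟨_, rfl⟩
    have hK1 : 0 < K := by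
      rw [hK]
      exact Fintype.card_pos
    have hK0 : (0 : ℝ) < K := by exact_mod_cast hK1
    obtain ⟨N₂, hN₂⟩ := h (δ / 2 / K) (by positivity)
    refine ⟨N₁ + N₂, fun ι _ hι A hA => ?_⟩
    rw [← hb] at hA
    obtain ⟨M, hM⟩ : ∃ M : ℕ, Fintype.card ι = N₁ + M := ⟨Fintype.card ι - N₁, by omega⟩
    obtain ⟨g⟩ : Nonempty (ι ≃ Fin N₁ ⊕ Fin M) := by
      rw [← Fintype.card_eq, hM, Fintype.card_sum, Fintype.card_fin, Fintype.card_fin]
    -- the sections
    obtain ⟨Se, hSe⟩ : ∃ Se : (Fin M → α) → Finset (Fin N₁ → α), Se = fun z =>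
      Finset.univ.filter (fun x => (fun i => Sum.elim x z (g i)) ∈ A) := ⟨_, rfl⟩
    have hsum : A.card = ∑ z, (Se z).card := by
      have h1 : A.card = (Finset.univ.sigma Se).card := by
        refine Finset.card_bij' (fun w _ => ⟨fun j => w (g.symm (Sum.inr j)), fun i => w (g.symm (Sum.inl i))⟩)
          (fun p _ => fun i => Sum.elim p.2 p.1 (g i)) ?_ ?_ ?_ ?_
        · intro w hw
          rw [Finset.mem_sigma, hSe]
          refine ⟨Finset.mem_univ _, ?_⟩
          simp only [Finset.mem_filter, Finset.mem_univ, true_and]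
          have h2 : (fun i => Sum.elim (fun i => w (g.symm (Sum.inl i))) (fun j => w (g.symm (Sum.inr j))) (g i)) = w := by
            funext i
            obtain ⟨u, hu⟩ : ∃ u, u = g i := ⟨_, rfl⟩
            have h3 : i = g.symm u := by rw [hu, Equiv.symm_apply_apply]
            rw [← hu, h3]
            cases u <;> rfl
          rw [h2]
          exact hw
        · intro p hp
          rw [Finset.mem_sigma, hSe] at hp
          exact (Finset.mem_filter.1 hp.2).2
        · intro w _
          funext i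
          obtain ⟨u, hu⟩ : ∃ u, u = g i := ⟨_, rfl⟩
          have h3 : i = g.symm u := by rw [hu, Equiv.symm_apply_apply]
          show Sum.elim (fun i => w (g.symm (Sum.inl i))) (fun j => w (g.symm (Sum.inr j))) (g i) = w i
          rw [← hu, h3]
          cases u <;> rfl
        · intro p _
          obtain ⟨z, x⟩ := p
          simp only [Equiv.apply_symm_apply, Sum.elim_inr, Sum.elim_inl]
      rw [h1, Finset.card_sigma]
    obtain ⟨Z, hZ⟩ : ∃ Z : Finset (Fin M → α), Z = Finset.univ.filter (fun z => δ / 2 * (b : ℝ) ^ N₁ ≤ (Se z).card) := ⟨_, rfl⟩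
    have hSle : ∀ z, ((Se z).card : ℝ) ≤ (b : ℝ) ^ N₁ := by
      intro z
      have h1 : (Se z).card ≤ b ^ N₁ := by
        calc (Se z).card ≤ Fintype.card (Fin N₁ → α) := Finset.card_le_univ _
          _ = b ^ N₁ := by rw [Fintype.card_fun, Fintype.card_fin, hb]
      exact_mod_cast h1
    have hZc : δ / 2 * (b : ℝ) ^ M ≤ Z.card := by
      have h1 : (A.card : ℝ) ≤ ∑ z : Fin M → α, ((if z ∈ Z then (b : ℝ) ^ N₁ else 0) + δ / 2 * (b : ℝ) ^ N₁) := by
        rw [hsum]
        push_cast
        refine Finset.sum_le_sum fun z _ => ?_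
        by_cases hz : z ∈ Z
        · rw [if_pos hz]
          have := hSle z
          have : 0 ≤ δ / 2 * (b : ℝ) ^ N₁ := by positivity
          linarith
        · rw [if_neg hz, zero_add]
          rw [hZ, Finset.mem_filter] at hz
          push Not at hz
          exact (hz (Finset.mem_univ _)).le
      rw [Finset.sum_add_distrib, ← Finset.sum_filter, Finset.sum_const, Finset.sum_const, nsmul_eq_mul, nsmul_eq_mul,
        Finset.filter_mem_eq_inter, Finset.univ_inter, Finset.card_univ, Fintype.card_fun, Fintype.card_fin, ← hb] at h1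
      rw [hM, pow_add] at hA
      push_cast at h1
      have h2 : 0 < (b : ℝ) ^ N₁ := by positivity
      have h3 : (δ / 2 * (b : ℝ) ^ M) * (b : ℝ) ^ N₁ ≤ Z.card * (b : ℝ) ^ N₁ := by nlinarith
      exact le_of_mul_le_mul_right h3 h2
    -- a subspace for every `z ∈ Z`
    have hch : ∀ z : Fin M → α, ∃ f : Fin N₁ → α ⊕ Fin m, z ∈ Z → ∃ V : Subspace (Fin m) α (Fin N₁), V.idxFun = f ∧
        ∀ x, V x ∈ Se z := by
      intro z
      by_cases hz : z ∈ Z
      · rw [hZ, Finset.mem_filter] at hz
        obtain ⟨V, hV⟩ := hN₁ (Fin N₁) (by rw [Fintype.card_fin]) (Se z) (by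
          rw [Fintype.card_fin, ← hb]
          exact hz.2)
        exact ⟨V.idxFun, fun _ => ⟨V, rfl, hV⟩⟩
      · exact ⟨fun _ => Sum.inl (Classical.arbitrary α), fun h => absurd h hz⟩
    choose f hf using hch
    obtain ⟨f₀, -, hf₀⟩ : ∃ f₀ ∈ (Finset.univ : Finset (Fin N₁ → α ⊕ Fin m)), Z.card ≤ K * (Z.filter (fun z => f z = f₀)).card := by
      by_contra hcon
      push Not at hcon
      have h1 : Z.card = ∑ f₀ : Fin N₁ → α ⊕ Fin m, (Z.filter (fun z => f z = f₀)).card :=
        Finset.card_eq_sum_card_fiberwise (fun _ _ => Finset.mem_univ _)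
      have h2 : ∑ f₀ : Fin N₁ → α ⊕ Fin m, K * (Z.filter (fun z => f z = f₀)).card < ∑ _f₀ : Fin N₁ → α ⊕ Fin m, Z.card := by
        refine Finset.sum_lt_sum_of_nonempty ?_ (fun f₀ h => hcon f₀ h)
        exact Finset.univ_nonempty
      rw [← Finset.mul_sum, ← h1, Finset.sum_const, Finset.card_univ, ← hK, smul_eq_mul] at h2
      omega
    obtain ⟨Y, hY⟩ : ∃ Y : Finset (Fin M → α), Y = Z.filter (fun z => f z = f₀) := ⟨_, rfl⟩
    rw [← hY] at hf₀
    have hYc : δ / 2 / K * (b : ℝ) ^ M ≤ Y.card := by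
      have h1 : (Z.card : ℝ) ≤ K * Y.card := by exact_mod_cast hf₀
      rw [div_mul_eq_mul_div, div_le_iff₀ hK0]
      linarith
    obtain ⟨l, hl⟩ := hN₂ (Fin M) (by rw [Fintype.card_fin]; omega) Y (by
      rw [Fintype.card_fin, ← hb]
      exact hYc)
    obtain ⟨V, hV, -⟩ : ∃ V : Subspace (Fin m) α (Fin N₁), V.idxFun = f₀ ∧ True := by
      have h1 := hl (Classical.arbitrary α)
      rw [hY, Finset.mem_filter] at h1
      obtain ⟨V, hV1, -⟩ := hf _ h1.1
      exact ⟨V, hV1.trans h1.2, trivial⟩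
    have hVall : ∀ z ∈ Y, ∀ x, V x ∈ Se z := by
      intro z hz x
      rw [hY, Finset.mem_filter] at hz
      obtain ⟨V', hV1, hV2⟩ := hf z hz.1
      have h1 : V' = V := Subspace.ext (by rw [hV1, hz.2, hV])
      rw [← h1]
      exact hV2 x
    refine ⟨⟨fun i => (join V l).idxFun (g i), fun c => ?_⟩, fun x => ?_⟩
    · obtain ⟨i, hi⟩ := (join V l).proper c
      exact ⟨g.symm i, by rw [Equiv.apply_symm_apply]; exact hi⟩
    · have h1 := hVall (l (x 0)) (hl (x 0)) (fun c => x c.succ)
      rw [hSe, Finset.mem_filter] at h1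
      have h2 : (fun i => Sum.elim (V (fun c => x c.succ)) (l (x 0)) (g i)) ∈ A := h1.2
      rw [← join_apply] at h2
      exact h2

end Pool.Agent.H18.DJ
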