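import Pool.Agent.H18.DJ.Pck
import Pool.Agent.H18.DJ.Ink
import Pool.Agent.H18.DJ.Mdh

/-!
# [H18 DJ Inc] The density increment

`θ` from `pick` for `δ₁`, `ρ = δ₁ θ / 64`, `g = ρ θ / 16`, `k = card α`, `b = k + 1`.  Given
`P (Option α) (δ + g)` with number `N'`: `m = N'`, tiles from `insk_tiled` for `m` and
`τ = δ₁ θ / (64 k)`, `M ≥ N'` large (`(k / b) ^ M ≤ ρ` too), `n ≥ N` of `pick`.
Suppose `A` has density `≥ δ` and no line.  Pull back along subspaces: `{x | V x ∈ A}` has no line,
hence density `< δ + g ≤ dens A + g`.  Take `V` from `pick`, `A' = {x | V x ∈ A}`,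
`D r = {y | V (rep r y) ∈ A}` (insensitive for `r`).  No `y` with a letter `none` is in `A'` and all
`D r` (else the line `V ∘ (line of y)` lies in `A`), so `(A' ∩ ⋂ D r).card ≤ k ^ M ≤ ρ b ^ M`.
For a finset `L` of letters let `E L = {y | ∀ r ∈ L, y ∈ D r}`; induction on `L`:
`(A' ∩ E L).card ≥ A'.card - (δ + g) (b ^ M - (E L).card) - card L * τ * b ^ M`, because
`E L \ E (insert r L) = E L ∩ (D r)ᶜ` is an intersection of insensitive sets, so it is tiled up to
`τ b ^ M` and `A'` has density `< δ + g` on each tile (`Tiles.pigeon`, a tile has no line of `A'`).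
For `L = univ`: `ρ ≥ (dens A - ρ) - (δ + g) (1 - θ / 4) - k τ`, a contradiction.
-/

set_option autoImplicit false

namespace Pool.Agent.H18.DJ

open Combinatorics

/-- a line in a subspace -/
def lineComp {β η ι : Type} (V : Subspace η β ι) (l : Line β η) : Line β ι where
  idxFun i := (V.idxFun i).elim some l.idxFun
  proper := by
    obtain ⟨e, he⟩ := l.proper
    obtain ⟨i, hi⟩ := V.proper e
    exact ⟨i, by rw [hi]; exact he⟩

theorem lineComp_apply {β η ι : Type} (V : Subspace η β ι) (l : Line β η) (x : β) :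
    lineComp V l x = V (l x) := by
  funext i
  show ((V.idxFun i).elim some l.idxFun).getD x = (V.idxFun i).elim id (l x)
  cases V.idxFun i <;> rfl

/-- the line of a word with a letter `none` -/
def lineOf {α η : Type} (y : η → Option α) (h : ∃ e, y e = none) : Line (Option α) η where
  idxFun e := (y e).map some
  proper := by
    obtain ⟨e, he⟩ := h
    exact ⟨e, by rw [he]; rfl⟩

theorem lineOf_some {α η : Type} (y : η → Option α) (h : ∃ e, y e = none) (r : α) :
    lineOf y h (some r) = rep r y := by
  funext e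
  show ((y e).map some).getD (some r) = some ((y e).getD r)
  cases y e <;> rfl

theorem lineOf_none {α η : Type} (y : η → Option α) (h : ∃ e, y e = none) :
    lineOf y h none = y := by
  funext e
  show ((y e).map some).getD none = y e
  cases y e <;> rfl

open Classical in
/-- the part without the letters of `L` -/
noncomputable def EL {α η : Type} [Fintype α] [Fintype η] (D : α → Finset (η → Option α))
    (L : Finset α) : Finset (η → Option α) :=
  Finset.univ.filter (fun y => ∀ r ∈ L, y ∈ D r)

open Classical in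
/-- the difference is tiled -/
theorem diff_tiled {α : Type} [Fintype α] [Nonempty α] {m M : ℕ} {e : ℝ}
    (hN : ∀ D : α → Finset (Fin M → Option α), (∀ r, Ins r (D r)) →
      Tiled m e (Finset.univ.filter (fun y => ∀ r, y ∈ D r)))
    (D : α → Finset (Fin M → Option α)) (hD : ∀ r, Ins r (D r)) (L : Finset α) (r : α)
    (hr : r ∉ L) : Tiled m e (EL D L \ D r) := by
  have h := hN (fun s => if s ∈ L then D s else if s = r then (D r)ᶜ else Finset.univ) (by
    intro s
    by_cases h1 : s ∈ L
    · simp only [if_pos h1]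
      exact hD s
    · by_cases h2 : s = r
      · subst h2
        simp only [if_neg h1, if_true]
        intro y
        rw [Finset.mem_compl, Finset.mem_compl]
        exact not_congr (hD s y)
      · simp only [if_neg h1, if_neg h2]
        intro y
        simp)
  have e1 : (Finset.univ.filter (fun y : Fin M → Option α => ∀ s, y ∈
      (if s ∈ L then D s else if s = r then (D r)ᶜ else Finset.univ))) = EL D L \ D r := by
    ext y
    simp only [EL, Finset.mem_filter, Finset.mem_univ, true_and, Finset.mem_sdiff]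
    constructor
    · intro h
      refine ⟨fun s hs => ?_, ?_⟩
      · have := h s
        rwa [if_pos hs] at this
      · have := h r
        rw [if_neg hr, if_pos rfl, Finset.mem_compl] at this
        exact this
    · rintro ⟨h1, h2⟩ s
      by_cases h3 : s ∈ L
      · rw [if_pos h3]
        exact h1 s h3
      · by_cases h4 : s = r
        · rw [if_neg h3, if_pos h4, Finset.mem_compl]
          exact h2
        · rw [if_neg h3, if_neg h4]
          exact Finset.mem_univ _
  rw [← e1]
  exact h

open Classical in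
/-- the induction on the set of letters -/
theorem card_EL {α : Type} [Fintype α] [Nonempty α] {m M : ℕ} {τ η : ℝ} (hη : 0 ≤ η)
    (hN : ∀ D : α → Finset (Fin M → Option α), (∀ r, Ins r (D r)) →
      Tiled m (τ * (Fintype.card (Option α) : ℝ) ^ M) (Finset.univ.filter (fun y => ∀ r, y ∈ D r)))
    (D : α → Finset (Fin M → Option α)) (hD : ∀ r, Ins r (D r)) (A : Finset (Fin M → Option α))
    (hA : ∀ V : Subspace (Fin m) (Option α) (Fin M),
      ((Finset.univ.filter (fun x : Fin m → Option α => V x ∈ A)).card : ℝ) ≤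
        η * (Fintype.card (Option α) : ℝ) ^ m) (L : Finset α) :
    (A.card : ℝ) - η * ((Fintype.card (Option α) : ℝ) ^ M - ((EL D L).card : ℝ)) -
      L.card * (τ * (Fintype.card (Option α) : ℝ) ^ M) ≤ ((A ∩ EL D L).card : ℝ) := by
  induction L using Finset.induction_on with
  | empty =>
    have h1 : EL D ∅ = Finset.univ := by
      ext y
      simp [EL]
    rw [h1, Finset.inter_univ, Finset.card_univ, Fintype.card_fun, Fintype.card_fin]
    push_cast
    simp
  | insert r L hr ih =>
    have h0 : EL D (insert r L) = EL D L ∩ D r := by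
      ext y
      simp only [EL, Finset.mem_filter, Finset.mem_univ, true_and, Finset.mem_inter,
        Finset.forall_mem_insert]
      exact and_comm
    obtain ⟨T, hT1, hT2, hT3⟩ := diff_tiled hN D hD L r hr
    have c1 : ((EL D L).card : ℝ) = ((EL D (insert r L)).card : ℝ) + ((EL D L \ D r).card : ℝ) := by
      rw [h0]
      exact_mod_cast (Finset.card_inter_add_card_sdiff (EL D L) (D r)).symm
    have c2 : ((A ∩ EL D L).card : ℝ) = ((A ∩ EL D (insert r L)).card : ℝ) +
        ((A ∩ (EL D L \ D r)).card : ℝ) := by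
      have h2 := Finset.card_inter_add_card_sdiff (A ∩ EL D L) (D r)
      have h3 : (A ∩ EL D L) ∩ D r = A ∩ EL D (insert r L) := by
        rw [h0, Finset.inter_assoc]
      have h4 : (A ∩ EL D L) \ D r = A ∩ (EL D L \ D r) := by
        rw [Finset.inter_sdiff_assoc]
      rw [h3, h4] at h2
      exact_mod_cast h2.symm
    have c3 : ((A ∩ T).card : ℝ) ≤ η * T.card := by
      by_contra hn
      push Not at hn
      obtain ⟨V, -, hV⟩ := Tiles.pigeon hT2 A η (lt_of_lt_of_eq hn
        (congrArg (fun n : ℕ => (n : ℝ)) (congrArg Finset.card (Finset.ext fun y => by simp only [Finset.mem_inter]))))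
      exact absurd (hA V) (not_le.2 (lt_of_lt_of_eq hV
        (congrArg (fun n : ℕ => (n : ℝ)) (congrArg Finset.card (Finset.ext fun y => by simp only [Finset.mem_filter])))))
    have c4 : ((A ∩ (EL D L \ D r)).card : ℝ) ≤ ((A ∩ T).card : ℝ) +
        (((EL D L \ D r).card : ℝ) - T.card) := by
      have h5 : A ∩ (EL D L \ D r) ⊆ (A ∩ T) ∪ ((EL D L \ D r) \ T) := by
        intro y hy
        rw [Finset.mem_inter] at hy
        by_cases hyT : y ∈ T
        · exact Finset.mem_union_left _ (Finset.mem_inter.2 ⟨hy.1, hyT⟩)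
        · exact Finset.mem_union_right _ (Finset.mem_sdiff.2 ⟨hy.2, hyT⟩)
      have h6 := (Finset.card_le_card h5).trans (Finset.card_union_le _ _)
      have h7 := Finset.card_sdiff_add_card_eq_card hT1
      have h6' : ((A ∩ (EL D L \ D r)).card : ℝ) ≤ ((A ∩ T).card : ℝ) +
        (((EL D L \ D r) \ T).card : ℝ) := by exact_mod_cast h6
      have h7' : (((EL D L \ D r) \ T).card : ℝ) + (T.card : ℝ) = ((EL D L \ D r).card : ℝ) := by
        exact_mod_cast h7
      linarith
    have c5 : η * (T.card : ℝ) ≤ η * ((EL D L \ D r).card : ℝ) := by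
      apply mul_le_mul_of_nonneg_left _ hη
      exact_mod_cast Finset.card_le_card hT1
    have c6 : ((insert r L).card : ℝ) = L.card + 1 := by
      rw [Finset.card_insert_of_notMem hr]
      push_cast
      ring
    rw [c6]
    rw [c1, c2] at ih
    nlinarith [c3, c4, c5, hT3, ih]

open Classical in
theorem increment (α : Type) [Fintype α] [Nonempty α] (h : DHJ α) (δ₁ : ℝ) (hδ₁ : 0 < δ₁) :
    ∃ g : ℝ, 0 < g ∧ ∀ δ : ℝ, δ₁ ≤ δ → P (Option α) (δ + g) → P (Option α) δ := by
  obtain ⟨θ, hθ, hθ1, hpick⟩ := pick α h δ₁ hδ₁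
  set k : ℝ := (Fintype.card α : ℝ) with hk
  set B : ℝ := (Fintype.card (Option α) : ℝ) with hB
  have hk0 : 1 ≤ k := by
    have : 1 ≤ Fintype.card α := Fintype.card_pos
    rw [hk]
    exact_mod_cast this
  have hBk : B = k + 1 := by
    rw [hB, hk, Fintype.card_option]
    push_cast
    rfl
  have hB0 : 0 < B := by rw [hBk]; linarith
  have hρ : 0 < δ₁ * θ / 64 := by positivity
  refine ⟨δ₁ * θ / 64 * θ / 16, by positivity, fun δ hδ hP => ?_⟩
  set ρ : ℝ := δ₁ * θ / 64 with hρd
  set g : ℝ := ρ * θ / 16 with hg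
  have hg0 : 0 < g := by positivity
  obtain ⟨N', hN'⟩ := hP
  have hτ : 0 < δ₁ * θ / (64 * k) := by positivity
  obtain ⟨N₁, hN₁⟩ := insk_tiled α (mdhj α h) N' (δ₁ * θ / (64 * k)) hτ
  obtain ⟨M₀, hM₀⟩ := hpick ρ hρ
  obtain ⟨M₁, hM₁⟩ : ∃ M₁ : ℕ, (k / B) ^ M₁ ≤ ρ := by
    have h1 : k / B < 1 := by
      rw [div_lt_one hB0, hBk]
      linarith
    obtain ⟨M₁, h2⟩ := exists_pow_lt_of_lt_one hρ h1
    exact ⟨M₁, h2.le⟩
  set M := max (max M₀ N') (max N₁ M₁) with hM
  have m1 : M₀ ≤ M := (le_max_left _ _).trans (le_max_left _ _)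
  have m2 : N' ≤ M := (le_max_right _ _).trans (le_max_left _ _)
  have m3 : N₁ ≤ M := (le_max_left _ _).trans (le_max_right _ _)
  have m4 : M₁ ≤ M := (le_max_right _ _).trans (le_max_right _ _)
  have hkM : k ^ M ≤ ρ * B ^ M := by
    have h1 : (k / B) ^ M ≤ ρ := by
      refine le_trans (pow_le_pow_of_le_one (by positivity) ?_ m4) hM₁
      rw [div_le_one hB0, hBk]
      linarith
    rwa [div_pow, div_le_iff₀ (by positivity)] at h1
  obtain ⟨N, hN⟩ := hM₀ M m1
  refine ⟨N, fun ι _ hι A hA => ?_⟩
  by_contra hno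
  push Not at hno
  have hBn : (0 : ℝ) < B ^ Fintype.card ι := by positivity
  have hBM : (0 : ℝ) < B ^ M := by positivity
  have hdA : δ ≤ dens A := by
    unfold dens
    rw [le_div_iff₀ hBn]
    exact hA
  -- no line in a pull back
  have hnl : ∀ V : Subspace (Fin M) (Option α) ι, ∀ l : Line (Option α) (Fin M),
      ¬ ∀ x, V (l x) ∈ A := by
    intro V l hl
    obtain ⟨x, hx⟩ := hno (lineComp V l)
    apply hx
    rw [lineComp_apply]
    exact hl x
  have hlt : ∀ V : Subspace (Fin M) (Option α) ι,
      ((Finset.univ.filter (fun x : Fin M → Option α => V x ∈ A)).card : ℝ) <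
        (δ + g) * B ^ M := by
    intro V
    by_contra hn
    push Not at hn
    obtain ⟨l, hl⟩ := hN' (Fin M) (by rw [Fintype.card_fin]; exact m2)
      (Finset.univ.filter (fun x : Fin M → Option α => V x ∈ A)) (by
        rw [Fintype.card_fin]
        exact hn)
    refine hnl V l (fun x => ?_)
    have := hl x
    rw [Finset.mem_filter] at this
    exact this.2
  obtain ⟨V, hV1, hV2⟩ := hN ι hι A (hδ.trans hdA) (fun V => by
    have h1 : dens (Finset.univ.filter (fun x : Fin M → Option α => V x ∈ A)) < δ + g := by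
      unfold dens
      rw [Fintype.card_fin, div_lt_iff₀ hBM]
      exact hlt V
    linarith)
  set A' := Finset.univ.filter (fun x : Fin M → Option α => V x ∈ A) with hA'
  let D : α → Finset (Fin M → Option α) :=
    fun r => Finset.univ.filter (fun y => V (rep r y) ∈ A)
  have hD : ∀ r, Ins r (D r) := by
    intro r y
    simp only [D, Finset.mem_filter, Finset.mem_univ, true_and, rep_rep]
  have hmain := card_EL (m := N') (M := M) (τ := δ₁ * θ / (64 * k)) (η := δ + g)
    (by linarith) (fun D hD => by
      have := hN₁ (Fin M) (by rw [Fintype.card_fin]; exact m3) D hD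
      rw [Fintype.card_fin] at this
      refine Eq.mpr (congrArg (Tiled N' _) (Finset.ext fun y => ?_)) this
      simp only [Finset.mem_filter, Finset.mem_univ]) D hD A' (fun V' => by
      by_contra hn
      push Not at hn
      obtain ⟨l, hl⟩ := hN' (Fin N') (by rw [Fintype.card_fin])
        (Finset.univ.filter (fun x : Fin N' → Option α => V' x ∈ A')) (by
          rw [Fintype.card_fin]
          exact hn.le)
      refine hnl V (lineComp V' l) (fun x => ?_)
      have := hl x
      rw [Finset.mem_filter, hA', Finset.mem_filter] at this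
      rw [lineComp_apply]
      exact this.2.2) Finset.univ
  have hE : EL D Finset.univ =
      Finset.univ.filter (fun y : Fin M → Option α => ∀ r : α, V (rep r y) ∈ A) := by
    ext y
    simp [EL, D]
  rw [hE] at hmain
  set E := Finset.univ.filter (fun y : Fin M → Option α => ∀ r : α, V (rep r y) ∈ A) with hEd
  -- the intersection is small
  have hsmall : ((A' ∩ E).card : ℝ) ≤ k ^ M := by
    have h1 : A' ∩ E ⊆ Finset.univ.image (fun (z : Fin M → α) (i : Fin M) => some (z i)) := by
      intro y hy
      rw [Finset.mem_inter, hA', hEd, Finset.mem_filter, Finset.mem_filter] at hy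
      obtain ⟨⟨-, hy1⟩, -, hy2⟩ := hy
      have h2 : ¬ ∃ e, y e = none := by
        intro he
        refine hnl V (lineOf y he) (fun x => ?_)
        rcases x with _ | r
        · rw [lineOf_none]
          exact hy1
        · rw [lineOf_some]
          exact hy2 r
      push Not at h2
      have h3 : ∀ e, ∃ a, y e = some a := fun e => Option.ne_none_iff_exists'.1 (h2 e)
      choose z hz using h3
      rw [Finset.mem_image]
      exact ⟨z, Finset.mem_univ _, funext (fun e => (hz e).symm)⟩
    have h2 := (Finset.card_le_card h1).trans Finset.card_image_le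
    rw [Finset.card_univ, Fintype.card_fun, Fintype.card_fin] at h2
    rw [hk]
    exact_mod_cast h2
  -- conclusion
  have hdA' : dens A' * B ^ M = A'.card := by
    unfold dens
    rw [Fintype.card_fin, div_mul_cancel₀ _ hBM.ne']
  have hdE : dens E * B ^ M = E.card := by
    unfold dens
    rw [Fintype.card_fin, div_mul_cancel₀ _ hBM.ne']
  rw [← hdA', ← hdE, Finset.card_univ] at hmain
  have hkτ : (Fintype.card α : ℝ) * (δ₁ * θ / (64 * k) * B ^ M) = δ₁ * θ / 64 * B ^ M := by
    rw [← hk]
    field_simp
  rw [hkτ] at hmain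
  have h1 : (dens A' - (δ + g) * (1 - dens E) - δ₁ * θ / 64) * B ^ M ≤ ρ * B ^ M := by
    have : (dens A' - (δ + g) * (1 - dens E) - δ₁ * θ / 64) * B ^ M =
      dens A' * B ^ M - (δ + g) * (B ^ M - dens E * B ^ M) - δ₁ * θ / 64 * B ^ M := by ring
    rw [this]
    exact (hmain.trans hsmall).trans hkM
  have h2 := le_of_mul_le_mul_right h1 hBM
  have h3 : (δ + g) * (θ / 4) ≤ (δ + g) * dens E :=
    mul_le_mul_of_nonneg_left hV2 (by linarith)
  have h4 : δ₁ * θ ≤ δ * θ := mul_le_mul_of_nonneg_right hδ hθ.le
  have h5 : g ≤ ρ := by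
    rw [hg]
    have : ρ * θ ≤ ρ * 1 := mul_le_mul_of_nonneg_left hθ1 hρ.le
    linarith
  have h6 : 0 < g * θ := by positivity
  have h7 : δ₁ * θ = 64 * ρ := by rw [hρd]; ring
  nlinarith [h2, h3, h4, h5, h6, h7, hV1, hdA]

end Pool.Agent.H18.DJ
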