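import Pool.Agent.H18.DJ.LawA

/-!
# [H18 DJ Law] The law of the points and of the lines of a random substitution

`b = card (Option α)`, `n = card ι`, `u` random with weight `W q` on `Option α ⊕ η`.
`law_point`: `sub u x i = π (u i)`, `π (inl a) = a`, `π (inr c) = x c`; the pushed weight is
`ν a = (1 - M q) / b + q * #{c | x c = a}`, close to `μ a = 1 / b` (`κ = M q b`), use `ex_push`,
`ex_tv`; `ex (fun _ => 1 / b) (indicator of A) = dens A`.
`law_line`: `sub u (rep r y) = sub (τ ∘ u) (fun _ => some r)` with `τ (inl a) = inl a`,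
`τ (inr c) = inr ()` if `y c = none`, `inl (y c)` otherwise; the pushed weight is `j q` at `inr ()`,
`(1 - M q) / b + q * #{c | y c = a}` at `inl a` (for `a = none` only the first term), close to
`W (j q)` (`κ = 2 M q b`, as `1 - j q ≥ 1 / 2`).
-/

set_option autoImplicit false

namespace Pool.Agent.H18.DJ

open Combinatorics

/-- uniform weight: density -/
private theorem ex_unif {β ι : Type} [Fintype β] [Fintype ι] (A : Finset (ι → β)) :
    ex (fun _ : β => 1 / (Fintype.card β : ℝ)) (fun v : ι → β => ind (v ∈ A)) = dens A := by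
  classical
  unfold ex wt dens ind
  simp only [Finset.prod_const, Finset.card_univ, mul_ite, mul_one, mul_zero]
  rw [← Finset.sum_filter, Finset.sum_const, nsmul_eq_mul]
  have : Finset.univ.filter (fun v : ι → β => v ∈ A) = A := by
    ext v; simp
  rw [this, one_div, inv_pow]
  rfl

private theorem push_sum {γ γ' : Type} [Fintype γ] [Fintype γ'] [DecidableEq γ'] (μ : γ → ℝ)
    (π : γ → γ') :
    ∑ c, ∑ a ∈ Finset.univ.filter (fun a => π a = c), μ a = ∑ a, μ a :=
  Finset.sum_fiberwise (Finset.univ : Finset γ) π μ

private theorem abs_sub_le' {x y c : ℝ} (hx : 0 ≤ x) (hy : 0 ≤ y) (hxc : x ≤ c) (hyc : y ≤ c) :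
    |x - y| ≤ c := by
  rw [abs_le]; constructor <;> linarith

theorem law_point {β ι : Type} [Fintype β] [Nonempty β] [Fintype ι] (M : ℕ) (q : ℝ) (hq : 0 < q)
    (hMq : M * q ≤ 1 / 2)
    (hn : (2 * (M * q * Fintype.card β)) ^ 2 * Fintype.card ι ≤ 1)
    (A : Finset (ι → β)) (x : Fin M → β) :
    |ex (W q) (fun u : ι → β ⊕ Fin M => ind (sub u x ∈ A)) - dens A| ≤
      4 * (M * q * Fintype.card β) * Real.sqrt (Fintype.card ι) := by
  classical
  have hb : (1 : ℝ) ≤ (Fintype.card β : ℝ) := by exact_mod_cast Fintype.card_pos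
  have hb0 : (0 : ℝ) < (Fintype.card β : ℝ) := by linarith
  set π : β ⊕ Fin M → β := Sum.elim id x with hπ
  set f : (ι → β) → ℝ := fun v => ind (v ∈ A) with hf
  set ν : β → ℝ := fun c => ∑ a ∈ Finset.univ.filter (fun a => π a = c), W q a with hν
  have h1 : ex (W q) (fun u : ι → β ⊕ Fin M => ind (sub u x ∈ A)) = ex ν f := by
    have h2 := ex_push (ι := ι) (W q) π f
    have h3 : (fun u : ι → β ⊕ Fin M => ind (sub u x ∈ A)) = fun u : ι → β ⊕ Fin M => f (fun i => π (u i)) := rfl
    rw [h3, h2]
  rw [h1, ← ex_unif A]
  have hMb : 0 ≤ (M : ℝ) * q := by positivity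
  have hκ : 0 ≤ (M : ℝ) * q * Fintype.card β := by positivity
  have hval : ∀ c, ν c = (1 - M * q) / Fintype.card β + (Finset.univ.filter (fun i => x i = c)).card * q := by
    intro c
    simp only [hν]
    rw [Finset.sum_filter, Fintype.sum_sum_type]
    have e1 : (∑ a : β, if π (Sum.inl a) = c then (W q (Sum.inl a : β ⊕ Fin M) : ℝ) else 0) = (1 - M * q) / Fintype.card β := by
      have : ∀ a : β, (if π (Sum.inl a) = c then (W q (Sum.inl a : β ⊕ Fin M) : ℝ) else 0) =
          if a = c then (1 - M * q) / Fintype.card β else 0 := by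
        intro a
        simp [hπ, W]
      rw [Finset.sum_congr rfl fun a _ => this a]
      simp
    have e2 : (∑ i : Fin M, if π (Sum.inr i) = c then (W q (Sum.inr i : β ⊕ Fin M) : ℝ) else 0) =
        (Finset.univ.filter (fun i => x i = c)).card * q := by
      have : ∀ i : Fin M, (if π (Sum.inr i) = c then (W q (Sum.inr i : β ⊕ Fin M) : ℝ) else 0) =
          if x i = c then q else 0 := by
        intro a
        simp [hπ, W]
      rw [Finset.sum_congr rfl fun a _ => this a, ← Finset.sum_filter, Finset.sum_const, nsmul_eq_mul]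
    rw [e1, e2]
  have hcard : ∀ c, ((Finset.univ.filter (fun i => x i = c)).card : ℝ) * q ≤ M * q := by
    intro c
    refine mul_le_mul_of_nonneg_right ?_ hq.le
    have := Finset.card_filter_le (Finset.univ : Finset (Fin M)) (fun i => x i = c)
    rw [Finset.card_univ, Fintype.card_fin] at this
    exact_mod_cast this
  have h4 := ex_tv (ι := ι) (fun _ : β => 1 / (Fintype.card β : ℝ)) ν (M * q * Fintype.card β)
    (fun _ => by positivity)
    (by rw [Finset.sum_const, Finset.card_univ, nsmul_eq_mul]; field_simp)
    (by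
      have := push_sum (W q) π
      simp only [hν]
      rw [this]
      exact W_sum q) hκ
    (by
      intro c
      have e : (M * q * Fintype.card β) * (1 / (Fintype.card β : ℝ)) = M * q := by field_simp
      rw [e, hval c]
      have e2 : (1 - M * q) / (Fintype.card β : ℝ) + (Finset.univ.filter (fun i => x i = c)).card * q -
          1 / (Fintype.card β : ℝ) = (Finset.univ.filter (fun i => x i = c)).card * q - M * q / Fintype.card β := by
        field_simp; ring
      rw [e2]
      refine abs_sub_le' (by positivity) (by positivity) (hcard c) ?_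
      rw [div_le_iff₀ hb0]
      nlinarith)
    (by
      refine le_trans ?_ hn
      refine mul_le_mul_of_nonneg_right ?_ (by positivity)
      exact pow_le_pow_left₀ hκ (by linarith) 2) f
    (by
      intro v
      rw [hf, abs_of_nonneg (ind_nonneg _)]
      exact ind_le_one _)
  refine h4.trans ?_
  have h5 : 0 ≤ Real.sqrt (Fintype.card ι) := Real.sqrt_nonneg _
  have h6 : 0 ≤ ((M : ℝ) * q * Fintype.card β) * Real.sqrt (Fintype.card ι) := mul_nonneg hκ h5
  nlinarith

open Classical in
theorem law_line {α ι : Type} [Fintype α] [Fintype ι] (M : ℕ) (q : ℝ) (hq : 0 < q)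
    (hMq : M * q ≤ 1 / 2)
    (hn : (2 * (M * q * Fintype.card (Option α))) ^ 2 * Fintype.card ι ≤ 1)
    (A : Finset (ι → Option α)) (y : Fin M → Option α) (hy : ∃ c, y c = none) :
    |ex (W q) (fun u : ι → Option α ⊕ Fin M => ind (∀ r : α, sub u (rep r y) ∈ A)) -
      F A ((Finset.univ.filter (fun c => y c = none)).card * q)| ≤
      4 * (M * q * Fintype.card (Option α)) * Real.sqrt (Fintype.card ι) := by
  have hb : (1 : ℝ) ≤ (Fintype.card (Option α) : ℝ) := by exact_mod_cast Fintype.card_pos
  have hb0 : (0 : ℝ) < (Fintype.card (Option α) : ℝ) := by linarith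
  set j : ℕ := (Finset.univ.filter (fun c => y c = none)).card with hj
  have hj1 : (1 : ℝ) ≤ (j : ℝ) := by
    obtain ⟨c, hc⟩ := hy
    have : 0 < j := Finset.card_pos.2 ⟨c, by simp [hc]⟩
    exact_mod_cast this
  have hjM : (j : ℝ) ≤ (M : ℝ) := by
    have := Finset.card_filter_le (Finset.univ : Finset (Fin M)) (fun c => y c = none)
    rw [Finset.card_univ, Fintype.card_fin] at this
    exact_mod_cast this
  have hjq : (j : ℝ) * q ≤ M * q := mul_le_mul_of_nonneg_right hjM hq.le
  have hjq0 : 0 < (j : ℝ) * q := by positivity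
  set τ : Option α ⊕ Fin M → Option α ⊕ Unit :=
    Sum.elim (fun a => Sum.inl a) (fun c => if y c = none then Sum.inr () else Sum.inl (y c)) with hτ
  set f : (ι → Option α ⊕ Unit) → ℝ := fun v => ind (∀ r : α, sub v (fun _ => some r) ∈ A) with hf
  set ν : Option α ⊕ Unit → ℝ := fun c => ∑ a ∈ Finset.univ.filter (fun a => τ a = c), W q a with hν
  have h1 : ex (W q) (fun u : ι → Option α ⊕ Fin M => ind (∀ r : α, sub u (rep r y) ∈ A)) = ex ν f := by
    have h2 := ex_push (ι := ι) (W q) τ f
    have h3 : (fun u : ι → Option α ⊕ Fin M => ind (∀ r : α, sub u (rep r y) ∈ A)) =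
        fun u : ι → Option α ⊕ Fin M => f (fun i => τ (u i)) := by
      funext u
      have h4 : ∀ r : α, sub u (rep r y) = sub (fun i => τ (u i)) (fun _ => some r) := by
        intro r
        funext i
        show Sum.elim id (fun c => some ((y c).getD r)) (u i) = Sum.elim id (fun _ => some r) (τ (u i))
        rcases u i with a | c
        · simp [hτ]
        · by_cases hc : y c = none
          · simp [hτ, hc]
          · obtain ⟨a, ha⟩ := Option.ne_none_iff_exists'.1 hc
            simp [hτ, ha]
      simp only [hf, h4]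
    rw [h3, h2]
    refine congrArg (fun g => ex g f) ?_
    funext c
    simp only [hν]
    refine Finset.sum_congr ?_ fun _ _ => rfl
    ext a
    simp only [Finset.mem_filter]
  rw [h1]
  have hF : F A (j * q) = ex (W (j * q)) f := rfl
  rw [hF]
  have hκ : 0 ≤ 2 * ((M : ℝ) * q * Fintype.card (Option α)) := by positivity
  have hMj : (M : ℝ) * q ≤ 1 / 2 := hMq
  -- values
  have v1 : ∀ a : Option α, ν (Sum.inl a) = (1 - M * q) / Fintype.card (Option α) +
      (Finset.univ.filter (fun c => y c ≠ none ∧ y c = a)).card * q := by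
    intro a
    simp only [hν]
    rw [Finset.sum_filter, Fintype.sum_sum_type]
    have e1 : (∑ a' : Option α, if τ (Sum.inl a') = Sum.inl a then (W q (Sum.inl a' : Option α ⊕ Fin M) : ℝ) else 0) =
        (1 - M * q) / Fintype.card (Option α) := by
      have : ∀ a' : Option α, (if τ (Sum.inl a') = Sum.inl a then (W q (Sum.inl a' : Option α ⊕ Fin M) : ℝ) else 0) =
          if a' = a then (1 - M * q) / Fintype.card (Option α) else 0 := by
        intro a'
        simp [hτ, W]
      rw [Finset.sum_congr rfl fun a _ => this a]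
      simp
    have e2 : (∑ c : Fin M, if τ (Sum.inr c) = Sum.inl a then (W q (Sum.inr c : Option α ⊕ Fin M) : ℝ) else 0) =
        (Finset.univ.filter (fun c => y c ≠ none ∧ y c = a)).card * q := by
      have : ∀ c : Fin M, (if τ (Sum.inr c) = Sum.inl a then (W q (Sum.inr c : Option α ⊕ Fin M) : ℝ) else 0) =
          if y c ≠ none ∧ y c = a then q else 0 := by
        intro c
        by_cases hc : y c = none
        · simp [hτ, W, hc]
        · simp [hτ, W, hc]
      rw [Finset.sum_congr rfl fun a _ => this a, ← Finset.sum_filter, Finset.sum_const, nsmul_eq_mul]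
    rw [e1, e2]
  have v2 : ν (Sum.inr ()) = j * q := by
    simp only [hν]
    rw [Finset.sum_filter, Fintype.sum_sum_type]
    have e1 : (∑ a' : Option α, if τ (Sum.inl a') = Sum.inr () then (W q (Sum.inl a' : Option α ⊕ Fin M) : ℝ) else 0) = 0 := by
      refine Finset.sum_eq_zero fun a' _ => ?_
      simp [hτ]
    have e2 : (∑ c : Fin M, if τ (Sum.inr c) = Sum.inr () then (W q (Sum.inr c : Option α ⊕ Fin M) : ℝ) else 0) = j * q := by
      have : ∀ c : Fin M, (if τ (Sum.inr c) = Sum.inr () then (W q (Sum.inr c : Option α ⊕ Fin M) : ℝ) else 0) =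
          if y c = none then q else 0 := by
        intro c
        by_cases hc : y c = none
        · simp [hτ, W, hc]
        · simp [hτ, hc]
      rw [Finset.sum_congr rfl fun a _ => this a, ← Finset.sum_filter, Finset.sum_const, nsmul_eq_mul]
    rw [e1, e2, zero_add]
  have u1 : ∀ a : Option α, W (j * q) (Sum.inl a : Option α ⊕ Unit) = (1 - j * q) / Fintype.card (Option α) := by
    intro a
    simp [W]
  have u2 : W (j * q) (Sum.inr () : Option α ⊕ Unit) = j * q := rfl
  have hpos : ∀ c : Option α ⊕ Unit, 0 < W (j * q) c := by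
    rintro (a | ⟨⟩)
    · rw [u1]
      apply div_pos _ hb0
      linarith
    · rw [u2]; exact hjq0
  have hk : ∀ a : Option α, ((Finset.univ.filter (fun c => y c ≠ none ∧ y c = a)).card : ℝ) ≤ M - j := by
    intro a
    have e1 : Disjoint (Finset.univ.filter (fun c => y c ≠ none ∧ y c = a)) (Finset.univ.filter (fun c => y c = none)) := by
      rw [Finset.disjoint_left]
      intro c h1 h2
      simp only [Finset.mem_filter, Finset.mem_univ, true_and] at h1 h2
      exact h1.1 h2
    have e2 := Finset.card_union_of_disjoint e1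
    have e3 := Finset.card_le_univ ((Finset.univ.filter (fun c => y c ≠ none ∧ y c = a)) ∪ (Finset.univ.filter (fun c => y c = none)))
    rw [e2, Fintype.card_fin] at e3
    have e4 : ((Finset.univ.filter (fun c => y c ≠ none ∧ y c = a)).card : ℝ) + j ≤ M := by
      exact_mod_cast e3
    linarith
  have h4 := ex_tv (ι := ι) (W (j * q)) ν (2 * (M * q * Fintype.card (Option α))) hpos
    (W_sum _)
    (by
      have := push_sum (W q) τ
      simp only [hν]
      rw [this]
      exact W_sum q) hκ
    (by
      rintro (a | ⟨⟩)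
      · rw [u1, v1]
        have e2 : (1 - M * q) / (Fintype.card (Option α) : ℝ) + (Finset.univ.filter (fun c => y c ≠ none ∧ y c = a)).card * q -
            (1 - j * q) / (Fintype.card (Option α) : ℝ) =
            (Finset.univ.filter (fun c => y c ≠ none ∧ y c = a)).card * q - (M - j) * q / Fintype.card (Option α) := by
          field_simp; ring
        rw [e2]
        have e3 : M * q ≤ 2 * (M * q * Fintype.card (Option α)) * ((1 - j * q) / Fintype.card (Option α)) := by
          have e4 : 2 * (M * q * Fintype.card (Option α)) * ((1 - j * q) / Fintype.card (Option α)) =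
              2 * (M * q) * (1 - j * q) := by field_simp
          rw [e4]
          have : 0 ≤ (M : ℝ) * q := by positivity
          nlinarith
        refine le_trans ?_ e3
        have e5 : ((Finset.univ.filter (fun c => y c ≠ none ∧ y c = a)).card : ℝ) * q ≤ (M - j) * q :=
          mul_le_mul_of_nonneg_right (hk a) hq.le
        have e6 : 0 ≤ ((M : ℝ) - j) * q := mul_nonneg (by linarith) hq.le
        have e7 : ((M : ℝ) - j) * q ≤ M * q := mul_le_mul_of_nonneg_right (by linarith) hq.le
        refine abs_sub_le' (by positivity) (by positivity) (e5.trans e7) ?_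
        rw [div_le_iff₀ hb0]
        nlinarith
      · rw [u2, v2, sub_self, abs_zero]
        exact mul_nonneg hκ hjq0.le)
    hn f
    (by
      intro v
      rw [hf, abs_of_nonneg (ind_nonneg _)]
      exact ind_le_one _)
  refine h4.trans (le_of_eq ?_)
  ring

end Pool.Agent.H18.DJ
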