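import Pool.Agent.H18.DJ.Prd

/-!
# [H18 DJ LawA] The weights of a random substitution

`W_sum`: `b * ((1 - M q) / b) + M q = 1`.  `F_mem`: the weights of `W t` (`η = Unit`) are
nonnegative and sum to 1, `0 ≤ ind ≤ 1`, `ex_mono`, `ex_one`.
`improper`: union bound; the weight of the `u` which miss the variable `c` is `(1 - q) ^ n`
(`ind (∀ i, u i ≠ inr c) = ∏ i, ind (u i ≠ inr c)`, `Finset.prod_univ_sum`,
`Fintype.piFinset_univ`, and the weights of all letters except `inr c` sum to `1 - q`).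
-/

set_option autoImplicit false

namespace Pool.Agent.H18.DJ

theorem W_sum {β η : Type} [Fintype β] [Fintype η] [Nonempty β] (q : ℝ) :
    ∑ a : β ⊕ η, W q a = 1 := by
  have hb : (Fintype.card β : ℝ) ≠ 0 := by
    exact_mod_cast Fintype.card_ne_zero
  rw [Fintype.sum_sum_type]
  simp only [W, Sum.elim_inl, Sum.elim_inr, Finset.sum_const, Finset.card_univ, nsmul_eq_mul]
  field_simp
  ring

theorem W_nonneg {β η : Type} [Fintype β] [Fintype η] (q : ℝ) (hq : 0 ≤ q)
    (h : Fintype.card η * q ≤ 1) (a : β ⊕ η) : 0 ≤ W q a := by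
  rcases a with a | c
  · show 0 ≤ (1 - Fintype.card η * q) / Fintype.card β
    exact div_nonneg (by linarith) (Nat.cast_nonneg _)
  · exact hq

theorem ind_nonneg (p : Prop) : 0 ≤ ind p := by
  unfold ind
  split_ifs
  · exact zero_le_one
  · exact le_rfl

theorem ind_le_one (p : Prop) : ind p ≤ 1 := by
  unfold ind
  split_ifs
  · exact le_rfl
  · exact zero_le_one

theorem F_mem {α ι : Type} [Fintype α] [Fintype ι] (A : Finset (ι → Option α)) (t : ℝ)
    (h0 : 0 ≤ t) (h1 : t ≤ 1) : 0 ≤ F A t ∧ F A t ≤ 1 := by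
  have hW : ∀ a : Option α ⊕ Unit, 0 ≤ W t a := by
    refine W_nonneg t h0 ?_
    simpa using h1
  constructor
  · have h2 := ex_mono (ι := ι) hW (f := fun _ => 0)
      (g := fun u => ind (∀ r : α, sub u (fun _ => some r) ∈ A)) (fun u => ind_nonneg _)
    have h3 : ex (W (β := Option α) (η := Unit) t) (fun _ : ι → Option α ⊕ Unit => (0 : ℝ)) = 0 := by
      unfold ex
      simp
    rw [h3] at h2
    exact h2
  · have h2 := ex_mono (ι := ι) hW
      (f := fun u => ind (∀ r : α, sub u (fun _ => some r) ∈ A)) (g := fun _ => 1)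
      (fun u => ind_le_one _)
    rw [ex_one (W_sum t)] at h2
    exact h2

open Classical in
private theorem ex_prod' {γ ι : Type} [Fintype γ] [Fintype ι] (μ g : γ → ℝ) :
    ex μ (fun u : ι → γ => ∏ i, g (u i)) = (∑ a, μ a * g a) ^ Fintype.card ι := by
  unfold ex wt
  have h1 : (∑ a, μ a * g a) ^ Fintype.card ι = ∏ _i : ι, ∑ a ∈ (Finset.univ : Finset γ), μ a * g a := by
    rw [Finset.prod_const, Finset.card_univ]
  rw [h1, Finset.prod_univ_sum, Fintype.piFinset_univ]
  refine Finset.sum_congr rfl fun u _ => ?_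
  rw [Finset.prod_mul_distrib]

theorem improper {β ι : Type} [Fintype β] [Nonempty β] [Fintype ι] (M : ℕ) (q : ℝ) (hq : 0 < q)
    (hMq : M * q ≤ 1 / 2) :
    ex (W q) (fun u : ι → β ⊕ Fin M => ind (∃ c, ∀ i, u i ≠ Sum.inr c)) ≤
      M * (1 - q) ^ Fintype.card ι := by
  classical
  have hW : ∀ a : β ⊕ Fin M, 0 ≤ W q a := by
    refine W_nonneg q hq.le ?_
    rw [Fintype.card_fin]
    linarith
  have h1 : ∀ u : ι → β ⊕ Fin M, ind (∃ c, ∀ i, u i ≠ Sum.inr c) ≤
      ∑ c : Fin M, ∏ i, ind (u i ≠ Sum.inr c) := by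
    intro u
    by_cases h : ∃ c, ∀ i, u i ≠ Sum.inr c
    · obtain ⟨c, hc⟩ := h
      refine (ind_le_one _).trans ?_
      have h2 : ∏ i, ind (u i ≠ Sum.inr c) = 1 := by
        refine Finset.prod_eq_one fun i _ => ?_
        unfold ind
        rw [if_pos (hc i)]
      rw [← h2]
      exact Finset.single_le_sum (f := fun c => ∏ i, ind (u i ≠ Sum.inr c))
        (fun c _ => Finset.prod_nonneg fun i _ => ind_nonneg _) (Finset.mem_univ c)
    · have h2 : ind (∃ c, ∀ i, u i ≠ Sum.inr c) = 0 := by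
        unfold ind
        rw [if_neg h]
      rw [h2]
      exact Finset.sum_nonneg fun c _ => Finset.prod_nonneg fun i _ => ind_nonneg _
  refine (ex_mono hW h1).trans (le_of_eq ?_)
  have h2 : ex (W q) (fun u : ι → β ⊕ Fin M => ∑ c : Fin M, ∏ i, ind (u i ≠ Sum.inr c)) =
      ∑ c : Fin M, ex (W q) (fun u : ι → β ⊕ Fin M => ∏ i, ind (u i ≠ Sum.inr c)) := by
    unfold ex
    rw [Finset.sum_comm]
    refine Finset.sum_congr rfl fun u _ => ?_
    rw [Finset.mul_sum]
  rw [h2]
  have h3 : ∀ c : Fin M, ex (W q) (fun u : ι → β ⊕ Fin M => ∏ i, ind (u i ≠ Sum.inr c)) =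
      (1 - q) ^ Fintype.card ι := by
    intro c
    rw [ex_prod' (W q) (fun a : β ⊕ Fin M => ind (a ≠ Sum.inr c))]
    congr 1
    have h4 : ∀ a : β ⊕ Fin M, W q a * ind (a ≠ Sum.inr c) =
        W q a - (if a = Sum.inr c then q else 0) := by
      intro a
      by_cases ha : a = Sum.inr c
      · subst ha
        unfold ind
        rw [if_neg (not_not.2 rfl), if_pos rfl, mul_zero]
        show 0 = q - q
        ring
      · unfold ind
        rw [if_pos ha, if_neg ha, mul_one, sub_zero]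
    rw [Finset.sum_congr rfl fun a _ => h4 a, Finset.sum_sub_distrib, W_sum,
      Finset.sum_ite_eq' Finset.univ (Sum.inr c) (fun _ => q), if_pos (Finset.mem_univ _)]
  rw [Finset.sum_congr rfl fun c _ => h3 c, Finset.sum_const, Finset.card_univ, Fintype.card_fin,
    nsmul_eq_mul]

end Pool.Agent.H18.DJ
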