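import Pool.Agent.H18.DJ.Df

/-!
# [H18 DJ Scl] The scales are almost invariant under multiplication by `j ≤ M`

`((j : ℕ) + 1) * scl e = scl (e with e j replaced by e j + 1)` when `e j + 1 < T`; so the two sums
differ by a sum over the `e` with `e j = T - 1` minus a sum over the `e` with `e j = 0`, each
between `0` and `T ^ (M - 1)` (`T * (T ^ M / T)`).
-/

set_option autoImplicit false

namespace Pool.Agent.H18.DJ

theorem scl_pos {M T : ℕ} (e : Fin M → Fin T) : 1 ≤ scl e := by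
  unfold scl
  exact Nat.succ_le_of_lt (Finset.prod_pos fun c _ => pow_pos (Nat.succ_pos _) _)

theorem scl_le {M T : ℕ} (e : Fin M → Fin T) : scl e ≤ (M + 1) ^ (M * T) := by
  unfold scl
  calc ∏ c : Fin M, ((c : ℕ) + 1) ^ (e c : ℕ) ≤ ∏ _c : Fin M, (M + 1) ^ T := by
        refine Finset.prod_le_prod' fun c _ => ?_
        calc ((c : ℕ) + 1) ^ (e c : ℕ) ≤ (M + 1) ^ (e c : ℕ) :=
              Nat.pow_le_pow_left (by omega) _
          _ ≤ (M + 1) ^ T := Nat.pow_le_pow_right (by omega) (e c).isLt.le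
    _ = (M + 1) ^ (M * T) := by
        rw [Finset.prod_const, Finset.card_univ, Fintype.card_fin, ← pow_mul, mul_comm T M]

private theorem scl_split {M T : ℕ} (c0 : Fin M) (e : Fin M → Fin T) :
    ((scl e : ℕ) : ℝ) = ((c0 : ℕ) + 1 : ℝ) ^ (e c0 : ℕ) *
      ∏ c : {c : Fin M // c ≠ c0}, (((c : Fin M) : ℕ) + 1 : ℝ) ^ (e c : ℕ) := by
  unfold scl
  push_cast
  rw [← Finset.mul_prod_erase Finset.univ _ (Finset.mem_univ c0)]
  congr 1
  refine (Finset.prod_subtype (Finset.univ.erase c0) (fun c => ?_) _)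
  simp

/-- `avg_e G (j q (scl e))` is close to `avg_e G (q (scl e))` for `1 ≤ j ≤ M`. -/
theorem scl_shift {M T : ℕ} (hT : 0 < T) (G : ℝ → ℝ) (hG : ∀ t, 0 ≤ G t ∧ G t ≤ 1) (q : ℝ)
    (j : ℕ) (hj1 : 1 ≤ j) (hjM : j ≤ M) :
    |(∑ e : Fin M → Fin T, G (j * (q * scl e))) / (T : ℝ) ^ M -
      (∑ e : Fin M → Fin T, G (q * scl e)) / (T : ℝ) ^ M| ≤ 1 / T := by
  have hjlt : j - 1 < M := by omega
  set c0 : Fin M := ⟨j - 1, hjlt⟩ with hc0
  have hj : ((c0 : ℕ) + 1 : ℝ) = (j : ℝ) := by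
    have h1 : (c0 : ℕ) + 1 = j := by
      rw [hc0]
      show j - 1 + 1 = j
      omega
    exact_mod_cast h1
  let R : ({c : Fin M // c ≠ c0} → Fin T) → ℝ :=
    fun r => ∏ c : {c : Fin M // c ≠ c0}, (((c : Fin M) : ℕ) + 1 : ℝ) ^ (r c : ℕ)
  let K : ({c : Fin M // c ≠ c0} → Fin T) → ℕ → ℝ := fun r a => G (q * ((j : ℝ) ^ a * R r))
  have hs1 : ∑ e : Fin M → Fin T, G (q * scl e) =
      ∑ r : ({c : Fin M // c ≠ c0} → Fin T), ∑ a ∈ Finset.range T, K r a := by
    rw [Fintype.sum_equiv (Equiv.funSplitAt c0 (Fin T)) (fun e => G (q * scl e))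
      (fun p => K p.2 p.1) (fun e => ?_)]
    · rw [Fintype.sum_prod_type_right]
      refine Finset.sum_congr rfl fun r _ => ?_
      exact Fin.sum_univ_eq_sum_range (fun a => K r a) T
    · show G (q * scl e) = G (q * ((j : ℝ) ^ (e c0 : ℕ) * R fun c => e c))
      rw [scl_split c0 e, hj]
  have hs2 : ∑ e : Fin M → Fin T, G (j * (q * scl e)) =
      ∑ r : ({c : Fin M // c ≠ c0} → Fin T), ∑ a ∈ Finset.range T, K r (a + 1) := by
    rw [Fintype.sum_equiv (Equiv.funSplitAt c0 (Fin T)) (fun e => G (j * (q * scl e)))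
      (fun p => K p.2 ((p.1 : ℕ) + 1)) (fun e => ?_)]
    · rw [Fintype.sum_prod_type_right]
      refine Finset.sum_congr rfl fun r _ => ?_
      exact Fin.sum_univ_eq_sum_range (fun a => K r (a + 1)) T
    · show G (j * (q * scl e)) = G (q * ((j : ℝ) ^ ((e c0 : ℕ) + 1) * R fun c => e c))
      rw [scl_split c0 e, hj]
      congr 1
      show (j : ℝ) * (q * ((j : ℝ) ^ (e c0 : ℕ) * R fun c => e c)) = _
      ring
  have hcard : (T : ℝ) ^ M = T * (Fintype.card ({c : Fin M // c ≠ c0} → Fin T) : ℝ) := by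
    have h1 := Fintype.card_congr (Equiv.funSplitAt c0 (Fin T))
    rw [Fintype.card_prod, Fintype.card_fin, Fintype.card_fun, Fintype.card_fin,
      Fintype.card_fin] at h1
    exact_mod_cast h1
  have hTpos : (0 : ℝ) < T := by exact_mod_cast hT
  have hpow : (0 : ℝ) < (T : ℝ) ^ M := pow_pos hTpos M
  have hdiff : |(∑ e : Fin M → Fin T, G (j * (q * scl e))) -
      ∑ e : Fin M → Fin T, G (q * scl e)| ≤ (Fintype.card ({c : Fin M // c ≠ c0} → Fin T) : ℝ) := by
    rw [hs1, hs2, ← Finset.sum_sub_distrib]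
    refine (Finset.abs_sum_le_sum_abs _ _).trans ?_
    have h1 : ∀ r ∈ (Finset.univ : Finset ({c : Fin M // c ≠ c0} → Fin T)),
        |∑ a ∈ Finset.range T, K r (a + 1) - ∑ a ∈ Finset.range T, K r a| ≤ (1 : ℝ) := by
      intro r _
      rw [← Finset.sum_sub_distrib, Finset.sum_range_sub]
      have h2 := hG (q * ((j : ℝ) ^ T * R r))
      have h3 := hG (q * ((j : ℝ) ^ 0 * R r))
      rw [abs_le]
      constructor
      · show (-1 : ℝ) ≤ G (q * ((j : ℝ) ^ T * R r)) - G (q * ((j : ℝ) ^ 0 * R r))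
        linarith [h2.1, h3.2]
      · show G (q * ((j : ℝ) ^ T * R r)) - G (q * ((j : ℝ) ^ 0 * R r)) ≤ (1 : ℝ)
        linarith [h2.2, h3.1]
    refine (Finset.sum_le_sum h1).trans ?_
    rw [Finset.sum_const, Finset.card_univ, nsmul_eq_mul, mul_one]
  rw [← sub_div, abs_div, abs_of_pos hpow, div_le_div_iff₀ hpow hTpos, one_mul, hcard,
    mul_comm (T : ℝ)]
  exact mul_le_mul_of_nonneg_right hdiff hTpos.le

end Pool.Agent.H18.DJ
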