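import Pool.Agent.H18.DJ.Law
import Pool.Agent.H18.DJ.Scl

/-!
# [H18 DJ Lst] Lower bound for the average of `F A` over the scales

`k = card α`, `b = k + 1`.  `l ≥ 1` = the number of `P α (δ / 2)` (at least 1), `K = b ^ l`.
For every `q` of the sum: `∑ over y : Fin l → Option α with a letter none of
ex (W q) (ind (∀ r, sub u (rep r y) ∈ A)) ≥ ex (W q) (ind (δ / 2 * k ^ l ≤ #{x : Fin l → α |
sub u (some ∘ x) ∈ A}))` (a line of that set is such a `y`: `rep r y = some ∘ (line r)`), and the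
right side is at least `δ / 4`, because the expectation of `#{x ..} / k ^ l` is at least
`δ - error ≥ 3 δ / 4` by `law_point` (`w ≤ ind (δ / 2 ≤ w) + δ / 2` for `0 ≤ w ≤ 1`).
Average over the scales `q₀ * scl e` (`M ≥ l` variables in `scl`, but `l` variables in the
substitution), replace `ex ..` by `F A (j q)` (`law_line` with `l` variables) and by `F A q`
(`scl_shift`, cost `1 / T`).
-/

set_option autoImplicit false

namespace Pool.Agent.H18.DJ

open Combinatorics

private theorem err_sq {l q b n θ : ℝ} (hθ0 : 0 ≤ l * q * b) (hθ1 : θ ≤ 1) (hn : 0 ≤ n)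
    (herr : 4 * (l * q * b) * Real.sqrt n ≤ θ) : (2 * (l * q * b)) ^ 2 * n ≤ 1 := by
  have h1 : 2 * (l * q * b) * Real.sqrt n ≤ 1 := by
    have h2 : 0 ≤ l * q * b * Real.sqrt n := mul_nonneg hθ0 (Real.sqrt_nonneg _)
    nlinarith
  have h0 : 0 ≤ 2 * (l * q * b) * Real.sqrt n := by
    have := mul_nonneg hθ0 (Real.sqrt_nonneg n)
    nlinarith
  have h3 : (2 * (l * q * b) * Real.sqrt n) ^ 2 ≤ 1 := pow_le_one₀ h0 h1
  rwa [mul_pow, Real.sq_sqrt hn] at h3

open Classical in
theorem lines_lower (α : Type) [Fintype α] [Nonempty α] (δ : ℝ) (hδ : 0 < δ) (l : ℕ)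
    (hP : ∀ A : Finset (Fin l → α), δ / 2 * (Fintype.card α : ℝ) ^ l ≤ A.card →
      ∃ L : Line α (Fin l), ∀ x, L x ∈ A)
    (ι : Type) [Fintype ι] (q : ℝ) (hq : 0 < q) (hlq : l * q ≤ 1 / 2) (θ : ℝ) (hθ1 : θ ≤ 1)
    (hθδ : θ ≤ δ / 4)
    (herr : 4 * (l * q * Fintype.card (Option α)) * Real.sqrt (Fintype.card ι) ≤ θ)
    (A : Finset (ι → Option α)) (hA : δ ≤ dens A) :
    δ / 4 ≤ ∑ y ∈ Finset.univ.filter (fun y : Fin l → Option α => ∃ c, y c = none),
      ex (W q) (fun u : ι → Option α ⊕ Fin l => ind (∀ r : α, sub u (rep r y) ∈ A)) := by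
  have hk : (0 : ℝ) < Fintype.card α := by exact_mod_cast Fintype.card_pos
  have hkl : (0 : ℝ) < (Fintype.card α : ℝ) ^ l := pow_pos hk l
  have hn : (2 * (l * q * Fintype.card (Option α))) ^ 2 * Fintype.card ι ≤ 1 :=
    err_sq (by positivity) hθ1 (by positivity) herr
  have hWn : ∀ a : Option α ⊕ Fin l, 0 ≤ W q a := W_nonneg q hq.le (by
    rw [Fintype.card_fin]
    linarith)
  have hW1 : ∑ a : Option α ⊕ Fin l, W q a = 1 := W_sum q
  have hmean : (δ - θ) * (Fintype.card α : ℝ) ^ l ≤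
      ex (W q) (fun u : ι → Option α ⊕ Fin l =>
        ∑ x : Fin l → α, ind (sub u (fun c => some (x c)) ∈ A)) := by
    have h1 : ex (W q) (fun u : ι → Option α ⊕ Fin l =>
        ∑ x : Fin l → α, ind (sub u (fun c => some (x c)) ∈ A)) =
        ∑ x : Fin l → α, ex (W q) (fun u : ι → Option α ⊕ Fin l =>
          ind (sub u (fun c => some (x c)) ∈ A)) := by
      unfold ex
      rw [Finset.sum_comm]
      refine Finset.sum_congr rfl fun u _ => ?_
      rw [Finset.mul_sum]
    rw [h1]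
    have h2 : ∀ x : Fin l → α, δ - θ ≤ ex (W q) (fun u : ι → Option α ⊕ Fin l =>
        ind (sub u (fun c => some (x c)) ∈ A)) := by
      intro x
      have h3 := (abs_le.1 (law_point l q hq hlq hn A (fun c => some (x c)))).1
      linarith
    calc (δ - θ) * (Fintype.card α : ℝ) ^ l = ∑ _x : Fin l → α, (δ - θ) := by
          rw [Finset.sum_const, Finset.card_univ, Fintype.card_fun, Fintype.card_fin, nsmul_eq_mul]
          push_cast
          ring
      _ ≤ _ := Finset.sum_le_sum fun x _ => h2 x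
  have hpt : ∀ u : ι → Option α ⊕ Fin l,
      ∑ x : Fin l → α, ind (sub u (fun c => some (x c)) ∈ A) ≤
      (Fintype.card α : ℝ) ^ l *
        ∑ y ∈ Finset.univ.filter (fun y : Fin l → Option α => ∃ c, y c = none),
          ind (∀ r : α, sub u (rep r y) ∈ A) + δ / 2 * (Fintype.card α : ℝ) ^ l := by
    intro u
    have hcard : ∑ x : Fin l → α, ind (sub u (fun c => some (x c)) ∈ A) =
        ((Finset.univ.filter (fun x : Fin l → α =>
          sub u (fun c => some (x c)) ∈ A)).card : ℝ) := by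
      rw [Finset.card_filter]
      push_cast
      refine Finset.sum_congr rfl fun x _ => ?_
      unfold ind
      by_cases hx : sub u (fun c => some (x c)) ∈ A
      · rw [if_pos hx, if_pos hx]
      · rw [if_neg hx, if_neg hx]
    have hnn : ∀ y : Fin l → Option α, 0 ≤ ind (∀ r : α, sub u (rep r y) ∈ A) :=
      fun y => ind_nonneg _
    have hsn : 0 ≤ ∑ y ∈ Finset.univ.filter (fun y : Fin l → Option α => ∃ c, y c = none),
          ind (∀ r : α, sub u (rep r y) ∈ A) := Finset.sum_nonneg fun y _ => hnn y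
    rw [hcard]
    by_cases hc : δ / 2 * (Fintype.card α : ℝ) ^ l ≤
        ((Finset.univ.filter (fun x : Fin l → α => sub u (fun c => some (x c)) ∈ A)).card : ℝ)
    · obtain ⟨L, hL⟩ := hP _ hc
      have h1 : (1 : ℝ) ≤ ∑ y ∈ Finset.univ.filter (fun y : Fin l → Option α => ∃ c, y c = none),
          ind (∀ r : α, sub u (rep r y) ∈ A) := by
        have h2 : ind (∀ r : α, sub u (rep r L.idxFun) ∈ A) = 1 := by
          unfold ind
          rw [if_pos]
          intro r
          exact (Finset.mem_filter.1 (hL r)).2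
        rw [← h2]
        exact Finset.single_le_sum (f := fun y : Fin l → Option α =>
          ind (∀ r : α, sub u (rep r y) ∈ A)) (fun y _ => hnn y)
          (Finset.mem_filter.2 ⟨Finset.mem_univ _, L.proper⟩)
      have h3 : ((Finset.univ.filter (fun x : Fin l → α =>
          sub u (fun c => some (x c)) ∈ A)).card : ℝ) ≤ (Fintype.card α : ℝ) ^ l := by
        have h4 := Finset.card_filter_le (Finset.univ : Finset (Fin l → α))
          (fun x : Fin l → α => sub u (fun c => some (x c)) ∈ A)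
        rw [Finset.card_univ, Fintype.card_fun, Fintype.card_fin] at h4
        exact_mod_cast h4
      nlinarith
    · push Not at hc
      nlinarith
  have hex : ex (W q) (fun u : ι → Option α ⊕ Fin l =>
        ∑ x : Fin l → α, ind (sub u (fun c => some (x c)) ∈ A)) ≤
      (Fintype.card α : ℝ) ^ l *
        ∑ y ∈ Finset.univ.filter (fun y : Fin l → Option α => ∃ c, y c = none),
          ex (W q) (fun u : ι → Option α ⊕ Fin l => ind (∀ r : α, sub u (rep r y) ∈ A)) +
        δ / 2 * (Fintype.card α : ℝ) ^ l := by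
    refine (ex_mono hWn hpt).trans (le_of_eq ?_)
    have h1 := ex_one (ι := ι) hW1
    unfold ex at h1 ⊢
    simp only [mul_add, Finset.sum_add_distrib]
    congr 1
    · rw [Finset.mul_sum]
      simp only [Finset.mul_sum]
      rw [Finset.sum_comm]
      refine Finset.sum_congr rfl fun y _ => Finset.sum_congr rfl fun u _ => ?_
      ring
    · rw [← Finset.sum_mul]
      simp only [mul_one] at h1
      rw [h1, one_mul]
  have h1 := hmean.trans hex
  have h2 : (δ - θ - δ / 2) * (Fintype.card α : ℝ) ^ l ≤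
      (∑ y ∈ Finset.univ.filter (fun y : Fin l → Option α => ∃ c, y c = none),
          ex (W q) (fun u : ι → Option α ⊕ Fin l => ind (∀ r : α, sub u (rep r y) ∈ A))) *
        (Fintype.card α : ℝ) ^ l := by
    linarith
  have h3 := le_of_mul_le_mul_right h2 hkl
  linarith

open Classical in
theorem F_lower (α : Type) [Fintype α] [Nonempty α] (δ : ℝ) (hδ : 0 < δ) (l : ℕ)
    (hP : ∀ A : Finset (Fin l → α), δ / 2 * (Fintype.card α : ℝ) ^ l ≤ A.card →
      ∃ L : Line α (Fin l), ∀ x, L x ∈ A)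
    (ι : Type) [Fintype ι] (q : ℝ) (hq : 0 < q) (hlq : l * q ≤ 1 / 2) (θ : ℝ) (hθ1 : θ ≤ 1)
    (hθδ : θ ≤ δ / 4)
    (herr : 4 * (l * q * Fintype.card (Option α)) * Real.sqrt (Fintype.card ι) ≤ θ)
    (A : Finset (ι → Option α)) (hA : δ ≤ dens A) :
    δ / 4 ≤ ∑ y ∈ Finset.univ.filter (fun y : Fin l → Option α => ∃ c, y c = none),
      (F A ((Finset.univ.filter (fun c => y c = none)).card * q) + θ) := by
  have hn : (2 * (l * q * Fintype.card (Option α))) ^ 2 * Fintype.card ι ≤ 1 :=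
    err_sq (by positivity) hθ1 (by positivity) herr
  refine (lines_lower α δ hδ l hP ι q hq hlq θ hθ1 hθδ herr A hA).trans ?_
  refine Finset.sum_le_sum fun y hy => ?_
  have h1 := (abs_le.1 (law_line l q hq hlq hn A y (Finset.mem_filter.1 hy).2)).2
  linarith

/-- There are `θ > 0`, `T` and `l` such that for all `M ≥ l` and all small enough scales the average
of `F A` over the scales `q₀ * scl e` is at least `θ`. -/
theorem avg_F (α : Type) [Fintype α] [Nonempty α] (h : DHJ α) (δ : ℝ) (hδ : 0 < δ) :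
    ∃ (θ : ℝ) (l T₀ : ℕ), 0 < θ ∧ θ ≤ 1 ∧ 1 ≤ l ∧ ∀ (M T : ℕ), l ≤ M → T₀ ≤ T → 0 < T →
      ∀ (ι : Type) [Fintype ι] (q₀ : ℝ), 0 < q₀ → M * (q₀ * (M + 1 : ℝ) ^ (M * T)) ≤ 1 / 2 →
        4 * (M * (q₀ * (M + 1 : ℝ) ^ (M * T)) * Fintype.card (Option α)) *
          Real.sqrt (Fintype.card ι) ≤ θ →
        ∀ A : Finset (ι → Option α), δ ≤ dens A →
          2 * θ ≤ (∑ e : Fin M → Fin T, F A (q₀ * scl e)) / (T : ℝ) ^ M := by
  classical
  have hδ' : 0 < min δ 1 := lt_min hδ one_pos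
  obtain ⟨N, hN⟩ := h (min δ 1 / 2) (by positivity)
  obtain ⟨l, hl⟩ : ∃ l, l = max N 1 := ⟨_, rfl⟩
  obtain ⟨K, hK⟩ : ∃ K : ℝ, K = (Fintype.card (Option α) : ℝ) ^ l := ⟨_, rfl⟩
  have hb : (1 : ℝ) ≤ Fintype.card (Option α) := by
    exact_mod_cast Fintype.card_pos
  have hK1 : 1 ≤ K := by
    rw [hK]
    exact one_le_pow₀ hb
  obtain ⟨θ, hθ⟩ : ∃ θ : ℝ, θ = min δ 1 / (16 * K) := ⟨_, rfl⟩
  have hθ0 : 0 < θ := by
    rw [hθ]
    positivity
  have hKθ : 16 * (K * θ) = min δ 1 := by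
    rw [hθ]
    field_simp
  have hθδ : θ ≤ min δ 1 / 4 := by nlinarith
  have hθ1 : θ ≤ 1 := by
    have := min_le_right δ 1
    linarith
  refine ⟨θ, l, ⌈16 * K / min δ 1⌉₊, hθ0, hθ1, by rw [hl]; exact le_max_right _ _, ?_⟩
  intro M T hlM hT₀ hT ι _ q₀ hq₀ hMq herr A hA
  have hTr : (0 : ℝ) < T := by exact_mod_cast hT
  have hTK : K / T ≤ min δ 1 / 16 := by
    have h1 : 16 * K / min δ 1 ≤ T := (Nat.le_ceil _).trans (by exact_mod_cast hT₀)
    rw [div_le_iff₀ hδ'] at h1
    rw [div_le_div_iff₀ hTr (by norm_num)]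
    linarith
  have hP : ∀ A : Finset (Fin l → α), min δ 1 / 2 * (Fintype.card α : ℝ) ^ l ≤ A.card →
      ∃ L : Line α (Fin l), ∀ x, L x ∈ A := by
    intro A' hA'
    refine hN (Fin l) ?_ A' ?_
    · rw [Fintype.card_fin, hl]
      exact le_max_left _ _
    · rw [Fintype.card_fin]
      exact hA'
  have hA' : min δ 1 ≤ dens A := (min_le_left _ _).trans hA
  -- the scales
  have hlMr : (l : ℝ) ≤ M := by exact_mod_cast hlM
  have hscl : ∀ e : Fin M → Fin T, 0 < q₀ * scl e ∧ q₀ * scl e ≤ q₀ * (M + 1 : ℝ) ^ (M * T) := by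
    intro e
    have h1 : (1 : ℝ) ≤ scl e := by exact_mod_cast scl_pos e
    have h2 : (scl e : ℝ) ≤ (M + 1 : ℝ) ^ (M * T) := by exact_mod_cast scl_le e
    exact ⟨by positivity, mul_le_mul_of_nonneg_left h2 hq₀.le⟩
  have hlq : ∀ e : Fin M → Fin T, (l : ℝ) * (q₀ * scl e) ≤
      M * (q₀ * (M + 1 : ℝ) ^ (M * T)) := fun e =>
    mul_le_mul hlMr (hscl e).2 (hscl e).1.le (by positivity)
  have hFe : ∀ e : Fin M → Fin T, min δ 1 / 4 ≤
      ∑ y ∈ Finset.univ.filter (fun y : Fin l → Option α => ∃ c, y c = none),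
      (F A ((Finset.univ.filter (fun c => y c = none)).card * (q₀ * scl e)) + θ) := by
    intro e
    refine F_lower α (min δ 1) hδ' l hP ι (q₀ * scl e) (hscl e).1 ((hlq e).trans hMq) θ hθ1 hθδ ?_
      A hA'
    refine le_trans ?_ herr
    have h1 := hlq e
    have h2 := Real.sqrt_nonneg (Fintype.card ι : ℝ)
    gcongr
  -- a bounded version of `F A`
  obtain ⟨G, hGdef⟩ : ∃ G : ℝ → ℝ, G = fun t => if 0 ≤ t ∧ t ≤ 1 then F A t else 0 := ⟨_, rfl⟩
  have hG : ∀ t, 0 ≤ G t ∧ G t ≤ 1 := by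
    intro t
    rw [hGdef]
    by_cases ht : 0 ≤ t ∧ t ≤ 1
    · simp only [ht, and_self, if_true]
      exact F_mem A t ht.1 ht.2
    · simp only [ht, if_false]
      norm_num
  have hGF : ∀ t, 0 ≤ t → t ≤ 1 → G t = F A t := by
    intro t h0 h1
    rw [hGdef]
    simp [h0, h1]
  have hTM : (0 : ℝ) < (T : ℝ) ^ M := pow_pos hTr M
  have hcardE : (Fintype.card (Fin M → Fin T) : ℝ) = (T : ℝ) ^ M := by
    rw [Fintype.card_fun, Fintype.card_fin, Fintype.card_fin]
    push_cast
    rfl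
  obtain ⟨avg, havg⟩ : ∃ avg, avg = (∑ e : Fin M → Fin T, F A (q₀ * scl e)) / (T : ℝ) ^ M :=
    ⟨_, rfl⟩
  rw [← havg]
  have havgG : avg = (∑ e : Fin M → Fin T, G (q₀ * scl e)) / (T : ℝ) ^ M := by
    rw [havg]
    congr 1
    refine Finset.sum_congr rfl fun e _ => ?_
    refine (hGF _ (hscl e).1.le ?_).symm
    have h1 := hlq e
    have h2 : (1 : ℝ) ≤ l := by
      rw [hl]
      exact_mod_cast le_max_right _ _
    have h3 := (hscl e).1
    nlinarith
  have havg0 : 0 ≤ avg := by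
    rw [havgG]
    refine div_nonneg (Finset.sum_nonneg fun e _ => (hG _).1) hTM.le
  -- the shifts
  have hshift : ∀ y : Fin l → Option α, (∃ c, y c = none) →
      (∑ e : Fin M → Fin T,
        F A ((Finset.univ.filter (fun c => y c = none)).card * (q₀ * scl e))) / (T : ℝ) ^ M ≤
      avg + 1 / T := by
    intro y hy
    obtain ⟨j, hj⟩ : ∃ j, j = (Finset.univ.filter (fun c => y c = none)).card := ⟨_, rfl⟩
    have hj1 : 1 ≤ j := by
      rw [hj, Nat.one_le_iff_ne_zero, ← Nat.pos_iff_ne_zero, Finset.card_pos]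
      obtain ⟨c, hc⟩ := hy
      exact ⟨c, Finset.mem_filter.2 ⟨Finset.mem_univ _, hc⟩⟩
    have hjl : j ≤ l := by
      rw [hj]
      refine (Finset.card_filter_le _ _).trans ?_
      rw [Finset.card_univ, Fintype.card_fin]
    rw [← hj]
    have h1 := (abs_le.1 (scl_shift hT G hG q₀ j hj1 (hjl.trans hlM))).2
    have h2 : (∑ e : Fin M → Fin T, F A (j * (q₀ * scl e))) =
        ∑ e : Fin M → Fin T, G (j * (q₀ * scl e)) := by
      refine Finset.sum_congr rfl fun e _ => ?_
      refine (hGF _ ?_ ?_).symm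
      · have := (hscl e).1
        positivity
      · have h3 := hlq e
        have h4 : (j : ℝ) ≤ l := by exact_mod_cast hjl
        have h5 := (hscl e).1
        have h6 : (j : ℝ) * (q₀ * scl e) ≤ l * (q₀ * scl e) :=
          mul_le_mul_of_nonneg_right h4 h5.le
        linarith
    rw [h2, havgG]
    linarith
  -- the average of the lower bounds
  obtain ⟨Y, hY⟩ : ∃ Y : Finset (Fin l → Option α),
      Y = Finset.univ.filter (fun y : Fin l → Option α => ∃ c, y c = none) := ⟨_, rfl⟩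
  have hYK : (Y.card : ℝ) ≤ K := by
    rw [hY, hK]
    have h1 := Finset.card_filter_le (Finset.univ : Finset (Fin l → Option α))
      (fun y : Fin l → Option α => ∃ c, y c = none)
    rw [Finset.card_univ, Fintype.card_fun, Fintype.card_fin] at h1
    exact_mod_cast h1
  have hmain : min δ 1 / 4 ≤ ∑ y ∈ Y, (avg + 1 / T + θ) := by
    have h1 : min δ 1 / 4 * (T : ℝ) ^ M ≤ ∑ e : Fin M → Fin T, ∑ y ∈ Y,
        (F A ((Finset.univ.filter (fun c => y c = none)).card * (q₀ * scl e)) + θ) := by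
      rw [← hcardE, hY]
      calc min δ 1 / 4 * (Fintype.card (Fin M → Fin T) : ℝ)
          = ∑ _e : Fin M → Fin T, min δ 1 / 4 := by
            rw [Finset.sum_const, Finset.card_univ, nsmul_eq_mul, mul_comm]
        _ ≤ _ := Finset.sum_le_sum fun e _ => hFe e
    rw [Finset.sum_comm] at h1
    have h2 : ∀ y ∈ Y, ∑ e : Fin M → Fin T,
        (F A ((Finset.univ.filter (fun c => y c = none)).card * (q₀ * scl e)) + θ) ≤
        (avg + 1 / T + θ) * (T : ℝ) ^ M := by
      intro y hy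
      rw [hY] at hy
      have h3 := hshift y (Finset.mem_filter.1 hy).2
      rw [div_le_iff₀ hTM] at h3
      rw [Finset.sum_add_distrib, Finset.sum_const, Finset.card_univ, nsmul_eq_mul, hcardE]
      linarith
    have h4 := h1.trans (Finset.sum_le_sum h2)
    rw [← Finset.sum_mul] at h4
    exact le_of_mul_le_mul_right h4 hTM
  rw [Finset.sum_const, nsmul_eq_mul] at hmain
  have h5 : (Y.card : ℝ) * (avg + 1 / T + θ) ≤ K * (avg + 1 / T + θ) :=
    mul_le_mul_of_nonneg_right hYK (by positivity)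
  have h6 : K * (1 / T) ≤ min δ 1 / 16 := by
    rw [mul_one_div]
    exact hTK
  have h7 : K * (2 * θ) ≤ K * avg := by
    have h8 : K * (avg + 1 / T + θ) = K * avg + K * (1 / T) + K * θ := by ring
    rw [h8] at h5
    linarith
  exact le_of_mul_le_mul_left h7 (by linarith)

end Pool.Agent.H18.DJ
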