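import Pool.Agent.H18.DJ.Df

/-!
# [H18 DJ One] A dense insensitive set contains a subspace

Let `k = card α`, `n = card ι`, `N₀` the number of `MDHJ α` for `m` and `β / 2`.
(1) TAIL.  At most `2 ^ N₀ * (1 + k / 2) ^ n` words `y : ι → Option α` have fewer than `N₀` letters
different from `none`: `1 ≤ 2 ^ N₀ * ∏ i, (if y i = none then 1 else 1 / 2)` for those, and the sum
of the products over all `y` is `(1 + k / 2) ^ n` (`Finset.prod_univ_sum`, `Fintype.piFinset_univ`).
For large `n` this is at most `(β / 2) * (k + 1) ^ n`, since `(1 + k / 2) / (1 + k) < 1` (`k ≥ 1`).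
(2) So the `y ∈ D` with at least `N₀` letters in `α` number at least `(β / 2) (k + 1) ^ n`; sum over
`S = {i | y i = none}`: `(k + 1) ^ n = ∑ S, k ^ (n - card S)`, hence for some `S` with complement of
size at least `N₀` at least `(β / 2) k ^ (n - card S)` words `z : {i // i ∉ S} → α` have
`(fun i => if h : i ∈ S then none else some (z ⟨i, h⟩)) ∈ D`.
(3) `MDHJ α` on `{i // i ∉ S}` gives a subspace `V₀`; `V.idxFun i = inl none` for `i ∈ S`, and
`(V₀.idxFun i).map some id` otherwise.  For `x : Fin m → Option α` put `x' e = (x e).getD r`; then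
`rep r (V x) = rep r (V (some ∘ x'))` and `V (some ∘ x') ∈ D` by (2).
-/

set_option autoImplicit false

namespace Pool.Agent.H18.DJ

open Combinatorics

open Classical in
/-- The tail bound. -/
theorem one_tail (α : Type) [Fintype α] (ι : Type) [Fintype ι] (N₀ : ℕ) :
    ((Finset.univ.filter (fun y : ι → Option α =>
      (Finset.univ.filter (fun i => y i ≠ none)).card < N₀)).card : ℝ) ≤
      2 ^ N₀ * (1 + (Fintype.card α : ℝ) / 2) ^ Fintype.card ι := by
  have hw : ∀ y : ι → Option α, ∏ i, (if y i = none then (1 : ℝ) else 1 / 2) =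
      (1 / 2) ^ (Finset.univ.filter (fun i => y i ≠ none)).card := by
    intro y
    rw [Finset.prod_ite, Finset.prod_const_one, one_mul, Finset.prod_const]
  have hsum : ∑ y : ι → Option α, ∏ i, (if y i = none then (1 : ℝ) else 1 / 2) =
      (1 + (Fintype.card α : ℝ) / 2) ^ Fintype.card ι := by
    have h1 : ∏ _i : ι, ∑ a : Option α, (if a = none then (1 : ℝ) else 1 / 2) =
        ∑ y : ι → Option α, ∏ i, (if y i = none then (1 : ℝ) else 1 / 2) := by
      rw [Finset.prod_univ_sum, Fintype.piFinset_univ]
    rw [← h1, Finset.prod_const, Finset.card_univ]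
    congr 1
    rw [Fintype.sum_option]
    simp
    ring
  calc ((Finset.univ.filter (fun y : ι → Option α =>
      (Finset.univ.filter (fun i => y i ≠ none)).card < N₀)).card : ℝ)
      = ∑ y ∈ Finset.univ.filter (fun y : ι → Option α =>
      (Finset.univ.filter (fun i => y i ≠ none)).card < N₀), (1 : ℝ) := by simp
    _ ≤ ∑ y ∈ Finset.univ.filter (fun y : ι → Option α =>
      (Finset.univ.filter (fun i => y i ≠ none)).card < N₀),
        2 ^ N₀ * ∏ i, (if y i = none then (1 : ℝ) else 1 / 2) := by
        refine Finset.sum_le_sum fun y hy => ?_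
        have hy' := (Finset.mem_filter.1 hy).2
        rw [hw y]
        have h2 : (1 / 2 : ℝ) ^ N₀ ≤
            (1 / 2) ^ (Finset.univ.filter (fun i => y i ≠ none)).card :=
          pow_le_pow_of_le_one (by norm_num) (by norm_num) hy'.le
        have h3 : (2 : ℝ) ^ N₀ * (1 / 2) ^ N₀ = 1 := by
          rw [← mul_pow]
          norm_num
        calc (1 : ℝ) = 2 ^ N₀ * (1 / 2) ^ N₀ := h3.symm
          _ ≤ _ := mul_le_mul_of_nonneg_left h2 (by positivity)
    _ ≤ ∑ y : ι → Option α, 2 ^ N₀ * ∏ i, (if y i = none then (1 : ℝ) else 1 / 2) := by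
        refine Finset.sum_le_sum_of_subset_of_nonneg (Finset.filter_subset _ _) fun y _ _ => ?_
        rw [hw y]
        positivity
    _ = _ := by rw [← Finset.mul_sum, hsum]

open Classical in
/-- The words without `none` outside a set `S` of positions. -/
theorem one_section (α : Type) [Fintype α] [Nonempty α] (ι : Type) [Fintype ι] (N₀ : ℕ) (β : ℝ)
    (hβ : 0 < β)
    (htail : 2 ^ N₀ * (1 + (Fintype.card α : ℝ) / 2) ^ Fintype.card ι ≤
      β / 2 * ((Fintype.card α : ℝ) + 1) ^ Fintype.card ι)
    (D : Finset (ι → Option α))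
    (hD : β * ((Fintype.card α : ℝ) + 1) ^ Fintype.card ι ≤ D.card) :
    ∃ S : Finset ι, N₀ ≤ Fintype.card {i // i ∉ S} ∧
      β / 2 * (Fintype.card α : ℝ) ^ Fintype.card {i // i ∉ S} ≤
      ((Finset.univ.filter (fun z : {i // i ∉ S} → α =>
        (fun i => if h : i ∈ S then none else some (z ⟨i, h⟩)) ∈ D)).card : ℝ) := by
  have hcard : ∀ S : Finset ι, Fintype.card {i // i ∉ S} = Fintype.card ι - S.card := by
    intro S
    rw [Fintype.card_subtype, ← Finset.card_compl]
    congr 1
    ext i
    simp
  have hk : (0 : ℝ) < Fintype.card α := by exact_mod_cast Fintype.card_pos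
  have hD' : D.card ≤ (D.filter (fun y : ι → Option α =>
      N₀ ≤ (Finset.univ.filter (fun i => y i ≠ none)).card)).card +
      (Finset.univ.filter (fun y : ι → Option α =>
      (Finset.univ.filter (fun i => y i ≠ none)).card < N₀)).card := by
    rw [← Finset.card_filter_add_card_filter_not (s := D) (fun y : ι → Option α =>
      N₀ ≤ (Finset.univ.filter (fun i => y i ≠ none)).card)]
    refine Nat.add_le_add_left (Finset.card_le_card fun y hy => ?_) _
    rw [Finset.mem_filter] at hy ⊢
    exact ⟨Finset.mem_univ _, not_le.1 hy.2⟩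
  have hD'' : (D.card : ℝ) ≤ (D.filter (fun y : ι → Option α =>
      N₀ ≤ (Finset.univ.filter (fun i => y i ≠ none)).card)).card +
      (Finset.univ.filter (fun y : ι → Option α =>
      (Finset.univ.filter (fun i => y i ≠ none)).card < N₀)).card := by exact_mod_cast hD'
  have htl := one_tail α ι N₀
  set D' := D.filter (fun y : ι → Option α =>
      N₀ ≤ (Finset.univ.filter (fun i => y i ≠ none)).card) with hD'def
  have hlow : β / 2 * ((Fintype.card α : ℝ) + 1) ^ Fintype.card ι ≤ D'.card := by linarith
  have hfib : D'.card = ∑ S : Finset ι,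
      (D'.filter (fun y => Finset.univ.filter (fun i => y i = none) = S)).card :=
    Finset.card_eq_sum_card_fiberwise fun y _ => Finset.mem_univ _
  have hbin : ∑ S : Finset ι, β / 2 * (Fintype.card α : ℝ) ^ (Fintype.card ι - S.card) =
      β / 2 * ((Fintype.card α : ℝ) + 1) ^ Fintype.card ι := by
    rw [← Finset.mul_sum, add_comm, ← Fintype.sum_pow_mul_eq_add_pow ι 1 (Fintype.card α : ℝ)]
    simp
  obtain ⟨S, -, hS⟩ := Finset.exists_le_of_sum_le (s := (Finset.univ : Finset (Finset ι)))
    (f := fun S => β / 2 * (Fintype.card α : ℝ) ^ (Fintype.card ι - S.card))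
    (g := fun S => ((D'.filter (fun y =>
      Finset.univ.filter (fun i => y i = none) = S)).card : ℝ)) ⟨∅, Finset.mem_univ _⟩ (by
      rw [hbin]
      refine hlow.trans (le_of_eq ?_)
      exact_mod_cast hfib)
  have hpos : 0 < (D'.filter (fun y => Finset.univ.filter (fun i => y i = none) = S)).card := by
    have h1 : (0 : ℝ) < β / 2 * (Fintype.card α : ℝ) ^ (Fintype.card ι - S.card) := by positivity
    exact_mod_cast h1.trans_le hS
  refine ⟨S, ?_, ?_⟩
  · obtain ⟨y, hy⟩ := Finset.card_pos.1 hpos
    rw [Finset.mem_filter, hD'def, Finset.mem_filter] at hy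
    obtain ⟨⟨-, h2⟩, h3⟩ := hy
    refine h2.trans (le_of_eq ?_)
    rw [Fintype.card_subtype, ← h3]
    congr 1
    ext i
    simp
  · rw [hcard S]
    refine hS.trans ?_
    norm_cast
    set A := Finset.univ.filter (fun z : {i // i ∉ S} → α =>
        (fun i => if h : i ∈ S then none else some (z ⟨i, h⟩)) ∈ D) with hA
    calc (D'.filter (fun y => Finset.univ.filter (fun i => y i = none) = S)).card
        ≤ (A.image (fun z : {i // i ∉ S} → α =>
            (fun i => if h : i ∈ S then none else some (z ⟨i, h⟩)))).card := by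
          refine Finset.card_le_card fun y hy => ?_
          rw [Finset.mem_filter, hD'def, Finset.mem_filter] at hy
          obtain ⟨⟨h1, -⟩, h3⟩ := hy
          have hns : ∀ i, i ∉ S → ∃ a, y i = some a := by
            intro i hi
            rw [← h3, Finset.mem_filter] at hi
            have h4 : y i ≠ none := fun h5 => hi ⟨Finset.mem_univ _, h5⟩
            exact Option.ne_none_iff_exists'.1 h4
          have hey : (fun i => if h : i ∈ S then none else
              some ((fun j : {i // i ∉ S} => (hns j.1 j.2).choose) ⟨i, h⟩)) = y := by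
            funext i
            by_cases h : i ∈ S
            · rw [dif_pos h]
              rw [← h3, Finset.mem_filter] at h
              exact h.2.symm
            · rw [dif_neg h]
              exact (hns i h).choose_spec.symm
          refine Finset.mem_image.2 ⟨fun j : {i // i ∉ S} => (hns j.1 j.2).choose, ?_, hey⟩
          rw [hA, Finset.mem_filter]
          refine ⟨Finset.mem_univ _, ?_⟩
          rw [hey]
          exact h1
      _ ≤ A.card := Finset.card_image_le

theorem dense_ins (α : Type) [Fintype α] [Nonempty α] (h : MDHJ α) (m : ℕ) (β : ℝ) (hβ : 0 < β) :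
    ∃ N : ℕ, ∀ (ι : Type) [Fintype ι], N ≤ Fintype.card ι → ∀ (r : α) (D : Finset (ι → Option α)),
      Ins r D → β * (Fintype.card (Option α) : ℝ) ^ Fintype.card ι ≤ D.card →
        ∃ V : Subspace (Fin m) (Option α) ι, ∀ x, V x ∈ D := by
  classical
  obtain ⟨N₀, hN₀⟩ := h m (β / 2) (by positivity)
  have hk : (0 : ℝ) < Fintype.card α := by exact_mod_cast Fintype.card_pos
  have hk1 : (0 : ℝ) < (Fintype.card α : ℝ) + 1 := by positivity
  obtain ⟨n₁, hn₁⟩ := exists_pow_lt_of_lt_one
    (show (0 : ℝ) < β / 2 / 2 ^ N₀ by positivity)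
    (show (1 + (Fintype.card α : ℝ) / 2) / ((Fintype.card α : ℝ) + 1) < 1 by
      rw [div_lt_one hk1]
      linarith)
  refine ⟨n₁, ?_⟩
  intro ι _ hn r D hins hD
  have htail : 2 ^ N₀ * (1 + (Fintype.card α : ℝ) / 2) ^ Fintype.card ι ≤
      β / 2 * ((Fintype.card α : ℝ) + 1) ^ Fintype.card ι := by
    have h1 : ((1 + (Fintype.card α : ℝ) / 2) / ((Fintype.card α : ℝ) + 1)) ^ Fintype.card ι ≤
        ((1 + (Fintype.card α : ℝ) / 2) / ((Fintype.card α : ℝ) + 1)) ^ n₁ :=
      pow_le_pow_of_le_one (by positivity) (by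
        rw [div_le_one hk1]
        linarith) hn
    have h2 := (h1.trans_lt hn₁).le
    rw [div_pow, div_le_div_iff₀ (by positivity) (by positivity)] at h2
    linarith
  rw [Fintype.card_option] at hD
  push_cast at hD
  obtain ⟨S, hS1, hS2⟩ := one_section α ι N₀ β hβ htail D hD
  obtain ⟨V₀, hV₀⟩ := hN₀ {i // i ∉ S} hS1 _ hS2
  refine ⟨⟨fun i => if h : i ∈ S then Sum.inl none else (V₀.idxFun ⟨i, h⟩).map some id, ?_⟩, ?_⟩
  · intro e
    obtain ⟨i, hi⟩ := V₀.proper e
    refine ⟨i.1, ?_⟩
    rw [dif_neg i.2, hi]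
    rfl
  · intro x
    have hx := (Finset.mem_filter.1 (hV₀ (fun e => (x e).getD r))).2
    rw [hins] at hx ⊢
    refine (congrArg (fun w => w ∈ D) ?_).mp hx
    funext i
    unfold rep
    rw [Subspace.coe_apply]
    by_cases hi : i ∈ S
    · simp only [hi, dif_pos, Sum.elim_inl, id]
    · simp only [hi, dif_neg, not_false_eq_true, Option.getD_some]
      rw [Subspace.coe_apply]
      cases V₀.idxFun ⟨i, hi⟩ with
      | inl a => simp
      | inr e => simp

end Pool.Agent.H18.DJ
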