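import Pool.Agent.H18.DJ.Rnd

/-!
# [H18 DJ Pck] Choice of one good subspace

`X V = dens {x | V x ∈ A} < dens A + g` for all `V`, `d V = dens {y | ∀ r, V (rep r y) ∈ A}`.
`∑ p d ≥ θ (1 - (k / (k + 1)) ^ M) ≥ θ / 2` for large `M` (average of (iii) over `y`).
`∑ p (ρ (d - θ / 4) - (dens A + g - X)) ≥ ρ θ / 2 - ρ θ / 4 - (dens A + g) + dens A - ε > 0` when
`g + ε < ρ θ / 4` (`∑ p ≤ 1`), so some `V ∈ S` has `ρ (d - θ / 4) > dens A + g - X > 0`.
Take `ε = ρ θ / 16`.
-/

set_option autoImplicit false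

namespace Pool.Agent.H18.DJ

open Combinatorics

private theorem dens_nonneg {β ι : Type} [Fintype β] [Fintype ι] (A : Finset (ι → β)) : 0 ≤ dens A := by
  unfold dens; positivity

private theorem dens_le_one {β ι : Type} [Fintype β] [Fintype ι] (A : Finset (ι → β)) : dens A ≤ 1 := by
  classical
  unfold dens
  have h := Finset.card_le_univ A
  rw [Fintype.card_fun] at h
  have h' : (A.card : ℝ) ≤ (Fintype.card β : ℝ) ^ Fintype.card ι := by exact_mod_cast h
  exact div_le_one_of_le₀ h' (by positivity)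

open Classical in
/-- the number of words without the letter `none` -/
private theorem card_none {α : Type} [Fintype α] (M : ℕ) :
    (Finset.univ.filter (fun y : Fin M → Option α => ¬ ∃ c, y c = none)).card = Fintype.card α ^ M := by
  have h1 : Finset.univ.filter (fun y : Fin M → Option α => ¬ ∃ c, y c = none) =
      (Finset.univ : Finset (Fin M → α)).image (fun x c => some (x c)) := by
    ext y
    simp only [Finset.mem_filter, Finset.mem_univ, true_and, Finset.mem_image, not_exists]
    constructor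
    · intro h
      refine ⟨fun c => (y c).get (Option.isSome_iff_ne_none.2 (h c)), ?_⟩
      funext c
      exact Option.some_get _
    · rintro ⟨x, rfl⟩ c
      simp
  rw [h1, Finset.card_image_of_injective, Finset.card_univ, Fintype.card_fun, Fintype.card_fin]
  intro x x' h
  funext c
  have := congrFun h c
  exact Option.some.inj this

open Classical in
private theorem card_some {α : Type} [Fintype α] (M : ℕ) :
    ((Finset.univ.filter (fun y : Fin M → Option α => ∃ c, y c = none)).card : ℝ) =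
      (Fintype.card (Option α) : ℝ) ^ M - (Fintype.card α : ℝ) ^ M := by
  have h := Finset.card_filter_add_card_filter_not (s := (Finset.univ : Finset (Fin M → Option α)))
    (fun y => ∃ c, y c = none)
  rw [card_none, Finset.card_univ, Fintype.card_fun, Fintype.card_fin] at h
  have h' : ((Finset.univ.filter (fun y : Fin M → Option α => ∃ c, y c = none)).card : ℝ) +
      (Fintype.card α : ℝ) ^ M = (Fintype.card (Option α) : ℝ) ^ M := by exact_mod_cast h
  linarith

open Classical in
private theorem sum_ind {γ : Type} [Fintype γ] (p : γ → Prop) :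
    ∑ y, ind (p y) = ((Finset.univ.filter p).card : ℝ) := by
  rw [Finset.card_filter]
  push_cast
  refine Finset.sum_congr rfl fun y _ => ?_
  rfl

open Classical in
theorem pick (α : Type) [Fintype α] [Nonempty α] (h : DHJ α) (δ : ℝ) (hδ : 0 < δ) :
    ∃ θ : ℝ, 0 < θ ∧ θ ≤ 1 ∧ ∀ ρ : ℝ, 0 < ρ → ∃ M₀ : ℕ, ∀ M : ℕ, M₀ ≤ M → ∃ N : ℕ,
      ∀ (ι : Type) [Fintype ι], N ≤ Fintype.card ι → ∀ A : Finset (ι → Option α), δ ≤ dens A →
        (∀ V : Subspace (Fin M) (Option α) ι,
          dens (Finset.univ.filter (fun x : Fin M → Option α => V x ∈ A)) <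
            dens A + ρ * θ / 16) →
        ∃ V : Subspace (Fin M) (Option α) ι,
          dens A - ρ ≤ dens (Finset.univ.filter (fun x : Fin M → Option α => V x ∈ A)) ∧
          θ / 4 ≤ dens (Finset.univ.filter
            (fun y : Fin M → Option α => ∀ r : α, V (rep r y) ∈ A)) := by
  obtain ⟨θ, hθ, hθ1, H⟩ := rand α h δ hδ
  refine ⟨θ, hθ, hθ1, fun ρ hρ => ?_⟩
  set k : ℝ := (Fintype.card α : ℝ) with hk
  set b : ℝ := (Fintype.card (Option α) : ℝ) with hb
  have hkb : b = k + 1 := by
    rw [hb, hk, Fintype.card_option]; push_cast; ring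
  have hk0 : 0 ≤ k := by positivity
  have hb0 : 0 < b := by linarith
  have hr0 : 0 ≤ k / b := by positivity
  have hr1 : k / b < 1 := by rw [div_lt_one hb0]; linarith
  obtain ⟨M₀, hM₀⟩ := exists_pow_lt_of_lt_one (show (0 : ℝ) < 1 / 2 by norm_num) hr1
  refine ⟨M₀, fun M hM => ?_⟩
  obtain ⟨N, HN⟩ := H M (ρ * θ / 16) (by positivity)
  refine ⟨N, fun ι _ hι A hA hup => ?_⟩
  obtain ⟨S, p, hp0, hp1, hX, hd⟩ := HN ι hι A hA
  by_contra hcon
  push Not at hcon
  set X : Subspace (Fin M) (Option α) ι → ℝ := fun V =>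
    dens (Finset.univ.filter (fun x : Fin M → Option α => V x ∈ A)) with hXd
  set d : Subspace (Fin M) (Option α) ι → ℝ := fun V =>
    dens (Finset.univ.filter (fun y : Fin M → Option α => ∀ r : α, V (rep r y) ∈ A)) with hdd
  have hrM : (k / b) ^ M ≤ 1 / 2 :=
    ((pow_le_pow_of_le_one hr0 hr1.le hM).trans hM₀.le)
  -- the average of d
  have hdsum : θ / 2 ≤ ∑ V ∈ S, p V * d V := by
    have e1 : ∀ V, d V = (∑ y : Fin M → Option α, ind (∀ r : α, V (rep r y) ∈ A)) / b ^ M := by
      intro V
      simp only [hdd]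
      unfold dens
      rw [Fintype.card_fin]
      congr 1
      have e0 := (sum_ind (fun y : Fin M → Option α => ∀ r : α, V (rep r y) ∈ A)).symm
      refine Eq.trans ?_ e0
      have e9 : ∀ (i1 i2 : DecidablePred (fun y : Fin M → Option α => ∀ r : α, V (rep r y) ∈ A)),
          (@Finset.filter _ (fun y : Fin M → Option α => ∀ r : α, V (rep r y) ∈ A) i1 Finset.univ).card =
          (@Finset.filter _ (fun y : Fin M → Option α => ∀ r : α, V (rep r y) ∈ A) i2 Finset.univ).card := by
        intro i1 i2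
        have : i1 = i2 := Subsingleton.elim _ _
        rw [this]
      exact congrArg (fun m : ℕ => (m : ℝ)) (e9 _ _)
    have e2 : ∑ V ∈ S, p V * d V =
        (∑ y : Fin M → Option α, ∑ V ∈ S, p V * ind (∀ r : α, V (rep r y) ∈ A)) / b ^ M := by
      rw [Finset.sum_comm, Finset.sum_div]
      refine Finset.sum_congr rfl fun V _ => ?_
      rw [e1, ← Finset.mul_sum, mul_div_assoc]
    have e3 : ∑ y ∈ Finset.univ.filter (fun y : Fin M → Option α => ∃ c, y c = none), θ ≤
        ∑ y : Fin M → Option α, ∑ V ∈ S, p V * ind (∀ r : α, V (rep r y) ∈ A) := by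
      refine le_trans (Finset.sum_le_sum fun y hy => hd y (Finset.mem_filter.1 hy).2) ?_
      refine Finset.sum_le_sum_of_subset_of_nonneg (Finset.filter_subset _ _) fun y _ _ => ?_
      exact Finset.sum_nonneg fun V hV => mul_nonneg (hp0 V hV) (by unfold ind; split_ifs <;> norm_num)
    rw [Finset.sum_const, nsmul_eq_mul, card_some] at e3
    rw [e2, le_div_iff₀ (by positivity)]
    refine le_trans ?_ e3
    have e4 : k ^ M ≤ 1 / 2 * b ^ M := by
      rw [div_pow, div_le_iff₀ (by positivity)] at hrM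
      exact hrM
    have e5 : (0 : ℝ) < b ^ M := by positivity
    show θ / 2 * b ^ M ≤ (b ^ M - k ^ M) * θ
    nlinarith
  have hV : ∀ V ∈ S, p V * (ρ * (d V - θ / 4)) ≤ p V * (dens A + ρ * θ / 16 - X V) := by
    intro V hV
    refine mul_le_mul_of_nonneg_left ?_ (hp0 V hV)
    have h1 := hup V
    have h2 : d V ≤ 1 := dens_le_one _
    by_cases h3 : dens A - ρ ≤ X V
    · have h4 := hcon V h3
      have h5 : ρ * (d V - θ / 4) ≤ 0 := by
        have : d V - θ / 4 ≤ 0 := by linarith
        nlinarith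
      have h6 : X V < dens A + ρ * θ / 16 := h1
      linarith
    · push Not at h3
      have h5 : ρ * (d V - θ / 4) ≤ ρ := by nlinarith
      have h6 : 0 < ρ * θ / 16 := by positivity
      linarith
  have hsum := Finset.sum_le_sum hV
  have l1 : ∑ V ∈ S, p V * (ρ * (d V - θ / 4)) = ρ * ∑ V ∈ S, p V * d V - ρ * θ / 4 * ∑ V ∈ S, p V := by
    rw [Finset.mul_sum, Finset.mul_sum, ← Finset.sum_sub_distrib]
    exact Finset.sum_congr rfl fun V _ => by ring
  have l2 : ∑ V ∈ S, p V * (dens A + ρ * θ / 16 - X V) = (dens A + ρ * θ / 16) * ∑ V ∈ S, p V -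
      ∑ V ∈ S, p V * X V := by
    rw [Finset.mul_sum, ← Finset.sum_sub_distrib]
    exact Finset.sum_congr rfl fun V _ => by ring
  rw [l1, l2] at hsum
  have hA0 := dens_nonneg A
  have hρθ : 0 < ρ * θ := by positivity
  have k1 : ρ * (θ / 2) ≤ ρ * ∑ V ∈ S, p V * d V := mul_le_mul_of_nonneg_left hdsum hρ.le
  have k2 : ρ * θ / 4 * ∑ V ∈ S, p V ≤ ρ * θ / 4 := by
    have : 0 ≤ ρ * θ / 4 := by positivity
    nlinarith
  have k3 : (dens A + ρ * θ / 16) * ∑ V ∈ S, p V ≤ dens A + ρ * θ / 16 := by
    have : 0 ≤ dens A + ρ * θ / 16 := by positivity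
    nlinarith
  have k4 : dens A - ρ * θ / 16 ≤ ∑ V ∈ S, p V * X V := hX
  nlinarith

end Pool.Agent.H18.DJ
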