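import Pool.Agent.H18.DJ.Df

/-!
# [H18 DJ Prd] Product weights

`ex_one`: `∑ u, ∏ i, μ (u i) = (∑ a, μ a) ^ n = 1` (`Finset.prod_univ_sum`, `Fintype.piFinset_univ`).
`ex_push`: group `u` by `π ∘ u`; the fibre sum of `∏ i, μ (u i)` over `u` with `π ∘ u = v` is
`∏ i, ∑ a with π a = v i, μ a` (`Finset.prod_univ_sum`).
`ex_tv`: write `ν a = μ a (1 + h a)`, `|h a| ≤ κ`, `∑ μ h = 0`.  Cauchy-Schwarz with the weight `μ`:
`(ex ν f - ex μ f) ^ 2 ≤ ∑ u, wt μ u (∏ (1 + h (u i)) - 1) ^ 2 = (1 + ∑ μ h ^ 2) ^ n - 1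
≤ (1 + κ ^ 2) ^ n - 1 ≤ exp (n κ ^ 2) - 1 ≤ 2 n κ ^ 2`.
-/

set_option autoImplicit false

namespace Pool.Agent.H18.DJ

section
variable {γ γ' ι : Type} [Fintype γ] [Fintype γ'] [Fintype ι]

theorem wt_nonneg {μ : γ → ℝ} (h : ∀ a, 0 ≤ μ a) (u : ι → γ) : 0 ≤ wt μ u :=
  Finset.prod_nonneg fun i _ => h (u i)

open Classical in
/-- the expectation of a product function -/
private theorem ex_prod (μ g : γ → ℝ) :
    ex μ (fun u : ι → γ => ∏ i, g (u i)) = (∑ a, μ a * g a) ^ Fintype.card ι := by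
  unfold ex wt
  have h1 : (∑ a, μ a * g a) ^ Fintype.card ι = ∏ _i : ι, ∑ a ∈ (Finset.univ : Finset γ), μ a * g a := by
    rw [Finset.prod_const, Finset.card_univ]
  rw [h1, Finset.prod_univ_sum, Fintype.piFinset_univ]
  refine Finset.sum_congr rfl fun u _ => ?_
  rw [Finset.prod_mul_distrib]

theorem ex_one {μ : γ → ℝ} (h : ∑ a, μ a = 1) : ex μ (fun _ : ι → γ => (1 : ℝ)) = 1 := by
  have h1 := ex_prod (ι := ι) μ (fun _ => 1)
  simp only [Finset.prod_const_one, mul_one, h, one_pow] at h1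
  exact h1

theorem ex_mono {μ : γ → ℝ} (h : ∀ a, 0 ≤ μ a) {f g : (ι → γ) → ℝ} (hfg : ∀ u, f u ≤ g u) :
    ex μ f ≤ ex μ g :=
  Finset.sum_le_sum fun u _ => mul_le_mul_of_nonneg_left (hfg u) (wt_nonneg h u)

open Classical in
theorem ex_push (μ : γ → ℝ) (π : γ → γ') (f : (ι → γ') → ℝ) :
    ex μ (fun u : ι → γ => f (fun i => π (u i))) =
      ex (fun c => ∑ a ∈ Finset.univ.filter (fun a => π a = c), μ a) f := by
  unfold ex wt
  rw [← Finset.sum_fiberwise (Finset.univ : Finset (ι → γ)) (fun u : ι → γ => fun i => π (u i))]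
  refine Finset.sum_congr rfl fun v _ => ?_
  rw [Finset.prod_univ_sum, Finset.sum_mul]
  have h1 : Finset.univ.filter (fun u : ι → γ => (fun i => π (u i)) = v) =
      Fintype.piFinset (fun i => Finset.univ.filter (fun a => π a = v i)) := by
    ext u
    simp [Fintype.mem_piFinset, funext_iff]
  rw [h1]
  refine Finset.sum_congr rfl fun u hu => ?_
  have h2 : (fun i => π (u i)) = v := by
    rw [← h1] at hu
    exact (Finset.mem_filter.1 hu).2
  show (∏ i, μ (u i)) * f (fun i => π (u i)) = (∏ i, μ (u i)) * f v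
  rw [h2]

private theorem pow_le {a : ℝ} {n : ℕ} (ha : 0 ≤ a) (h : a * n ≤ 1) : (1 + a) ^ n - 1 ≤ 2 * (a * n) := by
  have h1 : (1 + a) ^ n ≤ Real.exp (a * n) := by
    rw [mul_comm a, Real.exp_nat_mul]
    exact pow_le_pow_left₀ (by linarith) (by linarith [Real.add_one_le_exp a]) n
  have h0 : 0 ≤ a * n := by positivity
  have h2 := Real.abs_exp_sub_one_sub_id_le (x := a * n) (by rw [abs_of_nonneg h0]; exact h)
  have h3 := (abs_le.1 h2).2
  nlinarith

theorem ex_tv (μ ν : γ → ℝ) (κ : ℝ) (hμ : ∀ a, 0 < μ a) (hμ1 : ∑ a, μ a = 1)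
    (hν1 : ∑ a, ν a = 1) (hκ : 0 ≤ κ) (h : ∀ a, |ν a - μ a| ≤ κ * μ a)
    (hn : κ ^ 2 * Fintype.card ι ≤ 1) (f : (ι → γ) → ℝ) (hf : ∀ u, |f u| ≤ 1) :
    |ex ν f - ex μ f| ≤ 2 * κ * Real.sqrt (Fintype.card ι) := by
  classical
  set g : γ → ℝ := fun a => ν a / μ a with hg
  have hgν : ∀ a, ν a = μ a * g a := by
    intro a
    have := (hμ a).ne'
    simp only [hg]
    field_simp
  have e1 : ex ν f - ex μ f = ∑ u : ι → γ, wt μ u * ((∏ i, g (u i)) - 1) * f u := by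
    unfold ex
    rw [← Finset.sum_sub_distrib]
    refine Finset.sum_congr rfl fun u _ => ?_
    have : wt ν u = wt μ u * ∏ i, g (u i) := by
      unfold wt
      rw [← Finset.prod_mul_distrib]
      exact Finset.prod_congr rfl fun i _ => hgν _
    rw [this]
    ring
  have hw : ∀ u : ι → γ, 0 ≤ wt μ u := fun u => wt_nonneg (fun a => (hμ a).le) u
  have e2 : |ex ν f - ex μ f| ≤ ∑ u : ι → γ, wt μ u * |(∏ i, g (u i)) - 1| := by
    rw [e1]
    refine (Finset.abs_sum_le_sum_abs _ _).trans (Finset.sum_le_sum fun u _ => ?_)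
    rw [abs_mul, abs_mul, abs_of_nonneg (hw u)]
    calc wt μ u * |(∏ i, g (u i)) - 1| * |f u| ≤ wt μ u * |(∏ i, g (u i)) - 1| * 1 :=
          mul_le_mul_of_nonneg_left (hf u) (mul_nonneg (hw u) (abs_nonneg _))
      _ = _ := mul_one _
  have hone : ∑ u : ι → γ, wt μ u = 1 := by
    have := ex_one (ι := ι) hμ1
    unfold ex at this
    simpa using this
  have e3 : (∑ u : ι → γ, wt μ u * |(∏ i, g (u i)) - 1|) ^ 2 ≤
      ∑ u : ι → γ, wt μ u * ((∏ i, g (u i)) - 1) ^ 2 := by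
    have hcs := Finset.sum_mul_sq_le_sq_mul_sq (Finset.univ : Finset (ι → γ))
      (fun u => Real.sqrt (wt μ u)) (fun u => Real.sqrt (wt μ u) * |(∏ i, g (u i)) - 1|)
    have a1 : ∀ u : ι → γ, Real.sqrt (wt μ u) * (Real.sqrt (wt μ u) * |(∏ i, g (u i)) - 1|) =
        wt μ u * |(∏ i, g (u i)) - 1| := by
      intro u
      rw [← mul_assoc, Real.mul_self_sqrt (hw u)]
    have a2 : ∀ u : ι → γ, Real.sqrt (wt μ u) ^ 2 = wt μ u := fun u => Real.sq_sqrt (hw u)
    have a3 : ∀ u : ι → γ, (Real.sqrt (wt μ u) * |(∏ i, g (u i)) - 1|) ^ 2 =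
        wt μ u * ((∏ i, g (u i)) - 1) ^ 2 := by
      intro u
      rw [mul_pow, Real.sq_sqrt (hw u), sq_abs]
    simp only [a1, a2, a3, hone, one_mul] at hcs
    exact hcs
  have e4 : ∑ u : ι → γ, wt μ u * ((∏ i, g (u i)) - 1) ^ 2 =
      (∑ a, μ a * (g a * g a)) ^ Fintype.card ι - 1 := by
    have b1 : ∑ u : ι → γ, wt μ u * ((∏ i, g (u i)) - 1) ^ 2 =
        ex μ (fun u : ι → γ => ∏ i, (g (u i) * g (u i))) -
          2 * ex μ (fun u : ι → γ => ∏ i, g (u i)) + ∑ u : ι → γ, wt μ u := by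
      unfold ex
      rw [Finset.mul_sum, ← Finset.sum_sub_distrib, ← Finset.sum_add_distrib]
      refine Finset.sum_congr rfl fun u _ => ?_
      simp only [Finset.prod_mul_distrib]
      ring
    have b2 : ∑ a, μ a * g a = 1 := by
      rw [← hν1]
      exact Finset.sum_congr rfl fun a _ => (hgν a).symm
    rw [b1, ex_prod μ (fun a => g a * g a), ex_prod, b2, hone, one_pow]
    ring
  have e5 : ∑ a, μ a * (g a * g a) ≤ 1 + κ ^ 2 := by
    have b2 : ∑ a, μ a * g a = 1 := by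
      rw [← hν1]
      exact Finset.sum_congr rfl fun a _ => (hgν a).symm
    have b3 : ∑ a, μ a * (g a * g a) = ∑ a, μ a * (g a - 1) ^ 2 + 2 * ∑ a, μ a * g a - ∑ a, μ a := by
      rw [Finset.mul_sum, ← Finset.sum_add_distrib, ← Finset.sum_sub_distrib]
      refine Finset.sum_congr rfl fun a _ => ?_
      ring
    have b4 : ∑ a, μ a * (g a - 1) ^ 2 ≤ ∑ a, μ a * κ ^ 2 := by
      refine Finset.sum_le_sum fun a _ => ?_
      have c1 : |g a - 1| ≤ κ := by
        have c2 := h a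
        have c3 : ν a - μ a = μ a * (g a - 1) := by rw [hgν a]; ring
        rw [c3, abs_mul, abs_of_pos (hμ a), mul_comm κ] at c2
        exact le_of_mul_le_mul_left c2 (hμ a)
      have c4 : (g a - 1) ^ 2 ≤ κ ^ 2 := by
        rw [← sq_abs (g a - 1)]
        exact pow_le_pow_left₀ (abs_nonneg _) c1 2
      exact mul_le_mul_of_nonneg_left c4 (hμ a).le
    rw [← Finset.sum_mul, hμ1, one_mul] at b4
    rw [b3, b2, hμ1]
    linarith
  have e6 : (∑ a, μ a * (g a * g a)) ^ Fintype.card ι - 1 ≤ 2 * (κ ^ 2 * Fintype.card ι) := by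
    have b1 : 0 ≤ ∑ a, μ a * (g a * g a) :=
      Finset.sum_nonneg fun a _ => mul_nonneg (hμ a).le (mul_self_nonneg _)
    have b2 := pow_le_pow_left₀ b1 e5 (Fintype.card ι)
    have b3 := pow_le (sq_nonneg κ) hn
    linarith
  have e7 : |ex ν f - ex μ f| ^ 2 ≤ (2 * κ * Real.sqrt (Fintype.card ι)) ^ 2 := by
    calc |ex ν f - ex μ f| ^ 2 ≤ (∑ u : ι → γ, wt μ u * |(∏ i, g (u i)) - 1|) ^ 2 :=
          pow_le_pow_left₀ (abs_nonneg _) e2 2
      _ ≤ 2 * (κ ^ 2 * Fintype.card ι) := (e3.trans_eq e4).trans e6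
      _ ≤ 4 * (κ ^ 2 * Fintype.card ι) := by
          have : 0 ≤ κ ^ 2 * (Fintype.card ι : ℝ) := by positivity
          linarith
      _ = (2 * κ * Real.sqrt (Fintype.card ι)) ^ 2 := by
          rw [mul_pow, mul_pow, Real.sq_sqrt (Nat.cast_nonneg _)]
          ring
  exact le_of_sq_le_sq e7 (by positivity)

end

end Pool.Agent.H18.DJ
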