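import Pool.Agent.H18.DJ.Lst

/-!
# [H18 DJ Rnd] A probability on `M`-dimensional subspaces under which every point is almost uniform
and every line of the first `k` letters is in `A` with probability at least `θ`

`θ, l, T₀` from `avg_F`.  Given `M`, `ε`: `M' = max M l`, `T ≥ T₀` with `1 / T ≤ θ / 4`,
`s₀` with `M' e^(-s₀) ≤ min ε θ / 4`, `q₀ = s₀ / n`, `n` large (so that
`M' q₀ (M' + 1) ^ (M' T) ≤ 1 / 2` and the error `4 M' q₀ (M' + 1) ^ (M' T) b √n` is small).
The probability: `e : Fin M' → Fin T` uniform, `u : ι → Option α ⊕ Fin M` with weight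
`W (q₀ scl e)`, dropped if improper.  `S` = all subspaces, `p V = T ^ (-M') ∑ e, wt (W (q₀ scl e)) V.idxFun`.
(i) total weight at most 1; (ii) `law_point` averaged over `x`, `improper`; (iii) `law_line`,
`scl_shift`, `avg_F`, `improper`: at least `2 θ - θ / 4 - θ / 4 - θ / 4 ≥ θ`.
-/

set_option autoImplicit false

namespace Pool.Agent.H18.DJ

open Combinatorics

/-- the weight of the event is at most the weight on proper substitutions plus the improper part -/
private theorem proper_ge {β ι : Type} [Fintype β] [Fintype ι] (M : ℕ) (μ : β ⊕ Fin M → ℝ)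
    (hμ : ∀ a, 0 ≤ μ a) (S : Finset (Subspace (Fin M) β ι)) (hS : ∀ V, V ∈ S)
    (G : (ι → β ⊕ Fin M) → ℝ) (h1 : ∀ u, G u ≤ 1) :
    ex μ G - ex μ (fun u : ι → β ⊕ Fin M => ind (∃ c, ∀ i, u i ≠ Sum.inr c)) ≤
      ∑ V ∈ S, wt μ V.idxFun * G V.idxFun := by
  classical
  have e1 : ∑ V ∈ S, wt μ V.idxFun * G V.idxFun =
      ∑ u ∈ Finset.univ.filter (fun u : ι → β ⊕ Fin M => ∀ c, ∃ i, u i = Sum.inr c),
        wt μ u * G u := by
    refine Finset.sum_bij (fun V _ => V.idxFun) ?_ ?_ ?_ ?_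
    · intro V _
      exact Finset.mem_filter.2 ⟨Finset.mem_univ _, V.proper⟩
    · intro V _ V' _ h
      exact Subspace.ext h
    · intro u hu
      exact ⟨⟨u, (Finset.mem_filter.1 hu).2⟩, hS _, rfl⟩
    · intro V _
      rfl
  rw [e1, Finset.sum_filter]
  unfold ex
  rw [← Finset.sum_sub_distrib]
  refine Finset.sum_le_sum fun u _ => ?_
  have hw := wt_nonneg hμ u
  by_cases hp : ∀ c, ∃ i, u i = Sum.inr c
  · rw [if_pos hp]
    have : ¬ ∃ c, ∀ i, u i ≠ Sum.inr c := by
      rintro ⟨c, hc⟩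
      obtain ⟨i, hi⟩ := hp c
      exact hc i hi
    have h2 : ind (∃ c, ∀ i, u i ≠ Sum.inr c) = 0 := by unfold ind; rw [if_neg this]
    show wt μ u * G u - wt μ u * ind (∃ c, ∀ i, u i ≠ Sum.inr c) ≤ wt μ u * G u
    rw [h2]
    linarith
  · rw [if_neg hp]
    have : ∃ c, ∀ i, u i ≠ Sum.inr c := by
      push Not at hp
      exact hp
    have h2 : ind (∃ c, ∀ i, u i ≠ Sum.inr c) = 1 := by unfold ind; rw [if_pos this]
    show wt μ u * G u - wt μ u * ind (∃ c, ∀ i, u i ≠ Sum.inr c) ≤ 0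
    rw [h2]
    have := h1 u
    nlinarith

/-- the weight of all proper substitutions is at most one -/
private theorem proper_le {β ι : Type} [Fintype β] [Fintype ι] (M : ℕ) (μ : β ⊕ Fin M → ℝ)
    (hμ : ∀ a, 0 ≤ μ a) (hμ1 : ∑ a, μ a = 1) (S : Finset (Subspace (Fin M) β ι)) :
    ∑ V ∈ S, wt μ V.idxFun ≤ 1 := by
  classical
  have h1 := ex_one (ι := ι) hμ1
  unfold ex at h1
  simp only [mul_one] at h1
  rw [← h1]
  have e1 : ∑ V ∈ S, wt μ V.idxFun = ∑ u ∈ S.image (fun V => V.idxFun), wt μ u := by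
    rw [Finset.sum_image]
    intro V _ V' _ h
    exact Subspace.ext h
  rw [e1]
  exact Finset.sum_le_sum_of_subset_of_nonneg (Finset.subset_univ _) fun u _ _ => wt_nonneg hμ u

private theorem dens_eq {β : Type} {M : ℕ} [Fintype β] (Q : (Fin M → β) → Prop)
    [DecidablePred Q] :
    dens (Finset.univ.filter Q) =
      (∑ x : Fin M → β, ind (Q x)) / (Fintype.card β : ℝ) ^ Fintype.card (Fin M) := by
  unfold dens ind
  congr 1
  rw [Finset.card_filter]
  push_cast
  refine Finset.sum_congr rfl fun x _ => ?_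
  by_cases h : Q x
  · rw [if_pos h, if_pos h]
  · rw [if_neg h, if_neg h]

open Classical in
private theorem core (α : Type) [Fintype α] [Nonempty α] (ι : Type) [Fintype ι]
    (M M' T : ℕ) (hM : M ≤ M') (hT : 0 < T) (q₀ : ℝ) (hq₀ : 0 < q₀) (m : ℝ) (hm4 : m ≤ 1 / 4)
    (h1 : 4 * (M' * (q₀ * (M' + 1 : ℝ) ^ (M' * T)) * Fintype.card (Option α)) *
          Real.sqrt (Fintype.card ι) ≤ m)
    (h2 : M' * (q₀ * (M' + 1 : ℝ) ^ (M' * T)) ≤ 1 / 2)
    (h3 : M * (1 - q₀) ^ Fintype.card ι ≤ m)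
    (A : Finset (ι → Option α)) (θ ε : ℝ) (hθ : m ≤ θ / 4) (hε : m ≤ ε / 4)
    (hTθ : 1 / (T : ℝ) ≤ θ / 4)
    (hF : 2 * θ ≤ (∑ e : Fin M' → Fin T, F A (q₀ * scl e)) / (T : ℝ) ^ M') :
    ∃ (S : Finset (Subspace (Fin M) (Option α) ι)) (p : Subspace (Fin M) (Option α) ι → ℝ),
      (∀ V ∈ S, 0 ≤ p V) ∧ ∑ V ∈ S, p V ≤ 1 ∧
      dens A - ε ≤ ∑ V ∈ S, p V *
        dens (Finset.univ.filter (fun x : Fin M → Option α => V x ∈ A)) ∧
      ∀ y : Fin M → Option α, (∃ c, y c = none) →
        θ ≤ ∑ V ∈ S, p V * ind (∀ r : α, V (rep r y) ∈ A) := by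
  classical
  let _ : Fintype (Subspace (Fin M) (Option α) ι) :=
    Fintype.ofInjective (fun V => V.idxFun) (fun V V' h => Subspace.ext h)
  set n := Fintype.card ι with hn
  set b : ℝ := (Fintype.card (Option α) : ℝ) with hb
  have hb1 : (1 : ℝ) ≤ b := by
    rw [hb]
    exact_mod_cast Fintype.card_pos
  set K : ℝ := (M' + 1 : ℝ) ^ (M' * T) with hK
  have hTM : (0 : ℝ) < (T : ℝ) ^ M' := by positivity
  set q : (Fin M' → Fin T) → ℝ := fun e => q₀ * scl e with hq
  have hq0 : ∀ e, q₀ ≤ q e := by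
    intro e
    have : (1 : ℝ) ≤ scl e := by exact_mod_cast scl_pos e
    simp only [hq]
    nlinarith
  have hqp : ∀ e, 0 < q e := fun e => lt_of_lt_of_le hq₀ (hq0 e)
  have hqK : ∀ e, q e ≤ q₀ * K := by
    intro e
    have : (scl e : ℝ) ≤ K := by
      rw [hK]
      exact_mod_cast scl_le e
    simp only [hq]
    exact mul_le_mul_of_nonneg_left this hq₀.le
  have hMM : (M : ℝ) ≤ M' := by exact_mod_cast hM
  have hM0 : (0 : ℝ) ≤ M := Nat.cast_nonneg _
  have hMq' : ∀ e, M' * q e ≤ 1 / 2 := fun e =>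
    (mul_le_mul_of_nonneg_left (hqK e) (Nat.cast_nonneg _)).trans h2
  have hMq : ∀ e, M * q e ≤ 1 / 2 := fun e =>
    (mul_le_mul_of_nonneg_right hMM (hqp e).le).trans (hMq' e)
  have hsq : 0 ≤ Real.sqrt (n : ℝ) := Real.sqrt_nonneg _
  have herr : ∀ e, 4 * (M * q e * b) * Real.sqrt (n : ℝ) ≤ m := by
    intro e
    refine le_trans ?_ h1
    refine mul_le_mul_of_nonneg_right ?_ hsq
    refine mul_le_mul_of_nonneg_left ?_ (by norm_num)
    refine mul_le_mul_of_nonneg_right ?_ (by linarith)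
    calc M * q e ≤ M' * q e := mul_le_mul_of_nonneg_right hMM (hqp e).le
      _ ≤ _ := mul_le_mul_of_nonneg_left (hqK e) (Nat.cast_nonneg _)
  have hm0 : 0 ≤ m := by
    refine le_trans ?_ h1
    have : 0 ≤ K := by rw [hK]; positivity
    positivity
  have hn2 : ∀ e, (2 * (M * q e * b)) ^ 2 * (n : ℝ) ≤ 1 := by
    intro e
    have a1 : 0 ≤ M * q e * b := by
      have := (hqp e).le
      positivity
    have a2 := herr e
    have a3 : (2 * (M * q e * b)) ^ 2 * (n : ℝ) = (2 * (M * q e * b) * Real.sqrt (n : ℝ)) ^ 2 := by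
      rw [mul_pow _ (Real.sqrt (n : ℝ)), Real.sq_sqrt (Nat.cast_nonneg _)]
    rw [a3]
    have a4 : 0 ≤ 2 * (M * q e * b) * Real.sqrt (n : ℝ) := by positivity
    have a5 : 2 * (M * q e * b) * Real.sqrt (n : ℝ) ≤ 1 := by
      have : 4 * (M * q e * b) * Real.sqrt (n : ℝ) = 2 * (2 * (M * q e * b) * Real.sqrt (n : ℝ)) := by
        ring
      linarith
    nlinarith
  have hWn : ∀ e, ∀ a : Option α ⊕ Fin M, 0 ≤ W (q e) a := fun e =>
    W_nonneg (q e) (hqp e).le (by rw [Fintype.card_fin]; linarith [hMq e])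
  have himp : ∀ e, ex (W (q e)) (fun u : ι → Option α ⊕ Fin M =>
      ind (∃ c, ∀ i, u i ≠ Sum.inr c)) ≤ m := by
    intro e
    rcases Nat.eq_zero_or_pos M with h0 | h0
    · subst h0
      refine (improper 0 (q e) (hqp e) (hMq e)).trans ?_
      simpa using hm0
    · refine (improper M (q e) (hqp e) (hMq e)).trans (le_trans ?_ h3)
      refine mul_le_mul_of_nonneg_left ?_ hM0
      have a1 : (1 : ℝ) ≤ M := by exact_mod_cast h0
      have a2 : q e ≤ 1 := by
        have := hMq e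
        nlinarith [hqp e]
      exact pow_le_pow_left₀ (by linarith) (by linarith [hq0 e]) _
  set p : Subspace (Fin M) (Option α) ι → ℝ :=
    fun V => (∑ e : Fin M' → Fin T, wt (W (q e)) V.idxFun) / (T : ℝ) ^ M' with hp
  have hpsum : ∀ f : Subspace (Fin M) (Option α) ι → ℝ, ∑ V, p V * f V =
      (∑ e : Fin M' → Fin T, ∑ V, wt (W (q e)) V.idxFun * f V) / (T : ℝ) ^ M' := by
    intro f
    rw [Finset.sum_comm, Finset.sum_div]
    refine Finset.sum_congr rfl fun V _ => ?_
    simp only [hp]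
    rw [← Finset.sum_mul]
    ring
  have hcard : (∑ _e : Fin M' → Fin T, (1 : ℝ)) = (T : ℝ) ^ M' := by
    rw [Finset.sum_const, Finset.card_univ]
    simp
  -- averages of constants
  have havg : ∀ (g : (Fin M' → Fin T) → ℝ) (c : ℝ), (∀ e, c ≤ g e) →
      c ≤ (∑ e, g e) / (T : ℝ) ^ M' := by
    intro g c hg
    rw [le_div_iff₀ hTM]
    calc c * (T : ℝ) ^ M' = ∑ _e : Fin M' → Fin T, c := by
          rw [← hcard, Finset.mul_sum]
          simp
      _ ≤ _ := Finset.sum_le_sum fun e _ => hg e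
  refine ⟨Finset.univ, p, ?_, ?_, ?_, ?_⟩
  · intro V _
    simp only [hp]
    exact div_nonneg (Finset.sum_nonneg fun e _ => wt_nonneg (hWn e) _) hTM.le
  · have := hpsum (fun _ => 1)
    simp only [mul_one] at this
    rw [this, div_le_iff₀ hTM, one_mul, ← hcard]
    refine Finset.sum_le_sum fun e _ => ?_
    exact proper_le M _ (hWn e) (W_sum (q e)) _
  · rw [hpsum]
    refine havg _ _ fun e => ?_
    have hbM : (0 : ℝ) < b ^ M := by positivity
    have a1 : ∀ x : Fin M → Option α, dens A - ε ≤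
        ∑ V : Subspace (Fin M) (Option α) ι, wt (W (q e)) V.idxFun * ind (V x ∈ A) := by
      intro x
      have b1 := proper_ge M (W (q e)) (hWn e) (Finset.univ : Finset (Subspace (Fin M) (Option α) ι))
        (fun V => Finset.mem_univ _)
        (fun u => ind (sub u x ∈ A)) (fun u => ind_le_one _)
      have b2 := (abs_le.1 (law_point M (q e) (hqp e) (hMq e) (hn2 e) A x)).1
      have b3 := herr e
      have b4 := himp e
      have b5 : ∑ V : Subspace (Fin M) (Option α) ι, wt (W (q e)) V.idxFun * ind (V x ∈ A) =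
        ∑ V : Subspace (Fin M) (Option α) ι, wt (W (q e)) V.idxFun * ind (sub V.idxFun x ∈ A) := rfl
      rw [b5]
      have b6 : dens A - 4 * (M * q e * b) * Real.sqrt (n : ℝ) ≤
          ex (W (q e)) (fun u : ι → Option α ⊕ Fin M => ind (sub u x ∈ A)) := by
        simp only [hb, hn]
        linarith
      linarith
    have a2 : ∑ V : Subspace (Fin M) (Option α) ι, wt (W (q e)) V.idxFun *
        dens (Finset.univ.filter (fun x : Fin M → Option α => V x ∈ A)) =
        (∑ x : Fin M → Option α, ∑ V : Subspace (Fin M) (Option α) ι,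
          wt (W (q e)) V.idxFun * ind (V x ∈ A)) / b ^ M := by
      rw [Finset.sum_comm, Finset.sum_div]
      refine Finset.sum_congr rfl fun V _ => ?_
      rw [dens_eq, Fintype.card_fin, ← Finset.mul_sum]
      ring
    rw [a2, le_div_iff₀ hbM]
    calc (dens A - ε) * b ^ M = ∑ _x : Fin M → Option α, (dens A - ε) := by
          rw [Finset.sum_const, Finset.card_univ, Fintype.card_fun, Fintype.card_fin, nsmul_eq_mul]
          push_cast
          rw [hb]
          ring
      _ ≤ _ := Finset.sum_le_sum fun x _ => a1 x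
  · intro y hy
    set j := (Finset.univ.filter (fun c => y c = none)).card with hj
    have hj1 : 1 ≤ j := by
      obtain ⟨c, hc⟩ := hy
      exact Finset.card_pos.2 ⟨c, Finset.mem_filter.2 ⟨Finset.mem_univ _, hc⟩⟩
    have hjM : j ≤ M' := by
      refine le_trans ?_ hM
      refine (Finset.card_le_univ _).trans ?_
      rw [Fintype.card_fin]
    rw [hpsum]
    have a1 : ∀ e, F A (j * q e) - (m + m) ≤
        ∑ V : Subspace (Fin M) (Option α) ι, wt (W (q e)) V.idxFun *
          ind (∀ r : α, V (rep r y) ∈ A) := by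
      intro e
      have b1 := proper_ge M (W (q e)) (hWn e) (Finset.univ : Finset (Subspace (Fin M) (Option α) ι))
        (fun V => Finset.mem_univ _)
        (fun u => ind (∀ r : α, sub u (rep r y) ∈ A)) (fun u => ind_le_one _)
      have b2 := (abs_le.1 (law_line M (q e) (hqp e) (hMq e) (hn2 e) A y hy)).1
      have b3 := herr e
      have b4 := himp e
      have b5 : ∑ V : Subspace (Fin M) (Option α) ι, wt (W (q e)) V.idxFun *
          ind (∀ r : α, V (rep r y) ∈ A) =
        ∑ V : Subspace (Fin M) (Option α) ι, wt (W (q e)) V.idxFun *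
          ind (∀ r : α, sub V.idxFun (rep r y) ∈ A) := rfl
      rw [b5]
      have b6 : F A (j * q e) - 4 * (M * q e * b) * Real.sqrt (n : ℝ) ≤
          ex (W (q e)) (fun u : ι → Option α ⊕ Fin M => ind (∀ r : α, sub u (rep r y) ∈ A)) := by
        simp only [hb, hn, hj]
        linarith
      linarith
    -- the scale shift
    set G : ℝ → ℝ := fun t => if 0 ≤ t ∧ t ≤ 1 then F A t else 0 with hG
    have hGm : ∀ t, 0 ≤ G t ∧ G t ≤ 1 := by
      intro t
      simp only [hG]
      split_ifs with h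
      · exact F_mem A t h.1 h.2
      · exact ⟨le_refl _, zero_le_one⟩
    have hs := scl_shift hT G hGm q₀ j hj1 hjM
    have hM'1 : (1 : ℝ) ≤ M' := by exact_mod_cast hj1.trans hjM
    have c1 : ∀ e : Fin M' → Fin T, G (j * (q₀ * scl e)) = F A (j * q e) := by
      intro e
      have d0 : (j : ℝ) ≤ M' := by exact_mod_cast hjM
      have d1 : (j : ℝ) * q e ≤ 1 / 2 :=
        (mul_le_mul_of_nonneg_right d0 (hqp e).le).trans (hMq' e)
      have d2 : 0 ≤ (j : ℝ) * q e := mul_nonneg (Nat.cast_nonneg _) (hqp e).le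
      simp only [hG, hq] at d1 d2 ⊢
      rw [if_pos ⟨d2, by linarith⟩]
    have c2 : ∀ e : Fin M' → Fin T, G (q₀ * scl e) = F A (q₀ * scl e) := by
      intro e
      have d1 := hMq' e
      have d2 := hqp e
      simp only [hG, hq] at d1 d2 ⊢
      rw [if_pos ⟨d2.le, by nlinarith⟩]
    simp only [c1, c2] at hs
    have hs' := (abs_le.1 hs).1
    have a2 : (∑ e : Fin M' → Fin T, F A (j * q e)) / (T : ℝ) ^ M' - (m + m) ≤
        (∑ e : Fin M' → Fin T, ∑ V : Subspace (Fin M) (Option α) ι, wt (W (q e)) V.idxFun *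
          ind (∀ r : α, V (rep r y) ∈ A)) / (T : ℝ) ^ M' := by
      have d1 : (∑ e : Fin M' → Fin T, F A (j * q e)) / (T : ℝ) ^ M' - (m + m) =
          (∑ e : Fin M' → Fin T, (F A (j * q e) - (m + m))) / (T : ℝ) ^ M' := by
        rw [Finset.sum_sub_distrib, sub_div]
        congr 1
        rw [Finset.sum_const, Finset.card_univ, Fintype.card_fun, Fintype.card_fin,
          Fintype.card_fin, nsmul_eq_mul]
        push_cast
        field_simp
      rw [d1]
      exact div_le_div_of_nonneg_right (Finset.sum_le_sum fun e _ => a1 e) hTM.le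
    linarith

open Classical in
theorem rand (α : Type) [Fintype α] [Nonempty α] (h : DHJ α) (δ : ℝ) (hδ : 0 < δ) :
    ∃ θ : ℝ, 0 < θ ∧ θ ≤ 1 ∧ ∀ (M : ℕ) (ε : ℝ), 0 < ε → ∃ N : ℕ, ∀ (ι : Type) [Fintype ι],
      N ≤ Fintype.card ι → ∀ A : Finset (ι → Option α), δ ≤ dens A →
        ∃ (S : Finset (Subspace (Fin M) (Option α) ι)) (p : Subspace (Fin M) (Option α) ι → ℝ),
          (∀ V ∈ S, 0 ≤ p V) ∧ ∑ V ∈ S, p V ≤ 1 ∧
          dens A - ε ≤ ∑ V ∈ S, p V *
            dens (Finset.univ.filter (fun x : Fin M → Option α => V x ∈ A)) ∧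
          ∀ y : Fin M → Option α, (∃ c, y c = none) →
            θ ≤ ∑ V ∈ S, p V * ind (∀ r : α, V (rep r y) ∈ A) := by
  obtain ⟨θ, l, T₀, hθ, hθ1, hl, H⟩ := avg_F α h δ hδ
  refine ⟨θ, hθ, hθ1, fun M ε hε => ?_⟩
  set M' := max M l with hM'
  have hM1 : 1 ≤ M' := hl.trans (le_max_right _ _)
  obtain ⟨T₁, hT₁⟩ := exists_nat_gt (4 / θ)
  set T := max T₀ (T₁ + 1) with hT
  have hTpos : 0 < T := lt_of_lt_of_le (Nat.succ_pos _) (le_max_right _ _)
  have hTθ : 1 / (T : ℝ) ≤ θ / 4 := by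
    have a1 : (4 / θ : ℝ) < T := by
      refine hT₁.trans_le ?_
      have : T₁ ≤ T := (Nat.le_succ _).trans (le_max_right _ _)
      exact_mod_cast this
    have a2 : (0 : ℝ) < T := by exact_mod_cast hTpos
    rw [div_lt_iff₀ hθ] at a1
    rw [div_le_div_iff₀ a2 (by norm_num)]
    linarith
  set m : ℝ := min θ ε / 4 with hm
  have hmin : 0 < min θ ε := lt_min hθ hε
  have hm0 : 0 < m := by positivity
  have hmθ : m ≤ θ / 4 := by
    have := min_le_left θ ε
    linarith
  have hmε : m ≤ ε / 4 := by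
    have := min_le_right θ ε
    linarith
  have hm4 : m ≤ 1 / 4 := by linarith
  set K : ℝ := (M' + 1 : ℝ) ^ (M' * T) with hK
  have hK1 : 1 ≤ K := by
    rw [hK]
    exact one_le_pow₀ (by linarith [(Nat.cast_nonneg M' : (0 : ℝ) ≤ M')])
  set b : ℝ := (Fintype.card (Option α) : ℝ) with hb
  have hb1 : (1 : ℝ) ≤ b := by
    rw [hb]
    exact_mod_cast Fintype.card_pos
  -- the scale
  obtain ⟨s, hs0, hs⟩ : ∃ s : ℝ, 0 < s ∧ M * Real.exp (-s) ≤ m := by
    refine ⟨M / m + 1, by positivity, ?_⟩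
    have a1 : M / m + 1 ≤ Real.exp (M / m + 1) := by
      have := Real.add_one_le_exp (M / m + 1 : ℝ)
      linarith
    have a2 : (0 : ℝ) < Real.exp (M / m + 1) := Real.exp_pos _
    rw [Real.exp_neg, ← div_eq_mul_inv, div_le_iff₀ a2]
    have a3 : (M : ℝ) = m * (M / m) := by field_simp
    nlinarith
  set C : ℝ := M' * (s * K) * b with hC
  have hM'1 : (1 : ℝ) ≤ M' := by exact_mod_cast hM1
  have hC0 : 0 < C := by positivity
  obtain ⟨N, hN⟩ := exists_nat_gt ((4 * C / m) ^ 2)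
  refine ⟨N + 1, fun ι _ hι A hA => ?_⟩
  have hn1 : (1 : ℝ) ≤ (Fintype.card ι : ℝ) := by
    have : 1 ≤ Fintype.card ι := (Nat.le_add_left _ _).trans hι
    exact_mod_cast this
  have hnN : (4 * C / m) ^ 2 ≤ (Fintype.card ι : ℝ) := by
    have : N ≤ Fintype.card ι := (Nat.le_succ _).trans hι
    have h2 : (N : ℝ) ≤ (Fintype.card ι : ℝ) := by exact_mod_cast this
    linarith
  set n : ℝ := (Fintype.card ι : ℝ) with hn
  have hn0 : 0 < n := by linarith
  have hsqn : 4 * C / m ≤ Real.sqrt n := Real.le_sqrt_of_sq_le hnN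
  have hsn : 0 < Real.sqrt n := Real.sqrt_pos.2 hn0
  have hss : Real.sqrt n * Real.sqrt n = n := Real.mul_self_sqrt hn0.le
  have hs1 : 1 ≤ Real.sqrt n := Real.one_le_sqrt.2 hn1
  have hCm : 4 * C ≤ m * Real.sqrt n := by
    rw [div_le_iff₀ hm0] at hsqn
    linarith
  have h1 : 4 * (M' * (s / n * K) * b) * Real.sqrt n ≤ m := by
    have : 4 * (M' * (s / n * K) * b) * Real.sqrt n = 4 * C / Real.sqrt n := by
      rw [hC]
      nth_rewrite 1 [← hss]
      field_simp
    rw [this, div_le_iff₀ hsn]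
    exact hCm
  have h2 : M' * (s / n * K) ≤ 1 / 2 := by
    have a1 : M' * (s / n * K) ≤ M' * (s / n * K) * b := by
      have : 0 ≤ M' * (s / n * K) := by positivity
      nlinarith
    have a2 : 4 * (M' * (s / n * K) * b) ≤ 4 * (M' * (s / n * K) * b) * Real.sqrt n := by
      have : 0 ≤ 4 * (M' * (s / n * K) * b) := by positivity
      nlinarith
    linarith
  have hq0 : 0 < s / n := by positivity
  have hq1 : s / n ≤ 1 := by
    have a1 : s / n ≤ M' * (s / n * K) := by
      have b1 : s / n ≤ s / n * K := by nlinarith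
      have b2 : 0 ≤ s / n * K := by positivity
      nlinarith
    linarith
  have h3 : M * (1 - s / n) ^ Fintype.card ι ≤ m := by
    refine le_trans ?_ hs
    refine mul_le_mul_of_nonneg_left ?_ (Nat.cast_nonneg _)
    have a1 : (1 - s / n) ^ Fintype.card ι ≤ (Real.exp (-(s / n))) ^ Fintype.card ι :=
      pow_le_pow_left₀ (by linarith) (by linarith [Real.add_one_le_exp (-(s / n))]) _
    refine a1.trans (le_of_eq ?_)
    rw [← Real.exp_nat_mul]
    congr 1
    rw [← hn]
    field_simp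
  have hF := H M' T (le_max_right _ _) (le_max_left _ _) hTpos ι (s / n) hq0 h2
    (h1.trans (by linarith)) A hA
  exact core α ι M M' T (le_max_left _ _) hTpos (s / n) hq0 m hm4 h1 h2 h3 A θ ε hmθ hmε hTθ hF

end Pool.Agent.H18.DJ
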