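import Pool.Agent.H18.DJ.Df

/-!
# [H18 DJ Til] Tilings by subspaces

All by induction on `Tiles` (or on the finset).  A subspace is injective because every variable
occurs.
-/

set_option autoImplicit false

namespace Pool.Agent.H18.DJ

open Combinatorics

section
variable {β ι κ : Type} [Fintype β]

theorem subspace_inj {η : Type} (V : Subspace η β ι) : Function.Injective (fun x : η → β => V x) := by
  intro x y h
  funext e
  obtain ⟨i, hi⟩ := V.proper e
  have := congrFun h i
  simpa [Subspace.apply_inr hi] using this

open Classical in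
theorem card_image_subspace {m : ℕ} (V : Subspace (Fin m) β ι) :
    (Finset.univ.image (fun x : Fin m → β => V x)).card = Fintype.card β ^ m := by
  rw [Finset.card_image_of_injective _ (subspace_inj V)]
  simp

open Classical in
theorem Tiles.union {m : ℕ} {S T : Finset (ι → β)} (hS : Tiles m S) (hT : Tiles m T)
    (hd : Disjoint S T) : Tiles m (S ∪ T) := by
  induction hT with
  | empty => simpa using hS
  | add T V hT hV ih =>
    rw [← Finset.union_assoc]
    refine Tiles.add _ V (ih ?_) ?_
    · exact hd.mono_right Finset.subset_union_left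
    · intro x hx
      rcases Finset.mem_union.1 hx with h | h
      · have h2 : V x ∈ T ∪ Finset.univ.image V :=
          Finset.mem_union_right _ (Finset.mem_image_of_mem _ (Finset.mem_univ x))
        exact (Finset.disjoint_left.1 hd h) h2
      · exact hV x h

open Classical in
theorem Tiles.biUnion {m : ℕ} {τ : Type} (s : Finset τ) (f : τ → Finset (ι → β))
    (hf : ∀ i ∈ s, Tiles m (f i)) (hd : ∀ i ∈ s, ∀ j ∈ s, i ≠ j → Disjoint (f i) (f j)) :
    Tiles m (s.biUnion f) := by
  induction s using Finset.induction_on with
  | empty => simpa using Tiles.empty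
  | insert a s ha ih =>
    rw [Finset.biUnion_insert]
    refine Tiles.union (hf a (Finset.mem_insert_self _ _)) (ih ?_ ?_) ?_
    · intro i hi
      exact hf i (Finset.mem_insert_of_mem hi)
    · intro i hi j hj hij
      exact hd i (Finset.mem_insert_of_mem hi) j (Finset.mem_insert_of_mem hj) hij
    · rw [Finset.disjoint_biUnion_right]
      intro i hi
      exact hd a (Finset.mem_insert_self _ _) i (Finset.mem_insert_of_mem hi)
        (fun h => ha (h ▸ hi))

/-- put a fixed word in front of a subspace -/
def frontSub {m : ℕ} (z : ι → β) (V : Subspace (Fin m) β κ) : Subspace (Fin m) β (ι ⊕ κ) where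
  idxFun := Sum.elim (fun i => Sum.inl (z i)) V.idxFun
  proper e := by
    obtain ⟨i, hi⟩ := V.proper e
    exact ⟨Sum.inr i, hi⟩

theorem frontSub_apply {m : ℕ} (z : ι → β) (V : Subspace (Fin m) β κ) (x : Fin m → β) :
    frontSub z V x = Sum.elim z (V x) := by
  funext i
  cases i <;> rfl

open Classical in
/-- put a fixed word in front -/
theorem Tiles.front {m : ℕ} {T : Finset (κ → β)} (hT : Tiles m T) (z : ι → β) :
    Tiles m (T.image (fun w => Sum.elim z w)) := by
  induction hT with
  | empty => simpa using Tiles.empty
  | add T V hT hV ih =>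
    rw [Finset.image_union, Finset.image_image]
    have h1 : ((fun w => Sum.elim z w) ∘ fun x => V x) = fun x => frontSub z V x := by
      funext x
      simp [frontSub_apply]
    have h2 := Tiles.add _ (frontSub z V) ih (by
      intro x hx
      rw [frontSub_apply, Finset.mem_image] at hx
      obtain ⟨w, hw, hw2⟩ := hx
      have : w = V x := by
        funext i
        simpa using congrFun hw2 (Sum.inr i)
      exact hV x (this ▸ hw))
    have h3 : (Finset.univ.image (V : (Fin m → β) → κ → β)).image (fun w => Sum.elim z w) =
        Finset.univ.image (fun x => frontSub z V x) := by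
      rw [Finset.image_image]
      exact congrArg (fun f => Finset.univ.image f) h1
    rw [Finset.image_image] at h3
    rw [h3]
    exact h2

open Classical in
theorem Tiles.congr {m : ℕ} {T : Finset (ι → β)} (hT : Tiles m T) (e : ι ≃ κ) :
    Tiles m (T.image (fun w => w ∘ e.symm)) := by
  induction hT with
  | empty => simpa using Tiles.empty
  | add T V hT hV ih =>
    let V' : Subspace (Fin m) β κ := ⟨fun i => V.idxFun (e.symm i), fun c => by
      obtain ⟨i, hi⟩ := V.proper c
      exact ⟨e i, by simpa using hi⟩⟩
    have hV' : ∀ x, V' x = V x ∘ e.symm := fun x => rfl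
    have h2 := Tiles.add _ V' ih (by
      intro x hx
      rw [hV', Finset.mem_image] at hx
      obtain ⟨w, hw, hw2⟩ := hx
      have : w = V x := by
        funext i
        simpa using congrFun hw2 (e i)
      exact hV x (this ▸ hw))
    have h3 : (Finset.univ.image (V : (Fin m → β) → ι → β)).image (fun w => w ∘ e.symm) =
        Finset.univ.image (fun x => V' x) := by
      rw [Finset.image_image]
      rfl
    rw [Finset.image_union, h3]
    exact h2

/-- composition of subspaces -/
def compSub {η θ : Type} (V : Subspace η β ι) (V' : Subspace θ β η) : Subspace θ β ι where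
  idxFun i := (V.idxFun i).elim Sum.inl V'.idxFun
  proper e := by
    obtain ⟨c, hc⟩ := V'.proper e
    obtain ⟨i, hi⟩ := V.proper c
    exact ⟨i, by rw [hi]; exact hc⟩

theorem compSub_apply {η θ : Type} (V : Subspace η β ι) (V' : Subspace θ β η) (x : θ → β) :
    compSub V V' x = V (V' x) := by
  funext i
  show ((V.idxFun i).elim Sum.inl V'.idxFun).elim id x = (V.idxFun i).elim id (V' x)
  cases V.idxFun i <;> rfl

open Classical in
/-- subspaces of a subspace -/
theorem Tiles.comp {m M : ℕ} {T : Finset (Fin M → β)} (hT : Tiles m T) (V : Subspace (Fin M) β ι) :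
    Tiles m (T.image (fun x => V x)) := by
  induction hT with
  | empty => simpa using Tiles.empty
  | add T V' hT hV ih =>
    have h2 := Tiles.add _ (compSub V V') ih (by
      intro x hx
      rw [compSub_apply, Finset.mem_image] at hx
      obtain ⟨w, hw, hw2⟩ := hx
      have : w = V' x := subspace_inj V hw2
      exact hV x (this ▸ hw))
    refine Eq.mp (congrArg (Tiles m) ?_) h2
    ext w
    simp only [Finset.mem_union, Finset.mem_image, Finset.mem_univ, true_and]
    constructor
    · rintro (⟨x, hx, rfl⟩ | ⟨x, rfl⟩)
      · exact ⟨x, Or.inl hx, rfl⟩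
      · exact ⟨V' x, Or.inr ⟨x, rfl⟩, (compSub_apply V V' x).symm⟩
    · rintro ⟨y, (hy | ⟨x, rfl⟩), rfl⟩
      · exact Or.inl ⟨y, hy, rfl⟩
      · exact Or.inr ⟨x, compSub_apply V V' x⟩

open Classical in
theorem card_inter_image {m : ℕ} (V : Subspace (Fin m) β ι) (A : Finset (ι → β)) :
    (A ∩ Finset.univ.image (fun x : Fin m → β => V x)).card =
      (Finset.univ.filter (fun x : Fin m → β => V x ∈ A)).card := by
  rw [← Finset.card_image_of_injective _ (subspace_inj V)]
  congr 1
  ext w
  simp only [Finset.mem_inter, Finset.mem_image, Finset.mem_univ, true_and, Finset.mem_filter]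
  constructor
  · rintro ⟨h1, x, rfl⟩
    exact ⟨x, h1, rfl⟩
  · rintro ⟨x, h1, rfl⟩
    exact ⟨h1, x, rfl⟩

open Classical in
/-- one of the subspaces has large density -/
theorem Tiles.pigeon {m : ℕ} {T : Finset (ι → β)} (hT : Tiles m T) (A : Finset (ι → β)) (η : ℝ)
    (h : η * T.card < (A ∩ T).card) :
    ∃ V : Subspace (Fin m) β ι, (∀ x, V x ∈ T) ∧
      η * (Fintype.card β : ℝ) ^ m < ((Finset.univ.filter (fun x : Fin m → β => V x ∈ A)).card : ℝ) := by
  induction hT with
  | empty => simp at h
  | add T V hT hV ih =>
    have hd : Disjoint T (Finset.univ.image (fun x : Fin m → β => V x)) := by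
      rw [Finset.disjoint_right]
      intro w hw
      obtain ⟨x, -, rfl⟩ := Finset.mem_image.1 hw
      exact hV x
    by_cases h1 : η * T.card < (A ∩ T).card
    · obtain ⟨V', h2, h3⟩ := ih h1
      exact ⟨V', fun x => Finset.mem_union_left _ (h2 x), h3⟩
    · refine ⟨V, fun x => Finset.mem_union_right _ (Finset.mem_image_of_mem _ (Finset.mem_univ x)), ?_⟩
      rw [Finset.card_union_of_disjoint hd, Finset.inter_union_distrib_left,
        Finset.card_union_of_disjoint (hd.mono Finset.inter_subset_right Finset.inter_subset_right),
        card_image_subspace, card_inter_image] at h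
      push_cast at h
      push Not at h1
      nlinarith

open Classical in
theorem Tiles.card_le {m : ℕ} {T : Finset (ι → β)} (_hT : Tiles m T) : 0 ≤ (T.card : ℝ) := by
  positivity

open Classical in
/-- refine a tiling inside every tile -/
theorem Tiles.refine {m M : ℕ} {T : Finset (ι → β)} (hT : Tiles M T) (D : Finset (ι → β)) (η : ℝ)
    (h : ∀ V : Subspace (Fin M) β ι, (∀ x, V x ∈ T) →
      Tiled m (η * (Fintype.card β : ℝ) ^ M) (Finset.univ.filter (fun x : Fin M → β => V x ∈ D))) :
    Tiled m (η * T.card) (D ∩ T) := by
  induction hT with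
  | empty => exact ⟨∅, by simp, Tiles.empty, by simp⟩
  | add T V hT hV ih =>
    have hd : Disjoint T (Finset.univ.image (fun x : Fin M → β => V x)) := by
      rw [Finset.disjoint_right]
      intro w hw
      obtain ⟨x, -, rfl⟩ := Finset.mem_image.1 hw
      exact hV x
    obtain ⟨T1, h1, h2, h3⟩ := ih (fun V' hV' => h V' (fun x => Finset.mem_union_left _ (hV' x)))
    obtain ⟨T2, g1, g2, g3⟩ := h V
      (fun x => Finset.mem_union_right _ (Finset.mem_image_of_mem _ (Finset.mem_univ x)))
    have g4 : T2.image (fun x => V x) ⊆ D ∩ Finset.univ.image (fun x : Fin M → β => V x) := by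
      intro w hw
      obtain ⟨x, hx, rfl⟩ := Finset.mem_image.1 hw
      have := g1 hx
      rw [Finset.mem_filter] at this
      exact Finset.mem_inter.2 ⟨this.2, Finset.mem_image_of_mem _ (Finset.mem_univ x)⟩
    have hd2 : Disjoint T1 (T2.image (fun x => V x)) :=
      hd.mono (h1.trans Finset.inter_subset_right) (g4.trans Finset.inter_subset_right)
    refine ⟨T1 ∪ T2.image (fun x => V x), ?_, Tiles.union h2 (g2.comp V) hd2, ?_⟩
    · rw [Finset.inter_union_distrib_left]
      exact Finset.union_subset_union h1 g4
    · rw [Finset.card_union_of_disjoint hd, Finset.inter_union_distrib_left,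
        Finset.card_union_of_disjoint (hd.mono Finset.inter_subset_right Finset.inter_subset_right),
        Finset.card_union_of_disjoint hd2, card_image_subspace, card_inter_image,
        Finset.card_image_of_injective _ (subspace_inj V)]
      push_cast
      nlinarith

end

end Pool.Agent.H18.DJ
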