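import Pool.Agent.H18.DJ.One
import Pool.Agent.H18.DJ.Til

/-!
# [H18 DJ Stp] An insensitive set is tiled up to a small error

Let `b = card (Option α)`, `M₀` the number of `dense_ins` for `m`, `ε / 2`, `K = (b + m) ^ M₀` (at
least the number of subspaces `Subspace (Fin m) (Option α) (Fin M₀)`), `c = ε / (2 K b ^ M₀)`.
CLAIM (induction on `t`): there is `N_t` such that for `card ι ≥ N_t` every insensitive `D` is
`Tiled m (ε * b ^ n + (1 - c) ^ t * D.card)`.
-/

set_option autoImplicit false

namespace Pool.Agent.H18.DJ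

open Combinatorics

section gen
variable {β ι κ : Type} [Fintype β]

open Classical in
theorem Tiles.single {m : ℕ} (V : Subspace (Fin m) β ι) :
    Tiles m (Finset.univ.image (fun x : Fin m → β => V x)) := by
  have := Tiles.add ∅ V Tiles.empty (fun x => Finset.notMem_empty _)
  rwa [Finset.empty_union] at this

theorem Tiles.union' [inst : DecidableEq (ι → β)] {m : ℕ} {S T : Finset (ι → β)} (hS : Tiles m S)
    (hT : Tiles m T) (hd : Disjoint S T) : Tiles m (S ∪ T) := by
  have h : inst = fun a b => Classical.propDecidable (a = b) := Subsingleton.elim _ _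
  subst h
  exact Tiles.union hS hT hd

theorem Tiles.biUnion' [inst : DecidableEq (ι → β)] {m : ℕ} {τ : Type} (s : Finset τ)
    (f : τ → Finset (ι → β)) (hf : ∀ i ∈ s, Tiles m (f i))
    (hd : ∀ i ∈ s, ∀ j ∈ s, i ≠ j → Disjoint (f i) (f j)) : Tiles m (s.biUnion f) := by
  have h : inst = fun a b => Classical.propDecidable (a = b) := Subsingleton.elim _ _
  subst h
  exact Tiles.biUnion s f hf hd

theorem Tiles.front' [inst : DecidableEq (ι ⊕ κ → β)] {m : ℕ} {T : Finset (κ → β)}
    (hT : Tiles m T) (z : ι → β) : Tiles m (T.image (fun w => (Sum.elim z w : ι ⊕ κ → β))) := by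
  have h : inst = fun a b => Classical.propDecidable (a = b) := Subsingleton.elim _ _
  subst h
  exact Tiles.front hT z

theorem Tiles.single' [inst : DecidableEq (ι → β)] {m : ℕ} (V : Subspace (Fin m) β ι) :
    Tiles m (Finset.univ.image (fun x : Fin m → β => V x)) := by
  have h : inst = fun a b => Classical.propDecidable (a = b) := Subsingleton.elim _ _
  subst h
  exact Tiles.single V

open Classical in
theorem Tiled.of_empty {m : ℕ} {e : ℝ} {D : Finset (ι → β)} (h : (D.card : ℝ) ≤ e) : Tiled m e D :=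
  ⟨∅, Finset.empty_subset _, Tiles.empty, by simpa using h⟩

theorem Tiled.mono {m : ℕ} {e e' : ℝ} {D : Finset (ι → β)} (h : Tiled m e D) (hee : e ≤ e') :
    Tiled m e' D := by
  obtain ⟨T, h1, h2, h3⟩ := h
  exact ⟨T, h1, h2, h3.trans (by linarith)⟩

open Classical in
theorem Tiled.union_tiles {m : ℕ} {e : ℝ} {D R : Finset (ι → β)} (hR : Tiles m R) (hRD : R ⊆ D)
    (h : Tiled m e (D \ R)) : Tiled m e D := by
  obtain ⟨T, h1, h2, h3⟩ := h
  have hd : Disjoint T R := by
    rw [Finset.disjoint_left]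
    intro w hw hw2
    exact (Finset.mem_sdiff.1 (h1 hw)).2 hw2
  refine ⟨T ∪ R, Finset.union_subset (h1.trans Finset.sdiff_subset) hRD, Tiles.union h2 hR hd, ?_⟩
  rw [Finset.card_union_of_disjoint hd]
  have h4 : (D \ R).card + R.card = D.card := Finset.card_sdiff_add_card_eq_card hRD
  have h5 : ((D \ R).card : ℝ) + R.card = D.card := by exact_mod_cast h4
  push_cast
  linarith

theorem Tiled.union_tiles' [inst : DecidableEq (ι → β)] {m : ℕ} {e : ℝ} {D R : Finset (ι → β)}
    (hR : Tiles m R) (hRD : R ⊆ D) (h : Tiled m e (D \ R)) : Tiled m e D := by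
  have h : inst = fun a b => Classical.propDecidable (a = b) := Subsingleton.elim _ _
  subst h
  exact Tiled.union_tiles hR hRD (by assumption)

open Classical in
theorem Tiled.congr {m : ℕ} {x : ℝ} {D : Finset (ι → β)} (e : ι ≃ κ)
    (h : Tiled m x (D.image (fun w => w ∘ e.symm))) : Tiled m x D := by
  obtain ⟨T, h1, h2, h3⟩ := h
  have hinj : Function.Injective (fun w : κ → β => w ∘ e) := by
    intro w w' h
    funext i
    simpa using congrFun h (e.symm i)
  have hinj2 : Function.Injective (fun w : ι → β => w ∘ e.symm) := by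
    intro w w' h
    funext i
    simpa using congrFun h (e i)
  refine ⟨T.image (fun w => w ∘ e), ?_, ?_, ?_⟩
  · intro w hw
    obtain ⟨v, hv, rfl⟩ := Finset.mem_image.1 hw
    obtain ⟨u, hu, hu2⟩ := Finset.mem_image.1 (h1 hv)
    have : v ∘ e = u := by
      rw [← hu2]
      funext i
      simp
    rw [this]
    exact hu
  · have := h2.congr e.symm
    simpa using this
  · rw [Finset.card_image_of_injective _ hinj]
    rwa [Finset.card_image_of_injective _ hinj2] at h3

variable [Fintype ι] [Fintype κ]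

open Classical in
/-- the section of `D` at `z` -/
noncomputable def sec (D : Finset (ι ⊕ κ → β)) (z : ι → β) : Finset (κ → β) :=
  Finset.univ.filter (fun y => Sum.elim z y ∈ D)

theorem mem_sec {D : Finset (ι ⊕ κ → β)} {z : ι → β} {y : κ → β} :
    y ∈ sec D z ↔ Sum.elim z y ∈ D := by
  simp [sec]

open Classical in
theorem card_eq_sum_sec [DecidableEq ι] (D : Finset (ι ⊕ κ → β)) : D.card = ∑ z, (sec D z).card := by
  rw [Finset.card_eq_sum_card_fiberwise (f := fun w : ι ⊕ κ → β => fun i => w (Sum.inl i))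
    (t := Finset.univ) (fun _ _ => Finset.mem_coe.2 (Finset.mem_univ _))]
  refine Finset.sum_congr rfl fun z _ => ?_
  refine Finset.card_bij (fun w _ => fun i => w (Sum.inr i)) ?_ ?_ ?_
  · intro w hw
    rw [Finset.mem_filter] at hw
    rw [mem_sec]
    have : Sum.elim z (fun i => w (Sum.inr i)) = w := by
      funext i
      cases i with
      | inl i => simpa using (congrFun hw.2 i).symm
      | inr i => rfl
    rw [this]
    exact hw.1
  · intro w hw w' hw' h
    rw [Finset.mem_filter] at hw hw'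
    funext i
    cases i with
    | inl i => exact (congrFun hw.2 i).trans (congrFun hw'.2 i).symm
    | inr i => exact congrFun h i
  · intro y hy
    rw [mem_sec] at hy
    refine ⟨Sum.elim z y, ?_, ?_⟩
    · rw [Finset.mem_filter]
      exact ⟨hy, rfl⟩
    · rfl

open Classical in
theorem Tiled.sections [DecidableEq ι] {m : ℕ} (D : Finset (ι ⊕ κ → β)) (a : (ι → β) → ℝ)
    (h : ∀ z, Tiled m (a z) (sec D z)) : Tiled m (∑ z, a z) D := by
  choose T h1 h2 h3 using h
  have hinj : ∀ z : ι → β, Function.Injective (fun w : κ → β => (Sum.elim z w : ι ⊕ κ → β)) := by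
    intro z w w' hw
    funext i
    simpa using congrFun hw (Sum.inr i)
  have hdis : ∀ z ∈ (Finset.univ : Finset (ι → β)), ∀ z' ∈ (Finset.univ : Finset (ι → β)), z ≠ z' →
      Disjoint ((T z).image (fun w => (Sum.elim z w : ι ⊕ κ → β)))
        ((T z').image (fun w => (Sum.elim z' w : ι ⊕ κ → β))) := by
    intro z _ z' _ hzz
    rw [Finset.disjoint_left]
    intro w hw hw'
    obtain ⟨u, -, rfl⟩ := Finset.mem_image.1 hw
    obtain ⟨u', -, hu⟩ := Finset.mem_image.1 hw'
    apply hzz
    funext i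
    simpa using (congrFun hu (Sum.inl i)).symm
  refine ⟨Finset.univ.biUnion (fun z => (T z).image (fun w => (Sum.elim z w : ι ⊕ κ → β))), ?_, ?_, ?_⟩
  · intro w hw
    obtain ⟨z, -, hw⟩ := Finset.mem_biUnion.1 hw
    obtain ⟨u, hu, rfl⟩ := Finset.mem_image.1 hw
    exact mem_sec.1 (h1 z hu)
  · exact Tiles.biUnion' _ _ (fun z _ => (h2 z).front' z) hdis
  · rw [Finset.card_biUnion hdis, card_eq_sum_sec]
    push_cast
    rw [← Finset.sum_add_distrib]
    refine Finset.sum_le_sum fun z _ => ?_
    rw [Finset.card_image_of_injective _ (hinj z)]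
    exact h3 z

/-- put a fixed word behind a subspace -/
def backSub {m : ℕ} (V : Subspace (Fin m) β ι) (y : κ → β) : Subspace (Fin m) β (ι ⊕ κ) where
  idxFun := Sum.elim V.idxFun (fun i => Sum.inl (y i))
  proper e := by
    obtain ⟨i, hi⟩ := V.proper e
    exact ⟨Sum.inl i, hi⟩

theorem backSub_apply {m : ℕ} (V : Subspace (Fin m) β ι) (y : κ → β) (x : Fin m → β) :
    backSub V y x = Sum.elim (V x) y := by
  funext i
  cases i <;> rfl

open Classical in
/-- the product of a subspace with a set of words -/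
noncomputable def boxR {m : ℕ} (V : Subspace (Fin m) β ι) (Y : Finset (κ → β)) :
    Finset (ι ⊕ κ → β) :=
  Y.biUnion (fun y => Finset.univ.image (fun x => backSub V y x))

theorem mem_boxR {m : ℕ} {V : Subspace (Fin m) β ι} {Y : Finset (κ → β)} {z : ι → β} {y : κ → β} :
    Sum.elim z y ∈ boxR V Y ↔ (∃ x, V x = z) ∧ y ∈ Y := by
  classical
  simp only [boxR, Finset.mem_biUnion, Finset.mem_image, Finset.mem_univ, true_and, backSub_apply]
  constructor
  · rintro ⟨y', hy', x, hx⟩
    have h1 : V x = z := by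
      funext i
      simpa using congrFun hx (Sum.inl i)
    have h2 : y' = y := by
      funext i
      simpa using congrFun hx (Sum.inr i)
    exact ⟨⟨x, h1⟩, h2 ▸ hy'⟩
  · rintro ⟨⟨x, hx⟩, hy⟩
    exact ⟨y, hy, x, by rw [hx]⟩

theorem tiles_boxR {m : ℕ} (V : Subspace (Fin m) β ι) (Y : Finset (κ → β)) :
    Tiles m (boxR V Y) := by
  classical
  unfold boxR
  refine Tiles.biUnion' _ _ (fun y _ => Tiles.single' (backSub V y)) ?_
  intro y _ y' _ hyy
  rw [Finset.disjoint_left]
  intro w hw hw'
  obtain ⟨u, -, rfl⟩ := Finset.mem_image.1 hw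
  obtain ⟨u', -, hu⟩ := Finset.mem_image.1 hw'
  rw [backSub_apply, backSub_apply] at hu
  apply hyy
  funext i
  simpa using (congrFun hu (Sum.inr i)).symm

theorem card_boxR [Nonempty β] {m : ℕ} (V : Subspace (Fin m) β ι) (Y : Finset (κ → β)) :
    Y.card ≤ (boxR V Y).card := by
  classical
  obtain ⟨b⟩ := (inferInstance : Nonempty β)
  refine Finset.card_le_card_of_injOn (fun y => backSub V y (fun _ => b)) ?_ ?_
  · intro y hy
    exact Finset.mem_coe.2 (Finset.mem_biUnion.2 ⟨y, hy, Finset.mem_image_of_mem _ (Finset.mem_univ _)⟩)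
  · intro y _ y' _ h
    simp only [backSub_apply] at h
    funext i
    simpa using congrFun h (Sum.inr i)

end gen

section ins
variable {α ι κ : Type}

theorem rep_rep (r : α) (y : ι → Option α) : rep r (rep r y) = rep r y := rfl

theorem rep_elim (r : α) (z : ι → Option α) (y : κ → Option α) :
    rep r (Sum.elim z y) = Sum.elim (rep r z) (rep r y) := by
  funext i
  cases i <;> rfl

theorem ins_right {r : α} {D : Finset (ι ⊕ κ → Option α)} (h : Ins r D) (z : ι → Option α)
    (y : κ → Option α) : Sum.elim z y ∈ D ↔ Sum.elim z (rep r y) ∈ D := by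
  rw [h (Sum.elim z y), h (Sum.elim z (rep r y)), rep_elim, rep_elim, rep_rep]

theorem ins_left {r : α} {D : Finset (ι ⊕ κ → Option α)} (h : Ins r D) (z : ι → Option α)
    (y : κ → Option α) : Sum.elim z y ∈ D ↔ Sum.elim (rep r z) y ∈ D := by
  rw [h (Sum.elim z y), h (Sum.elim (rep r z) y), rep_elim, rep_elim, rep_rep]

open Classical in
theorem Ins.congr {r : α} {D : Finset (ι → Option α)} (h : Ins r D) (e : ι ≃ κ) :
    Ins r (D.image (fun w => w ∘ e.symm)) := by
  have key : ∀ y : κ → Option α, y ∈ D.image (fun w => w ∘ e.symm) ↔ y ∘ e ∈ D := by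
    intro y
    rw [Finset.mem_image]
    constructor
    · rintro ⟨w, hw, rfl⟩
      have : (w ∘ e.symm) ∘ e = w := by
        funext i
        simp
      rwa [this]
    · intro hy
      refine ⟨y ∘ e, hy, ?_⟩
      funext i
      simp
  intro y
  rw [key, key, h (y ∘ e)]
  rfl

theorem exists_congr' [Fintype α] {r : α} {D : Finset (ι → Option α)} (h : Ins r D) (e : ι ≃ κ) :
    ∃ D' : Finset (κ → Option α), Ins r D' ∧ D'.card = D.card ∧
      ∀ (m : ℕ) (x : ℝ), Tiled m x D' → Tiled m x D := by
  have hinj2 : Function.Injective (fun w : ι → Option α => w ∘ e.symm) := by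
    intro w w' h
    funext i
    simpa using congrFun h (e i)
  classical
  refine ⟨_, h.congr e, ?_, fun m x hx => Tiled.congr e hx⟩
  exact Finset.card_image_of_injective _ hinj2

end ins

open Classical in
/-- the pigeonhole step -/
theorem step (α : Type) [Fintype α] [Nonempty α] (m M₀ : ℕ) (ε : ℝ) (hε : 0 < ε)
    (hM : ∀ (r : α) (D : Finset (Fin M₀ → Option α)), Ins r D →
      ε / 2 * (Fintype.card (Option α) : ℝ) ^ M₀ ≤ D.card →
        ∃ V : Subspace (Fin m) (Option α) (Fin M₀), ∀ x, V x ∈ D)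
    (κ : Type) [Fintype κ] (r : α) (D : Finset (Fin M₀ ⊕ κ → Option α)) (hD : Ins r D)
    (hc : ε * (Fintype.card (Option α) : ℝ) ^ (M₀ + Fintype.card κ) < D.card) :
    ∃ (V : Subspace (Fin m) (Option α) (Fin M₀)) (Y : Finset (κ → Option α)), Ins r Y ∧
      boxR V Y ⊆ D ∧
      ε / 2 / ((Fintype.card (Option α) + m : ℝ) ^ M₀) *
        (Fintype.card (Option α) : ℝ) ^ Fintype.card κ ≤ Y.card := by
  set b : ℝ := (Fintype.card (Option α) : ℝ) with hb
  have hb0 : 0 < b := by
    rw [hb]
    exact_mod_cast Fintype.card_pos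
  -- the sections at `y`
  let S : (κ → Option α) → Finset (Fin M₀ → Option α) :=
    fun y => Finset.univ.filter (fun x => Sum.elim x y ∈ D)
  have hS : ∀ y x, x ∈ S y ↔ Sum.elim x y ∈ D := fun y x => by simp [S]
  have hSins : ∀ y, Ins r (S y) := fun y x => by
    rw [hS, hS]
    exact ins_left hD x y
  have hsum : D.card = ∑ y, (S y).card := by
    rw [Finset.card_eq_sum_card_fiberwise (f := fun w : Fin M₀ ⊕ κ → Option α => fun i => w (Sum.inr i))
      (t := Finset.univ) (fun _ _ => Finset.mem_coe.2 (Finset.mem_univ _))]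
    refine Finset.sum_congr rfl fun y _ => ?_
    refine Finset.card_bij (fun w _ => fun i => w (Sum.inl i)) ?_ ?_ ?_
    · intro w hw
      rw [Finset.mem_filter] at hw
      rw [hS]
      have : Sum.elim (fun i => w (Sum.inl i)) y = w := by
        funext i
        cases i with
        | inl i => rfl
        | inr i => simpa using (congrFun hw.2 i).symm
      rw [this]
      exact hw.1
    · intro w hw w' hw' h
      rw [Finset.mem_filter] at hw hw'
      funext i
      cases i with
      | inl i => exact congrFun h i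
      | inr i => exact (congrFun hw.2 i).trans (congrFun hw'.2 i).symm
    · intro x hx
      rw [hS] at hx
      refine ⟨Sum.elim x y, ?_, ?_⟩
      · rw [Finset.mem_filter]
        exact ⟨hx, rfl⟩
      · rfl
  let Y1 : Finset (κ → Option α) := Finset.univ.filter (fun y => ε / 2 * b ^ M₀ ≤ (S y).card)
  have hcardS : ∀ y, ((S y).card : ℝ) ≤ b ^ M₀ := by
    intro y
    have h1 : (S y).card ≤ Fintype.card (Fin M₀ → Option α) := Finset.card_le_univ _
    have h2 : Fintype.card (Fin M₀ → Option α) = Fintype.card (Option α) ^ M₀ := by simp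
    rw [h2] at h1
    rw [hb]
    exact_mod_cast h1
  have hY1 : ε / 2 * b ^ Fintype.card κ ≤ Y1.card := by
    have h1 : (D.card : ℝ) ≤ ∑ y, ((if y ∈ Y1 then b ^ M₀ else 0) + ε / 2 * b ^ M₀) := by
      rw [hsum]
      push_cast
      refine Finset.sum_le_sum fun y _ => ?_
      by_cases hy : y ∈ Y1
      · rw [if_pos hy]
        have := hcardS y
        have : 0 ≤ ε / 2 * b ^ M₀ := by positivity
        linarith
      · rw [if_neg hy]
        have : ¬ (ε / 2 * b ^ M₀ ≤ (S y).card) := fun h => hy (Finset.mem_filter.2 ⟨Finset.mem_univ _, h⟩)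
        push Not at this
        linarith
    rw [Finset.sum_add_distrib, Finset.sum_ite_mem, Finset.univ_inter, Finset.sum_const,
      Finset.sum_const, Finset.card_univ, nsmul_eq_mul, nsmul_eq_mul] at h1
    have h2 : (Fintype.card (κ → Option α) : ℝ) = b ^ Fintype.card κ := by
      rw [hb]
      simp
    rw [h2] at h1
    have h3 : ε * b ^ (M₀ + Fintype.card κ) < (Y1.card : ℝ) * b ^ M₀ + b ^ Fintype.card κ * (ε / 2 * b ^ M₀) :=
      lt_of_lt_of_le hc h1
    rw [pow_add] at h3
    have h4 : 0 < b ^ M₀ := by positivity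
    have h5 : (ε / 2 * b ^ Fintype.card κ) * b ^ M₀ < (Y1.card : ℝ) * b ^ M₀ := by nlinarith
    exact (lt_of_mul_lt_mul_right h5 h4.le).le
  -- choose subspaces
  have hex : ∀ y ∈ Y1, ∃ V : Subspace (Fin m) (Option α) (Fin M₀), ∀ x, V x ∈ S y := by
    intro y hy
    exact hM r (S y) (hSins y) (Finset.mem_filter.1 hy).2
  have hY1ne : Y1.Nonempty := by
    rw [← Finset.card_pos]
    have : (0 : ℝ) < Y1.card := lt_of_lt_of_le (by positivity) hY1
    exact_mod_cast this
  obtain ⟨y0, hy0⟩ := hY1ne
  let f : (κ → Option α) → Subspace (Fin m) (Option α) (Fin M₀) := fun y =>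
    if h : y ∈ Y1 then (hex y h).choose else (hex y0 hy0).choose
  have hf : ∀ y ∈ Y1, ∀ x, f y x ∈ S y := by
    intro y hy x
    simp only [f, dif_pos hy]
    exact (hex y hy).choose_spec x
  have hpig := Finset.exists_le_card_fiber_of_nsmul_le_card_of_maps_to (s := Y1)
    (t := (Finset.univ : Finset (Fin M₀ → Option α ⊕ Fin m))) (f := fun y => (f y).idxFun)
    (b := ε / 2 / ((b + m) ^ M₀) * b ^ Fintype.card κ)
    (fun _ _ => Finset.mem_univ _) ⟨(f y0).idxFun, Finset.mem_univ _⟩ (by
      rw [Finset.card_univ, nsmul_eq_mul]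
      have h2 : (Fintype.card (Fin M₀ → Option α ⊕ Fin m) : ℝ) = (b + m) ^ M₀ := by
        rw [hb]
        simp
      rw [h2]
      have h3 : (0 : ℝ) < (b + m) ^ M₀ := by positivity
      calc (b + m) ^ M₀ * (ε / 2 / (b + m) ^ M₀ * b ^ Fintype.card κ)
          = ε / 2 * b ^ Fintype.card κ := by field_simp
        _ ≤ _ := hY1)
  obtain ⟨g, -, hg⟩ := hpig
  have hne : (Y1.filter (fun y => (f y).idxFun = g)).Nonempty := by
    rw [← Finset.card_pos]
    have : (0 : ℝ) < ((Y1.filter (fun y => (f y).idxFun = g)).card : ℝ) :=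
      lt_of_lt_of_le (by positivity) hg
    exact_mod_cast this
  obtain ⟨y1, hy1⟩ := hne
  rw [Finset.mem_filter] at hy1
  let V := f y1
  refine ⟨V, Finset.univ.filter (fun y => ∀ x, Sum.elim (V x) y ∈ D), ?_, ?_, ?_⟩
  · intro y
    simp only [Finset.mem_filter, Finset.mem_univ, true_and]
    exact forall_congr' fun x => ins_right hD (V x) y
  · intro w hw
    simp only [boxR, Finset.mem_biUnion, Finset.mem_image, Finset.mem_univ, true_and,
      Finset.mem_filter, backSub_apply] at hw
    obtain ⟨y, hy, x, rfl⟩ := hw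
    exact hy x
  · refine hg.trans ?_
    have : Y1.filter (fun y => (f y).idxFun = g) ⊆ Finset.univ.filter (fun y => ∀ x, Sum.elim (V x) y ∈ D) := by
      intro y hy
      rw [Finset.mem_filter] at hy
      have hVy : f y = V := by
        have h1 : (f y).idxFun = (f y1).idxFun := hy.2.trans hy1.2.symm
        exact Subspace.ext h1
      refine Finset.mem_filter.2 ⟨Finset.mem_univ _, fun x => ?_⟩
      have := hf y hy.1 x
      rw [hVy, hS] at this
      exact this
    exact_mod_cast Finset.card_le_card this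

theorem ins_claim (α : Type) [Fintype α] [Nonempty α] (h : MDHJ α) (m : ℕ) (ε : ℝ) (hε : 0 < ε) :
    ∃ c : ℝ, 0 < c ∧ c ≤ 1 ∧ ∀ t : ℕ, ∃ N : ℕ, ∀ (ι : Type) [Fintype ι], N ≤ Fintype.card ι →
      ∀ (r : α) (D : Finset (ι → Option α)), Ins r D →
        Tiled m (ε * (Fintype.card (Option α) : ℝ) ^ Fintype.card ι + (1 - c) ^ t * D.card) D := by
  classical
  set b : ℝ := (Fintype.card (Option α) : ℝ) with hb
  have hb1 : 1 ≤ b := by
    rw [hb]
    exact_mod_cast Fintype.card_pos
  have hb0 : 0 < b := by linarith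
  obtain ⟨M₀, hM⟩ := dense_ins α h m (ε / 2) (by positivity)
  have hM' : ∀ (r : α) (D : Finset (Fin M₀ → Option α)), Ins r D →
      ε / 2 * (Fintype.card (Option α) : ℝ) ^ M₀ ≤ D.card →
        ∃ V : Subspace (Fin m) (Option α) (Fin M₀), ∀ x, V x ∈ D := by
    intro r D hD hD2
    exact hM (Fin M₀) (by simp) r D hD (by simpa using hD2)
  set c₀ : ℝ := ε / 2 / ((b + m) ^ M₀) / b ^ M₀ with hc₀
  have hc₀pos : 0 < c₀ := by positivity
  refine ⟨min 1 c₀, lt_min one_pos hc₀pos, min_le_left _ _, ?_⟩
  set c := min 1 c₀ with hc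
  have hc1 : c ≤ 1 := min_le_left _ _
  intro t
  induction t with
  | zero =>
    refine ⟨0, fun ι _ _ r D _ => Tiled.of_empty ?_⟩
    have : 0 ≤ ε * b ^ Fintype.card ι := by positivity
    simp only [pow_zero, one_mul]
    linarith
  | succ t ih =>
    obtain ⟨N, hN⟩ := ih
    refine ⟨M₀ + N, fun ι _ hι r D hD => ?_⟩
    by_cases hsmall : (D.card : ℝ) ≤ ε * b ^ Fintype.card ι
    · refine Tiled.of_empty (hsmall.trans ?_)
      have : 0 ≤ (1 - c) ^ (t + 1) * (D.card : ℝ) := mul_nonneg (pow_nonneg (by linarith) _) (Nat.cast_nonneg _)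
      linarith
    push Not at hsmall
    -- split the coordinates
    let e : ι ≃ Fin M₀ ⊕ Fin (Fintype.card ι - M₀) :=
      Fintype.equivOfCardEq (by simp; omega)
    obtain ⟨D', hD'ins, hD'card, hback⟩ := exists_congr' hD e
    refine hback _ _ ?_
    have hcard : M₀ + Fintype.card (Fin (Fintype.card ι - M₀)) = Fintype.card ι := by
      simp; omega
    obtain ⟨V, Y, hY1, hY2, hY3⟩ := step α m M₀ ε hε hM' (Fin (Fintype.card ι - M₀)) r D' hD'ins
      (by rw [hcard, hD'card]; exact hsmall)
    rw [← hD'card]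
    refine Tiled.union_tiles' (tiles_boxR V Y) hY2 ?_
    have hcardR : c * b ^ Fintype.card ι ≤ (boxR V Y).card := by
      have h1 : (Y.card : ℝ) ≤ (boxR V Y).card := by exact_mod_cast card_boxR V Y
      refine le_trans ?_ h1
      refine le_trans ?_ hY3
      have h2 : b ^ Fintype.card ι = b ^ M₀ * b ^ Fintype.card (Fin (Fintype.card ι - M₀)) := by
        rw [← pow_add, hcard]
      rw [h2]
      calc c * (b ^ M₀ * b ^ Fintype.card (Fin (Fintype.card ι - M₀)))
          ≤ c₀ * (b ^ M₀ * b ^ Fintype.card (Fin (Fintype.card ι - M₀))) :=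
            mul_le_mul_of_nonneg_right (min_le_right _ _) (by positivity)
        _ = ε / 2 / ((b + m) ^ M₀) * b ^ Fintype.card (Fin (Fintype.card ι - M₀)) := by
            rw [hc₀]
            field_simp
    have hsec : ∀ z : Fin M₀ → Option α, Tiled m
        (ε * b ^ Fintype.card (Fin (Fintype.card ι - M₀)) +
          (1 - c) ^ t * (sec (D' \ boxR V Y) z).card) (sec (D' \ boxR V Y) z) := by
      intro z
      refine hN (Fin (Fintype.card ι - M₀)) (by simp; omega) r _ ?_
      intro y
      rw [mem_sec, mem_sec, Finset.mem_sdiff, Finset.mem_sdiff, mem_boxR, mem_boxR,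
        ins_right hD'ins z y, hY1 y]
    refine (Tiled.sections _ _ hsec).mono ?_
    rw [Finset.sum_add_distrib, Finset.sum_const, ← Finset.mul_sum, Finset.card_univ, nsmul_eq_mul]
    have h2 : (Fintype.card (Fin M₀ → Option α) : ℝ) = b ^ M₀ := by
      rw [hb]
      simp
    have h3 : b ^ Fintype.card ι = b ^ M₀ * b ^ Fintype.card (Fin (Fintype.card ι - M₀)) := by
      rw [← pow_add, hcard]
    have h4 : ((D' \ boxR V Y).card : ℝ) = ∑ z, ((sec (D' \ boxR V Y) z).card : ℝ) := by
      rw [card_eq_sum_sec (D' \ boxR V Y)]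
      push_cast
      rfl
    have h5 : ((D' \ boxR V Y).card : ℝ) + (boxR V Y).card = D'.card := by
      exact_mod_cast Finset.card_sdiff_add_card_eq_card hY2
    have h6 : (D'.card : ℝ) ≤ b ^ Fintype.card ι := by
      rw [hD'card]
      have h1 : D.card ≤ Fintype.card (ι → Option α) := Finset.card_le_univ _
      have h2 : Fintype.card (ι → Option α) = Fintype.card (Option α) ^ Fintype.card ι := by simp
      rw [h2] at h1
      rw [hb]
      exact_mod_cast h1
    rw [h2, ← h4]
    have hcn : 0 ≤ c := (lt_min one_pos hc₀pos).le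
    have h7 : ((D' \ boxR V Y).card : ℝ) ≤ (1 - c) * D'.card := by nlinarith
    have h8 : 0 ≤ (1 - c) ^ t := pow_nonneg (by linarith) _
    have h9 : (1 - c) ^ t * ((D' \ boxR V Y).card : ℝ) ≤ (1 - c) ^ (t + 1) * D'.card := by
      rw [pow_succ]
      calc (1 - c) ^ t * ((D' \ boxR V Y).card : ℝ) ≤ (1 - c) ^ t * ((1 - c) * D'.card) :=
            mul_le_mul_of_nonneg_left h7 h8
        _ = (1 - c) ^ t * (1 - c) * D'.card := by ring
    rw [h3]
    linarith

theorem ins_tiled (α : Type) [Fintype α] [Nonempty α] (h : MDHJ α) (m : ℕ) (ε : ℝ) (hε : 0 < ε) :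
    ∃ N : ℕ, ∀ (ι : Type) [Fintype ι], N ≤ Fintype.card ι → ∀ (r : α) (D : Finset (ι → Option α)),
      Ins r D → Tiled m (ε * (Fintype.card (Option α) : ℝ) ^ Fintype.card ι) D := by
  classical
  obtain ⟨c, hc0, hc1, hc⟩ := ins_claim α h m (ε / 2) (by positivity)
  obtain ⟨t, ht⟩ : ∃ t : ℕ, (1 - c) ^ t < ε / 2 :=
    exists_pow_lt_of_lt_one (by positivity) (by linarith)
  obtain ⟨N, hN⟩ := hc t
  refine ⟨N, fun ι _ hι r D hD => (hN ι hι r D hD).mono ?_⟩
  have h6 : (D.card : ℝ) ≤ (Fintype.card (Option α) : ℝ) ^ Fintype.card ι := by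
    have h1 : D.card ≤ Fintype.card (ι → Option α) := Finset.card_le_univ _
    have h2 : Fintype.card (ι → Option α) = Fintype.card (Option α) ^ Fintype.card ι := by simp
    rw [h2] at h1
    exact_mod_cast h1
  have h7 : (1 - c) ^ t * (D.card : ℝ) ≤ ε / 2 * (Fintype.card (Option α) : ℝ) ^ Fintype.card ι :=
    mul_le_mul ht.le h6 (Nat.cast_nonneg _) (by positivity)
  linarith

end Pool.Agent.H18.DJ
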